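import Pool.Agent.X305.WM.EulerPoly

/-!
# The space of endomorphisms: definition
-/

set_option autoImplicit false

namespace Pool.Agent.X305.WM

open Module Polynomial Pool.Agent.X268.WM

universe u

variable {Ω : Type} [Field Ω] [CharZero Ω] {q : ℕ}

/-- The isomorphism `e` of `X` with the space of the endomorphisms of `V` maps `G` to `Z ↦ F Z F⁻¹` and `M` to
`Z ↦ N Z - Z N`. -/
def IsEndSystem {V X : Type u} [AddCommGroup V] [Module Ω V] [AddCommGroup X] [Module Ω X]
    (F N : End Ω V) (G M : End Ω X) (e : X ≃ₗ[Ω] End Ω V) : Prop :=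
  (∀ z, e (G z) * F = F * e z) ∧ ∀ z, e (M z) = N * e z - e z * N

/-- `A` is the space of the endomorphisms of `W`, with `F Z F⁻¹` for the Frobenius operator and `[N, Z]` for the
monodromy operator. -/
def IsEndOf (A W : FN.{u} Ω q) : Prop :=
  ∃ e, IsEndSystem W.F W.N A.F A.N e

/-- Formed with `A`, the local `L`-factor has no pole at `s = 1`: the number `q` is not a root of the
characteristic polynomial of `F` on the kernel of `N`. -/
def NoPoleAtOne (A : FN.{u} Ω q) : Prop := ¬(kerPoly A).IsRoot (q : Ω)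

/-- The characteristic polynomials of `F` on the `W l` are one polynomial with rational coefficients. -/
def OneCharpoly {Λ : Type} (Ω : Λ → Type) [∀ l, Field (Ω l)] [∀ l, CharZero (Ω l)]
    (W : ∀ l, FN.{u} (Ω l) q) : Prop :=
  ∃ P : ℚ[X], ∀ l, (W l).F.charpoly = P.map (algebraMap ℚ (Ω l))

/-- The characteristic polynomials of `F` on the kernels of `N` in the `W l` are one polynomial with rational
coefficients. -/
def OneKerPoly {Λ : Type} (Ω : Λ → Type) [∀ l, Field (Ω l)] [∀ l, CharZero (Ω l)]
    (W : ∀ l, FN.{u} (Ω l) q) : Prop :=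
  ∃ K : ℚ[X], ∀ l, kerPoly (W l) = K.map (algebraMap ℚ (Ω l))

end Pool.Agent.X305.WM
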