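import Pool.Agent.X305.WM.PairDefs

/-!
# Dual pairs and common poles of local `L`-factors
-/

set_option autoImplicit false

namespace Pool.Agent.X305.WM

open Module Polynomial Pool.Agent.X268.WM Pool.Agent.X268.EV

universe u

variable {Ω : Type} [Field Ω] [CharZero Ω] {q : ℕ} {W' W : FN.{u} Ω q}

theorem inj_F_of_pair (h : DualPair W' W) : Function.Injective W.F := by
  obtain ⟨B, _, hr, hF, _⟩ := h
  rw [injective_iff_map_eq_zero]
  intro x hx
  refine hr x fun z => ?_
  rw [← hF, hx, map_zero]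

/-- The adjoint of `F - c`. -/
theorem pair_pow {B : W'.V →ₗ[Ω] W.V →ₗ[Ω] Ω} (hF : ∀ z x, B (W'.F z) (W.F x) = B z x) (c : Ω)
    (K : ℕ) (z : W'.V) (x : W.V) :
    B (((W'.F - c • (1 : End Ω W'.V)) ^ K) z) ((W.F ^ K) x) =
      B z ((((1 : End Ω W.V) - c • W.F) ^ K) x) := by
  induction K generalizing x z with
  | zero => simp
  | succ K ih =>
    rw [pow_succ' (W'.F - c • (1 : End Ω W'.V)), Module.End.mul_apply, pow_succ' W.F,
      Module.End.mul_apply]
    set z' := ((W'.F - c • (1 : End Ω W'.V)) ^ K) z with hz'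
    set x' := (W.F ^ K) x with hx'
    have h1 : B ((W'.F - c • (1 : End Ω W'.V)) z') (W.F x') =
        B z' (((1 : End Ω W.V) - c • W.F) x') := by
      rw [LinearMap.sub_apply, LinearMap.smul_apply, Module.End.one_apply, LinearMap.sub_apply,
        LinearMap.smul_apply, Module.End.one_apply, map_sub, map_smul, LinearMap.sub_apply,
        LinearMap.smul_apply, hF, map_sub, map_smul]
    rw [h1]
    have hcomm : Commute ((1 : End Ω W.V) - c • W.F) (W.F ^ K) := by
      refine Commute.sub_left ?_ ?_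
      · exact Commute.one_left _
      · exact ((Commute.refl W.F).pow_right K).smul_left _
    have h2 : ((1 : End Ω W.V) - c • W.F) x' =
        (W.F ^ K) (((1 : End Ω W.V) - c • W.F) x) := by
      rw [hx', ← Module.End.mul_apply, hcomm.eq, Module.End.mul_apply]
    rw [h2, hz', ih, ← Module.End.mul_apply, ← pow_succ]

theorem exists_pow (W : FN.{u} Ω q) (a : Ω) :
    ∃ K : ℕ, ∀ x ∈ gen W a, ((W.F - a • (1 : End Ω W.V)) ^ K) x = 0 := by
  refine ⟨finrank Ω W.V, fun x hx => ?_⟩
  have h1 := Module.End.maxGenEigenspace_eq_genEigenspace_finrank W.F a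
  rw [gen, h1, Module.End.mem_genEigenspace_nat] at hx
  exact hx

theorem stable (W : FN.{u} Ω q) (c b : Ω) (k : ℕ) : ∀ v ∈ gen W b,
    ((((1 : End Ω W.V) - c • W.F) ^ k) v) ∈ gen W b := by
  induction k with
  | zero => intro v hv; simpa using hv
  | succ k ih =>
    intro v hv
    rw [pow_succ', Module.End.mul_apply, LinearMap.sub_apply, LinearMap.smul_apply,
      Module.End.one_apply]
    refine Submodule.sub_mem _ (ih v hv) (Submodule.smul_mem _ _ ?_)
    exact Module.End.mapsTo_maxGenEigenspace_of_comm (Commute.refl W.F) b (ih v hv)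

/-- Generalized eigenspaces are orthogonal. -/
theorem ortho {B : W'.V →ₗ[Ω] W.V →ₗ[Ω] Ω} (hF : ∀ z x, B (W'.F z) (W.F x) = B z x) {c b : Ω}
    (hcb : c * b ≠ 1) {z : W'.V} (hz : z ∈ gen W' c) {x : W.V} (hx : x ∈ gen W b) : B z x = 0 := by
  obtain ⟨K, hK⟩ := exists_pow W' c
  -- the operator `1 - c F` on the generalized eigenspace
  let S : gen W b →ₗ[Ω] gen W b := ((((1 : End Ω W.V) - c • W.F) ^ 1).restrict (stable W c b 1))
  have hS : Function.Injective S := by
    rw [injective_iff_map_eq_zero]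
    rintro ⟨v, hv⟩ h0
    have h1 : ((1 : End Ω W.V) - c • W.F) v = 0 := by
      have h2 := congrArg Subtype.val h0
      change (((1 : End Ω W.V) - c • W.F) ^ 1) v = 0 at h2
      rwa [pow_one] at h2
    rw [LinearMap.sub_apply, LinearMap.smul_apply, Module.End.one_apply, sub_eq_zero] at h1
    by_contra hne
    have hv0 : v ≠ 0 := fun h => hne (Subtype.ext h)
    have hc0 : c ≠ 0 := by
      rintro rfl
      rw [zero_smul] at h1
      exact hv0 h1
    have h3 : W.F v = c⁻¹ • v := by
      rw [eq_inv_smul_iff₀ hc0]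
      exact h1.symm
    have h4 : v ∈ gen W c⁻¹ := (Module.End.mem_maxGenEigenspace _ _ _).2 ⟨1, by
      rw [pow_one, LinearMap.sub_apply, LinearMap.smul_apply, Module.End.one_apply, h3, sub_self]⟩
    have h5 : b = c⁻¹ := by
      by_contra hb
      exact hv0 (Submodule.disjoint_def.1 ((gen_indep W).pairwiseDisjoint hb) v hv h4)
    exact hcb (by rw [h5, mul_inv_cancel₀ hc0])
  have hS' : ∀ k : ℕ, ∀ x ∈ gen W b, ∃ y ∈ gen W b, (((1 : End Ω W.V) - c • W.F) ^ k) y = x := by
    intro k
    induction k with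
    | zero => intro x hx; exact ⟨x, hx, by simp⟩
    | succ k ih =>
      intro x hx
      obtain ⟨y, hy, hyx⟩ := ih x hx
      obtain ⟨⟨w, hw⟩, hwy⟩ := (LinearMap.injective_iff_surjective.1 hS) ⟨y, hy⟩
      have h2 : ((1 : End Ω W.V) - c • W.F) w = y := by
        have h3 := congrArg Subtype.val hwy
        change (((1 : End Ω W.V) - c • W.F) ^ 1) w = y at h3
        rwa [pow_one] at h3
      exact ⟨w, hw, by rw [pow_succ, Module.End.mul_apply, h2, hyx]⟩
  obtain ⟨y, _, rfl⟩ := hS' K x hx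
  rw [← pair_pow hF, hK z hz, map_zero, LinearMap.zero_apply]

/-- If `N` is surjective, it is injective on the dual part. -/
theorem inj_of_surj [IsAlgClosed Ω] (h : DualPair W' W) {a : Ω} (ha : a ≠ 0) (hq0 : (q : Ω) ≠ 0)
    (hs : ∀ y ∈ gen W (a / q), ∃ x ∈ gen W a, W.N x = y) :
    ∀ z ∈ gen W' ((q : Ω) / a), W'.N z = 0 → z = 0 := by
  obtain ⟨B, hl, _, hF, hN⟩ := h
  intro z hz hz0
  refine hl z fun x => ?_
  have h1 : ∀ x ∈ ⨆ b, gen W b, B z x = 0 := by
    intro x hx
    have h2 : (⨆ b, gen W b) ≤ LinearMap.ker (B z) := by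
      refine iSup_le fun b v hv => ?_
      rw [LinearMap.mem_ker]
      by_cases hb : b = a / q
      · subst hb
        obtain ⟨w, _, rfl⟩ := hs v hv
        have h3 := hN z w
        rw [hz0, map_zero, LinearMap.zero_apply] at h3
        exact neg_eq_zero.1 h3.symm
      · refine ortho hF ?_ hz hv
        intro h4
        apply hb
        field_simp at h4 ⊢
        linear_combination h4
    exact h2 hx
  exact h1 x (by rw [show (⨆ b, gen W b) = ⊤ from Module.End.iSup_maxGenEigenspace_eq_top W.F]; trivial)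

/-- If `N` is injective on the dual part, it is surjective. -/
theorem surj_of_inj [IsAlgClosed Ω] (hq : 1 < q) (h : DualPair W' W) {a : Ω} (ha : a ≠ 0)
    (hi : ∀ z ∈ gen W' ((q : Ω) / a), W'.N z = 0 → z = 0) :
    ∀ y ∈ gen W (a / q), ∃ x ∈ gen W a, W.N x = y := by
  have hq0 : (q : Ω) ≠ 0 := by exact_mod_cast (by omega : q ≠ 0)
  have hFi := inj_F_of_pair h
  obtain ⟨B, hl, hr, hF, hN⟩ := h
  intro y hy
  by_contra hcon
  set U : Submodule Ω W.V := (gen W a).map W.N ⊔ ⨆ b, ⨆ (_ : b ≠ a / q), gen W b with hU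
  have hyU : y ∉ U := by
    intro hyU
    obtain ⟨u, hu, v, hv, huv⟩ := Submodule.mem_sup.1 hyU
    obtain ⟨x, hx, rfl⟩ := hu
    have h1 : W.N x ∈ gen W (a / q) := gen_shift hq W a x hx
    have h2 : v ∈ gen W (a / q) := by
      have : v = y - W.N x := by rw [← huv]; abel
      rw [this]
      exact Submodule.sub_mem _ hy h1
    have h3 : v = 0 := Submodule.disjoint_def.1 (gen_indep W (a / q)) v h2 hv
    rw [h3, add_zero] at huv
    exact hcon ⟨x, hx, huv⟩
  obtain ⟨ψ, hψy, hψU⟩ := Submodule.exists_le_ker_of_notMem hyU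
  have hinj : Function.Injective B := by
    rw [injective_iff_map_eq_zero]
    intro x hx
    exact hl x fun y => by rw [hx]; rfl
  have hinj' : Function.Injective B.flip := by
    rw [injective_iff_map_eq_zero]
    intro x hx
    exact hr x fun z => by
      have h1 := LinearMap.congr_fun hx z
      rwa [LinearMap.flip_apply, LinearMap.zero_apply] at h1
  have hfr : finrank Ω W'.V = finrank Ω (W.V →ₗ[Ω] Ω) := by
    refine le_antisymm (LinearMap.finrank_le_finrank_of_injective hinj) ?_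
    have h1 := LinearMap.finrank_le_finrank_of_injective hinj'
    rw [Subspace.dual_finrank_eq] at h1 ⊢
    exact h1
  have hsur : Function.Surjective B :=
    (LinearMap.injective_iff_surjective_of_finrank_eq_finrank (f := B) hfr).1 hinj
  obtain ⟨z, hz⟩ := hsur ψ
  have hz0 : z ≠ 0 := by
    rintro rfl
    rw [map_zero] at hz
    exact hψy (by rw [← hz]; rfl)
  have hzN : W'.N z = 0 := by
    refine hl _ fun x => ?_
    rw [hN, neg_eq_zero, hz]
    have h1 : ∀ x ∈ ⨆ b, gen W b, ψ (W.N x) = 0 := by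
      intro x hx
      have h2 : (⨆ b, gen W b) ≤ (LinearMap.ker ψ).comap W.N := by
        refine iSup_le fun b v hv => ?_
        rw [Submodule.mem_comap]
        apply hψU
        by_cases hb : b = a
        · subst hb
          exact Submodule.mem_sup_left ⟨v, hv, rfl⟩
        · refine Submodule.mem_sup_right (Submodule.mem_iSup_of_mem (b / q)
            (Submodule.mem_iSup_of_mem ?_ (gen_shift hq W b v hv)))
          intro h
          apply hb
          field_simp at h
          exact h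
      exact h2 hx
    exact h1 x (by rw [show (⨆ b, gen W b) = ⊤ from Module.End.iSup_maxGenEigenspace_eq_top W.F]; trivial)
  have hzg : z ∈ gen W' ((q : Ω) / a) := by
    rw [gen, Module.End.mem_maxGenEigenspace]
    set c := (q : Ω) / a with hc
    have hc0 : c ≠ 0 := div_ne_zero hq0 ha
    obtain ⟨K, hK⟩ := exists_pow W (a / q)
    refine ⟨K, hl _ fun x => ?_⟩
    have hFs : Function.Surjective (W.F ^ K) := by
      have h1 : Function.Surjective W.F := LinearMap.injective_iff_surjective.1 hFi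
      rw [Module.End.coe_pow]
      exact h1.iterate K
    obtain ⟨x, rfl⟩ := hFs x
    rw [pair_pow hF, hz]
    have h1 : ∀ x ∈ ⨆ b, gen W b, ψ ((((1 : End Ω W.V) - c • W.F) ^ K) x) = 0 := by
      intro x hx
      have h2 : (⨆ b, gen W b) ≤ (LinearMap.ker ψ).comap (((1 : End Ω W.V) - c • W.F) ^ K) := by
        refine iSup_le fun b v hv => ?_
        rw [Submodule.mem_comap]
        by_cases hb : b = a / q
        · subst hb
          have h3 : (1 : End Ω W.V) - c • W.F = (-c) • (W.F - (a / q) • (1 : End Ω W.V)) := by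
            rw [smul_sub, smul_smul, neg_smul, neg_mul, neg_smul, sub_neg_eq_add, neg_add_eq_sub]
            congr 2
            rw [hc, div_mul_div_cancel₀' hq0, div_self ha, one_smul]
          rw [h3, _root_.smul_pow, LinearMap.smul_apply, hK v hv, smul_zero]
          exact Submodule.zero_mem _
        · apply hψU
          exact Submodule.mem_sup_right (Submodule.mem_iSup_of_mem b
            (Submodule.mem_iSup_of_mem hb (stable W c b K v hv)))
      exact h2 hx
    exact h1 x (by rw [show (⨆ b, gen W b) = ⊤ from Module.End.iSup_maxGenEigenspace_eq_top W.F]; trivial)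
  exact hz0 (hi z hzg hzN)

theorem kmult_zero_iff (W : FN.{u} Ω q) (a : Ω) :
    kmult W a = 0 ↔ ∀ v ∈ gen W a, W.N v = 0 → v = 0 := by
  rw [kmult, Submodule.finrank_eq_zero, eq_bot_iff]
  constructor
  · intro h v hv h0
    exact h ⟨h0, hv⟩
  · rintro h x ⟨h1, h2⟩
    exact h x h2 h1

theorem isRoot_iff (W : FN.{u} Ω q) (a : Ω) : (kerPoly W).IsRoot a ↔ kmult W a ≠ 0 := by
  have h0 : kerPoly W ≠ 0 := (LinearMap.charpoly_monic _).ne_zero
  rw [← rm_kerPoly, ← Nat.pos_iff_ne_zero]
  exact (rootMultiplicity_pos h0).symm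

/-- The multiplicity is the expected one if and only if `N` has maximal rank. -/
theorem kmult_eq_iff (hq : 1 < q) (W : FN.{u} Ω q) (a : Ω) :
    kmult W a = W.mult a - W.mult (a / q) ↔ kmult W a = 0 ∨
      ∀ y ∈ gen W (a / q), ∃ x ∈ gen W a, W.N x = y := by
  constructor
  · intro h
    by_cases h0 : kmult W a = 0
    · exact Or.inl h0
    · right
      have h1 := LinearMap.finrank_range_add_finrank_ker (Na hq W a)
      rw [finrank_ker_Na] at h1
      change _ + kmult W a = W.mult a at h1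
      have h2 : finrank Ω ↥(LinearMap.range (Na hq W a)) = finrank Ω ↥(gen W (a / q)) := by
        change _ = W.mult (a / q)
        omega
      have h3 : LinearMap.range (Na hq W a) = ⊤ := Submodule.eq_top_of_finrank_eq h2
      intro y hy
      obtain ⟨⟨x, hx⟩, hxy⟩ := (LinearMap.range_eq_top.1 h3) ⟨y, hy⟩
      exact ⟨x, hx, congrArg Subtype.val hxy⟩
  · rintro (h | h)
    · have h1 := kmult_of_inj hq W a ((kmult_zero_iff W a).1 h)
      rw [h1.1, h1.2]
    · exact kmult_of_surj hq W a h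

/-- **The multiplicities and the common poles.** -/
theorem kmult_iff [IsAlgClosed Ω] (hq : 1 < q) (h : DualPair W' W) :
    (∀ a, kmult W a = W.mult a - W.mult (a / q)) ↔ NoCommonPole W' W := by
  have hq0 : (q : Ω) ≠ 0 := by exact_mod_cast (by omega : q ≠ 0)
  have h00 : gen W 0 = ⊥ := by
    rw [eq_bot_iff]
    intro v hv
    obtain ⟨K, hK⟩ := exists_pow W 0
    have h1 := hK v hv
    rw [zero_smul, sub_zero] at h1
    have h2 : Function.Injective (W.F ^ K) := by
      rw [Module.End.coe_pow]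
      exact (inj_F_of_pair h).iterate K
    exact h2 (by rw [h1, map_zero])
  have h0 : kmult W 0 = 0 := by
    rw [kmult_zero_iff]
    intro v hv _
    rw [h00] at hv
    exact hv
  constructor
  · intro H a ha hb
    rw [isRoot_iff] at ha hb
    have ha0 : a ≠ 0 := by
      rintro rfl
      exact ha h0
    rcases (kmult_eq_iff hq W a).1 (H a) with h1 | h1
    · exact ha h1
    · exact hb ((kmult_zero_iff W' _).2 (inj_of_surj h ha0 hq0 h1))
  · intro H a
    rw [kmult_eq_iff hq]
    by_cases ha : kmult W a = 0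
    · exact Or.inl ha
    · right
      have ha0 : a ≠ 0 := by
        rintro rfl
        exact ha h0
      have h1 := H a ((isRoot_iff W a).2 ha)
      rw [isRoot_iff, not_not] at h1
      exact surj_of_inj hq h ha0 ((kmult_zero_iff W' _).1 h1)

theorem noCommonPole_of_weights (hq : 1 < q) (h : SmallWeights W' W) : NoCommonPole W' W := by
  have hq0 : (q : Ω) ≠ 0 := by exact_mod_cast (by omega : q ≠ 0)
  intro a ha hb
  obtain ⟨w, w', hw, hw', hlt⟩ := h a _ ha hb
  have h1 := (hw.conj (by omega : 0 < q)).scale (by omega : 0 < q) (1 - w)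
  have h2 : (q : Ω) ^ w / a * (q : Ω) ^ (1 - w) = (q : Ω) / a := by
    rw [div_mul_eq_mul_div, ← zpow_add₀ hq0]
    congr 1
    rw [show w + (1 - w) = 1 by ring, zpow_one]
  rw [h2] at h1
  have h3 := weight_unique hq h1 hw'
  omega

theorem noCommonPole_of_monodromy [IsAlgClosed Ω] (hq : 1 < q) (h : DualPair W' W) {i : ℤ}
    (hp : WeightMonodromy W i) : NoCommonPole W' W := by
  have hq0 : (q : Ω) ≠ 0 := by exact_mod_cast (by omega : q ≠ 0)
  rw [← kmult_iff hq h]
  intro a
  rw [kmult_eq_iff hq]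
  by_cases ha : kmult W a = 0
  · exact Or.inl ha
  right
  rw [kmult_zero_iff] at ha
  push Not at ha
  obtain ⟨v, hv, hNv, hv0⟩ := ha
  obtain ⟨w, hw⟩ := exists_weight_of_mem hp.1 hv hv0
  have hwi : w ≤ i := by
    by_contra hlt
    push Not at hlt
    obtain ⟨k, hk⟩ : ∃ k : ℕ, (k : ℤ) = w - i := ⟨(w - i).toNat, Int.toNat_of_nonneg (by omega)⟩
    have hk0 : k ≠ 0 := by omega
    refine hv0 ((hp.2 k a (by convert hw using 1; omega)).1 v hv ?_)
    obtain ⟨j, rfl⟩ := Nat.exists_eq_succ_of_ne_zero hk0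
    rw [Nat.succ_eq_add_one, pow_succ, Module.End.mul_apply, hNv, map_zero]
  obtain ⟨k, hk⟩ : ∃ k : ℕ, (k : ℤ) = i - w + 1 := ⟨(i - w + 1).toNat, Int.toNat_of_nonneg (by omega)⟩
  intro y hy
  have h1 := hw.scale (by omega : 0 < q) (k : ℤ)
  have h2 : IsWeil q (i + ((k + 1 : ℕ) : ℤ)) (a * (q : Ω) ^ (k : ℤ)) := by
    convert h1 using 1
    push_cast
    omega
  rw [zpow_natCast] at h2
  have h3 : a * (q : Ω) ^ k / (q : Ω) ^ (k + 1) = a / q := by
    rw [pow_succ]
    field_simp
  obtain ⟨x, hx, hxy⟩ := (hp.2 (k + 1) _ h2).2 y (by rw [h3]; exact hy)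
  refine ⟨(W.N ^ k) x, ?_, by rw [← hxy, pow_succ', Module.End.mul_apply]⟩
  have h4 : ∀ (j : ℕ) (b : Ω), ∀ v ∈ gen W b, (W.N ^ j) v ∈ gen W (b / (q : Ω) ^ j) := by
    intro j
    induction j with
    | zero => intro b v hv; simpa using hv
    | succ j ih =>
      intro b v hv
      have h6 : (W.N ^ (j + 1)) v = W.N ((W.N ^ j) v) := by rw [pow_succ', Module.End.mul_apply]
      rw [h6, pow_succ, ← div_div]
      exact gen_shift hq W _ _ (ih b v hv)
  have h5 := h4 k _ x hx
  rwa [mul_div_assoc, div_self (pow_ne_zero _ hq0), mul_one] at h5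

/-- The reduced polynomial of a rational polynomial. -/
theorem exists_reduced_rat (hq : 1 < q) {P : ℚ[X]} (hP : P.Monic) :
    ∃ R : ℚ[X], R.Monic ∧ Associated R (reducedPoly q P) ∧
      ∀ (Ω : Type) [Field Ω] [CharZero Ω] (a : Ω), rootMultiplicity a (R.map (algebraMap ℚ Ω)) =
        rootMultiplicity a (P.map (algebraMap ℚ Ω)) -
          rootMultiplicity (a / q) (P.map (algebraMap ℚ Ω)) := by
  classical
  have hq0 : (q : ℚ) ≠ 0 := by exact_mod_cast (by omega : q ≠ 0)
  have hP0 : P ≠ 0 := hP.ne_zero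
  set D := EuclideanDomain.gcd P (P.comp (C ((q : ℚ)⁻¹) * X)) with hD
  have hD0 : D ≠ 0 := by
    intro h
    exact hP0 (EuclideanDomain.gcd_eq_zero_iff.1 h).1
  have hR0 : reducedPoly q P * D = P := by
    rw [reducedPoly, ← hD, mul_comm]
    exact EuclideanDomain.mul_div_cancel' hD0 (EuclideanDomain.gcd_dvd_left _ _)
  have hR00 : reducedPoly q P ≠ 0 := by
    intro h
    rw [h, zero_mul] at hR0
    exact hP0 hR0.symm
  have hlc : (reducedPoly q P).leadingCoeff ≠ 0 := leadingCoeff_ne_zero.2 hR00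
  refine ⟨reducedPoly q P * C (reducedPoly q P).leadingCoeff⁻¹, monic_mul_leadingCoeff_inv hR00, ?_, ?_⟩
  · refine Associated.symm ⟨(isUnit_C.2 (Ne.isUnit (inv_ne_zero hlc))).unit, ?_⟩
    rw [IsUnit.unit_spec]
  · intro Ω _ _ a
    have hqΩ : (q : Ω) ≠ 0 := by exact_mod_cast (by omega : q ≠ 0)
    have hPΩ : P.map (algebraMap ℚ Ω) ≠ 0 := (hP.map _).ne_zero
    have hRΩ : (reducedPoly q P).map (algebraMap ℚ Ω) ≠ 0 := by
      rwa [Ne, Polynomial.map_eq_zero]
    have hDΩ : D.map (algebraMap ℚ Ω) ≠ 0 := by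
      rwa [Ne, Polynomial.map_eq_zero]
    have hcΩ : (C (algebraMap ℚ Ω (reducedPoly q P).leadingCoeff⁻¹) : Polynomial Ω) ≠ 0 := by
      rw [Ne, C_eq_zero, map_eq_zero]
      exact inv_ne_zero hlc
    have h1 : (reducedPoly q P).map (algebraMap ℚ Ω) * D.map (algebraMap ℚ Ω) =
        P.map (algebraMap ℚ Ω) := by
      rw [← Polynomial.map_mul, hR0]
    have h2 := congrArg (rootMultiplicity a) h1
    rw [rootMultiplicity_mul (mul_ne_zero hRΩ hDΩ)] at h2
    have h3 : D.map (algebraMap ℚ Ω) = EuclideanDomain.gcd (P.map (algebraMap ℚ Ω))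
        ((P.map (algebraMap ℚ Ω)).comp (C ((q : Ω)⁻¹) * X)) := by
      rw [hD, ← gcd_map, Polynomial.map_comp, Polynomial.map_mul, Polynomial.map_C,
        Polynomial.map_X, map_inv₀, map_natCast]
    have hcomp0 : (P.map (algebraMap ℚ Ω)).comp (C ((q : Ω)⁻¹) * X) ≠ 0 := by
      intro h
      have h6 : ((P.map (algebraMap ℚ Ω)).comp (C ((q : Ω)⁻¹) * X)).comp (C (q : Ω) * X) =
          P.map (algebraMap ℚ Ω) := by
        rw [comp_assoc, mul_comp, C_comp, X_comp, ← mul_assoc, ← C_mul, inv_mul_cancel₀ hqΩ, C_1,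
          one_mul, comp_X]
      rw [h, zero_comp] at h6
      exact hPΩ h6.symm
    rw [h3, rm_gcd hPΩ hcomp0, rm_comp hPΩ (inv_ne_zero hqΩ), inv_mul_eq_div] at h2
    rw [Polynomial.map_mul, Polynomial.map_C, rootMultiplicity_mul (mul_ne_zero hRΩ hcΩ),
      rootMultiplicity_C, add_zero]
    omega

/-- **Common poles and independence of `ℓ`.** -/
theorem common_poles (hq : 1 < q) {Λ : Type} (Ω : Λ → Type) [∀ l, Field (Ω l)]
    [∀ l, CharZero (Ω l)] [∀ l, IsAlgClosed (Ω l)] (W W' : ∀ l, FN.{u} (Ω l) q)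
    (hdual : ∀ l, DualPair (W' l) (W l)) (P : ℚ[X]) (hPm : P.Monic)
    (hP : ∀ l, (W l).F.charpoly = P.map (algebraMap ℚ (Ω l))) :
    ∃ R : ℚ[X], R.Monic ∧ Associated R (reducedPoly q P) ∧
      (∀ l, R.map (algebraMap ℚ (Ω l)) ∣ kerPoly (W l)) ∧
      (∀ l, kerPoly (W l) = R.map (algebraMap ℚ (Ω l)) ↔ NoCommonPole (W' l) (W l)) := by
  obtain ⟨R, hRm, hR, hrm⟩ := exists_reduced_rat hq hPm
  have hmon : ∀ l, (kerPoly (W l)).Monic := fun l => LinearMap.charpoly_monic _
  have h1 : ∀ l a, rootMultiplicity a (R.map (algebraMap ℚ (Ω l))) =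
      (W l).mult a - (W l).mult (a / q) := by
    intro l a
    rw [hrm (Ω l) a, ← hP l, rm_charpoly, rm_charpoly]
  refine ⟨R, hRm, hR, fun l => ?_, fun l => ?_⟩
  · refine dvd_of_rm (hRm.map _).ne_zero fun a => ?_
    rw [h1, rm_kerPoly]
    exact le_kmult hq (W l) a
  · rw [← kmult_iff hq (hdual l)]
    constructor
    · intro h a
      rw [← rm_kerPoly, h, h1]
    · intro h
      refine eq_of_rm (hmon l) (hRm.map _) fun a => ?_
      rw [h1, rm_kerPoly, h a]

end Pool.Agent.X305.WM
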