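import Pool.Agent.X305.WM.GenTrans
import Pool.Agent.X305.WM.AdDefs
import Pool.Agent.X305.WM.Pair

/-!
# The space of endomorphisms and weight-monodromy
-/

set_option autoImplicit false

namespace Pool.Agent.X305.WM

open Module Polynomial Pool.Agent.X268.WM

universe u

variable {Ω : Type} [Field Ω] [CharZero Ω] {q : ℕ}

theorem trace_nondeg {V : Type u} [AddCommGroup V] [Module Ω V] [FiniteDimensional Ω V]
    (Z : End Ω V) (h : ∀ Y : End Ω V, LinearMap.trace Ω V (Z * Y) = 0) : Z = 0 := by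
  refine LinearMap.ext fun v => ?_
  rw [LinearMap.zero_apply, ← Module.forall_dual_apply_eq_zero_iff Ω]
  intro φ
  have h1 := h (φ.smulRight v)
  have h2 : Z * φ.smulRight v = φ.smulRight (Z v) := by
    refine LinearMap.ext fun x => ?_
    rw [Module.End.mul_apply, LinearMap.smulRight_apply, map_smul, LinearMap.smulRight_apply]
  rw [h2, LinearMap.trace_smulRight] at h1
  exact h1

theorem IsEndOf.pt {A W : FN.{u} Ω q} (hA : IsEndOf A W) :
    ∃ e : A.V ≃ₗ[Ω] End Ω W.V, (∀ z x, e (A.F z) (W.F x) = W.F (e z x)) ∧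
      ∀ z x, e (A.N z) x = W.N (e z x) - e z (W.N x) := by
  obtain ⟨e, hF, hN⟩ := hA
  exact ⟨e, fun z x => LinearMap.congr_fun (hF z) x, fun z x => LinearMap.congr_fun (hN z) x⟩

theorem dualPair_end {A W : FN.{u} Ω q} (hA : IsEndOf A W) (hinj : Function.Injective W.F) :
    DualPair A A := by
  obtain ⟨e, hF, hN⟩ := hA.pt
  let f : W.V ≃ₗ[Ω] W.V := LinearEquiv.ofInjectiveEndo W.F hinj
  have hf : ∀ v, f v = W.F v := fun v => rfl
  let B : A.V →ₗ[Ω] A.V →ₗ[Ω] Ω :=
    ((LinearMap.mul Ω (End Ω W.V)).compr₂ (LinearMap.trace Ω W.V)).compl₁₂ e.toLinearMap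
      e.toLinearMap
  have hB : ∀ z x, B z x = LinearMap.trace Ω W.V (e z * e x) := fun z x => rfl
  refine ⟨B, fun z h => ?_, fun x h => ?_, fun z x => ?_, fun z x => ?_⟩
  · have h1 : e z = 0 := trace_nondeg _ fun Y => by
      have h2 := h (e.symm Y)
      rwa [hB, LinearEquiv.apply_symm_apply] at h2
    exact (LinearEquiv.map_eq_zero_iff e).1 h1
  · have h1 : e x = 0 := trace_nondeg _ fun Y => by
      have h2 := h (e.symm Y)
      rwa [hB, LinearEquiv.apply_symm_apply, LinearMap.trace_mul_comm] at h2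
    exact (LinearEquiv.map_eq_zero_iff e).1 h1
  · rw [hB, hB]
    have h1 : e (A.F z) * e (A.F x) = f.conj (e z * e x) := by
      refine LinearMap.ext fun y => ?_
      obtain ⟨y, rfl⟩ := f.surjective y
      rw [LinearEquiv.conj_apply_apply, LinearEquiv.symm_apply_apply, Module.End.mul_apply, hf, hF, hF,
        hf, Module.End.mul_apply]
    rw [h1, LinearMap.trace_conj']
  · rw [hB, hB]
    have h1 : e (A.N z) = W.N * e z - e z * W.N := by
      refine LinearMap.ext fun y => ?_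
      rw [hN]
      rfl
    have h2 : e (A.N x) = W.N * e x - e x * W.N := by
      refine LinearMap.ext fun y => ?_
      rw [hN]
      rfl
    have h3 : LinearMap.trace Ω W.V (W.N * e z * e x) = LinearMap.trace Ω W.V (e z * (e x * W.N)) := by
      rw [mul_assoc, LinearMap.trace_mul_comm, mul_assoc]
    rw [h1, h2, sub_mul, mul_sub, map_sub, map_sub, h3, mul_assoc]
    ring

/-- A root of the characteristic polynomial on the kernel of `N` gives an operator. -/
theorem exists_of_root {A W : FN.{u} Ω q} (hA : IsEndOf A W) {a : Ω} (ha : (kerPoly A).IsRoot a) :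
    ∃ Z : End Ω W.V, Z ≠ 0 ∧ (∀ v, W.F (Z v) = a • Z (W.F v)) ∧ ∀ v, W.N (Z v) = Z (W.N v) := by
  obtain ⟨e, hF, hN⟩ := hA.pt
  rw [isRoot_iff, Ne, kmult_zero_iff] at ha
  push Not at ha
  obtain ⟨z, hz, hz0, hne⟩ := ha
  obtain ⟨u, hu0, hFu, hNu⟩ := exists_eigenvector (k := 1) hz hne (by rwa [pow_one])
  rw [pow_one] at hNu
  refine ⟨e u, fun h => hu0 ((LinearEquiv.map_eq_zero_iff e).1 h), fun v => ?_, fun v => ?_⟩
  · rw [← hF, hFu, map_smul, LinearMap.smul_apply]
  · have h1 := hN u v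
    rw [hNu, map_zero, LinearMap.zero_apply] at h1
    exact (sub_eq_zero.1 h1.symm)

theorem root_of_twist {A W : FN.{u} Ω q} (hA : IsEndOf A W) (hinj : Function.Injective W.F)
    {a : Ω} {Z : End Ω W.V} (hZ : Z ≠ 0) (hZF : ∀ v, W.F (Z v) = a • Z (W.F v))
    (hZN : ∀ v, W.N (Z v) = Z (W.N v)) : (kerPoly A).IsRoot a := by
  obtain ⟨e, hF, hN⟩ := hA.pt
  rw [isRoot_iff, Ne, kmult_zero_iff]
  intro h
  have h1 : e.symm Z = 0 := by
    refine h _ ?_ ?_
    · rw [gen, Module.End.mem_maxGenEigenspace]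
      refine ⟨1, ?_⟩
      rw [pow_one, LinearMap.sub_apply, LinearMap.smul_apply, Module.End.one_apply, sub_eq_zero]
      apply e.injective
      let f : W.V ≃ₗ[Ω] W.V := LinearEquiv.ofInjectiveEndo W.F hinj
      refine LinearMap.ext fun y => ?_
      obtain ⟨y, rfl⟩ := f.surjective y
      change e (A.F (e.symm Z)) (W.F y) = e (a • e.symm Z) (W.F y)
      rw [hF, map_smul, LinearEquiv.apply_symm_apply, LinearMap.smul_apply, hZF]
    · apply e.injective
      refine LinearMap.ext fun y => ?_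
      rw [hN, LinearEquiv.apply_symm_apply, hZN, sub_self, map_zero, LinearMap.zero_apply]
  apply hZ
  rw [← LinearEquiv.apply_symm_apply e Z, h1, map_zero]

theorem noPole_iff {A W : FN.{u} Ω q} (hA : IsEndOf A W) (hinj : Function.Injective W.F) :
    NoPoleAtOne A ↔ NoTwistedEndomorphism W := by
  constructor
  · intro h Z h1 h2
    by_contra hZ
    exact h (root_of_twist hA hinj hZ h1 h2)
  · intro h hr
    obtain ⟨Z, h0, h1, h2⟩ := exists_of_root hA hr
    exact h0 (h Z h1 h2)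

/-- weights of the operators which commute with `N` -/
theorem weight_of_twist [IsAlgClosed Ω] (hq : 1 < q) {W : FN.{u} Ω q} {m : ℕ} (hp : W.IsPure m)
    {a : Ω} {Z : End Ω W.V} (hZ : Z ≠ 0) (hF : ∀ v, W.F (Z v) = a • Z (W.F v))
    (hN : ∀ v, W.N (Z v) = Z (W.N v)) :
    ∃ (b : Ω) (w w' : ℤ), IsWeil q w b ∧ IsWeil q w' (a * b) ∧ w' ≤ w := by
  obtain ⟨E⟩ := exists_wchains hq hp.1
  have hc := (E.isPure_iff hq hp.1 m).1 hp
  have hpow : ∀ (k : ℕ) (v : W.V), (W.N ^ k) (Z v) = Z ((W.N ^ k) v) := by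
    intro k
    induction k with
    | zero => intro v; simp
    | succ k ih => intro v; rw [pow_succ, Module.End.mul_apply, hN, ih, Module.End.mul_apply]
  obtain ⟨i, hi⟩ : ∃ i, Z (E.D.v i) ≠ 0 := by
    by_contra h
    push Not at h
    apply hZ
    apply E.D.basis.ext
    intro x
    rw [E.D.basis_apply, ← hpow, h, map_zero, LinearMap.zero_apply]
  have h1 : Z (E.D.v i) ∈ gen W (a * E.D.a i) := shift_gen hF (E.D.mem i)
  obtain ⟨w', hw'⟩ := exists_weight_of_mem hp.1 h1 hi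
  refine ⟨E.D.a i, E.w i, w', E.weil i, hw', ?_⟩
  by_contra hlt
  push Not at hlt
  have h2 := hc i
  obtain ⟨k, hk⟩ : ∃ k : ℕ, (k : ℤ) = w' - m := ⟨(w' - m).toNat, Int.toNat_of_nonneg (by omega)⟩
  apply hi
  refine (hp.2 k _ (by convert hw' using 1; omega)).1 _ h1 ?_
  rw [hpow, show k = (k - E.D.l i) + E.D.l i by omega, pow_add, Module.End.mul_apply, E.D.zero,
    map_zero, map_zero]

/-- an absolute value on the algebraic numbers of `Ω` -/
theorem exists_abs (Ω : Type) [Field Ω] [CharZero Ω] :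
    ∃ τ : algebraicClosure ℚ Ω →ₐ[ℚ] ℂ, ∀ (q : ℕ) (w : ℤ) (x : algebraicClosure ℚ Ω),
      IsWeil q w (x : Ω) → ‖τ x‖ ^ 2 = (q : ℝ) ^ w := by
  have h0 : Algebra.IsAlgebraic ℚ (algebraicClosure ℚ Ω) := algebraicClosure.isAlgebraic ℚ Ω
  refine ⟨IsAlgClosed.lift, fun q w x hx => hx.2 _ ?_⟩
  have h1 : minpoly ℚ (x : Ω) = minpoly ℚ x := minpoly.algHom_eq (algebraicClosure ℚ Ω).val
    (algebraicClosure ℚ Ω).val.injective x
  rw [h1, Polynomial.aeval_algHom_apply, minpoly.aeval, map_zero]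

theorem noCommonPole_end [IsAlgClosed Ω] (hq : 1 < q) {A W : FN.{u} Ω q} {m : ℕ}
    (hA : IsEndOf A W) (hp : W.IsPure m) : NoCommonPole A A := by
  intro a ha hb
  obtain ⟨Z, h0, h1, h2⟩ := exists_of_root hA ha
  obtain ⟨Z', h0', h1', h2'⟩ := exists_of_root hA hb
  obtain ⟨b, w, w', hb1, hb2, hle⟩ := weight_of_twist hq hp h0 h1 h2
  obtain ⟨c, u, u', hc1, hc2, hle'⟩ := weight_of_twist hq hp h0' h1' h2'
  have hb0 := hb1.ne_zero (by omega : 0 < q)
  have hc0 := hc1.ne_zero (by omega : 0 < q)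
  have hab0 := hb2.ne_zero (by omega : 0 < q)
  have ha0 : a ≠ 0 := fun h => hab0 (by rw [h, zero_mul])
  obtain ⟨τ, hτ⟩ := exists_abs Ω
  have hmem : ∀ {x : Ω}, IsAlgebraic ℚ x → x ∈ algebraicClosure ℚ Ω := fun h => mem_algebraicClosure_iff.2 h
  let b' : algebraicClosure ℚ Ω := ⟨b, hmem hb1.1⟩
  let ab' : algebraicClosure ℚ Ω := ⟨a * b, hmem hb2.1⟩
  let c' : algebraicClosure ℚ Ω := ⟨c, hmem hc1.1⟩
  let d' : algebraicClosure ℚ Ω := ⟨(q : Ω) / a * c, hmem hc2.1⟩
  have e1 := hτ q w b' hb1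
  have e2 := hτ q w' ab' hb2
  have e3 := hτ q u c' hc1
  have e4 := hτ q u' d' hc2
  -- `ab' * d' = q * b' * c'`
  have e5 : ab' * d' = (q : algebraicClosure ℚ Ω) * (b' * c') := by
    apply Subtype.ext
    change a * b * ((q : Ω) / a * c) = ((q : algebraicClosure ℚ Ω) : Ω) * (b * c)
    have : ((q : algebraicClosure ℚ Ω) : Ω) = (q : Ω) := map_natCast (algebraicClosure ℚ Ω).val q
    rw [this]
    field_simp
  have e6 := congrArg (fun z => ‖τ z‖ ^ 2) e5
  simp only [map_mul, norm_mul, map_natCast, Complex.norm_natCast, mul_pow] at e6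
  rw [e1, e2, e3, e4] at e6
  have hq1 : (1 : ℝ) < q := by exact_mod_cast hq
  have hq0 : (0 : ℝ) < q := by linarith
  have e7 : (q : ℝ) ^ w' * (q : ℝ) ^ u' ≤ (q : ℝ) ^ w * (q : ℝ) ^ u :=
    mul_le_mul (zpow_le_zpow_right₀ hq1.le hle) (zpow_le_zpow_right₀ hq1.le hle')
      (zpow_nonneg hq0.le _) (zpow_nonneg hq0.le _)
  have e8 : (0 : ℝ) < (q : ℝ) ^ w * (q : ℝ) ^ u := mul_pos (zpow_pos hq0 _) (zpow_pos hq0 _)
  rw [e6] at e7
  have e9 : (1 : ℝ) < (q : ℝ) ^ 2 := by nlinarith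
  nlinarith

/-- the multiplicities on the kernel of `N` of a pure `W` -/
theorem kmult_of_pure (hq : 1 < q) {W : FN.{u} Ω q} {m : ℕ} (hp : W.IsPure m) (a : Ω) :
    kmult W a = W.mult a - W.mult (a / q) := by
  have hq0 : (q : Ω) ≠ 0 := by exact_mod_cast (by omega : q ≠ 0)
  rw [kmult_eq_iff hq]
  by_cases h : ∃ v ∈ gen W a, v ≠ 0
  · obtain ⟨v, hv, hv0⟩ := h
    obtain ⟨w, hw⟩ := exists_weight_of_mem hp.1 hv hv0
    by_cases hwm : (m : ℤ) < w
    · left
      rw [kmult_zero_iff]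
      intro x hx hx0
      obtain ⟨k, hk⟩ : ∃ k : ℕ, (k : ℤ) = w - m := ⟨(w - m).toNat, Int.toNat_of_nonneg (by omega)⟩
      refine (hp.2 k a (by convert hw using 1; omega)).1 x hx ?_
      rw [show k = (k - 1) + 1 by omega, pow_succ, Module.End.mul_apply, hx0, map_zero]
    · right
      intro y hy
      obtain ⟨k, hk⟩ : ∃ k : ℕ, (k : ℤ) = m - w + 1 :=
        ⟨(m - w + 1).toNat, Int.toNat_of_nonneg (by omega)⟩
      have h1 : IsWeil q (m + ((k + 1 : ℕ) : ℤ)) (a * (q : Ω) ^ k) := by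
        have h2 := hw.scale (by omega : 0 < q) k
        rw [zpow_natCast] at h2
        convert h2 using 1
        push_cast
        omega
      have h2 : a * (q : Ω) ^ k / (q : Ω) ^ (k + 1) = a / q := by
        rw [pow_succ]
        field_simp
      obtain ⟨x, hx, hxy⟩ := (hp.2 (k + 1) _ h1).2 y (by rw [h2]; exact hy)
      refine ⟨(W.N ^ k) x, ?_, ?_⟩
      · have h3 := pow_gen hq W k _ x hx
        rwa [mul_div_assoc, div_self (pow_ne_zero _ hq0), mul_one] at h3
      · rw [← Module.End.mul_apply, ← pow_succ', hxy]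
  · left
    push Not at h
    rw [kmult_zero_iff]
    exact fun v hv _ => h v hv

/-- **The Euler factor of the endomorphisms and weight-monodromy.** -/
theorem endomorphism_factors (hq : 1 < q) (m : ℕ) {Λ : Type} (Ω : Λ → Type) [∀ l, Field (Ω l)]
    [∀ l, CharZero (Ω l)] [∀ l, IsAlgClosed (Ω l)] (W A : ∀ l, FN.{u} (Ω l) q)
    (hA : ∀ l, IsEndOf (A l) (W l)) (hmix : ∀ l, (W l).IsMixed) (P PA : ℚ[X])
    (hP : ∀ l, (W l).F.charpoly = P.map (algebraMap ℚ (Ω l)))
    (hPA : ∀ l, (A l).F.charpoly = PA.map (algebraMap ℚ (Ω l)))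
    (h1 : ∃ l, (W l).IsPure m) :
    (∀ l, (W l).IsPure m ↔ NoPoleAtOne (A l)) ∧
      ((∃ K : ℚ[X], ∀ l, kerPoly (A l) = K.map (algebraMap ℚ (Ω l))) ↔ ∀ l, (W l).IsPure m) ∧
      ((∀ l, (W l).IsPure m) →
        ∃ K : ℚ[X], ∀ l, kerPoly (W l) = K.map (algebraMap ℚ (Ω l))) := by
  have hfam := (family hq m Ω W hmix P hP).2 h1
  have hiff : ∀ l, (W l).IsPure m ↔ NoPoleAtOne (A l) := by
    intro l
    rw [hfam l, noPole_iff (hA l) (F_injective hq (hmix l))]
  refine ⟨hiff, ⟨?_, ?_⟩, ?_⟩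
  · rintro ⟨K, hK⟩ l
    obtain ⟨l₀, h₀⟩ := h1
    have h2 := (hiff l₀).1 h₀
    rw [hiff l]
    intro h3
    apply h2
    rw [NoPoleAtOne] at *
    rw [hK, IsRoot.def, ← map_natCast (algebraMap ℚ _), eval_map_algebraMap, aeval_algebraMap_apply,
      map_eq_zero_iff _ (algebraMap ℚ _).injective] at h3
    rw [hK, IsRoot.def, ← map_natCast (algebraMap ℚ _), eval_map_algebraMap, aeval_algebraMap_apply,
      h3, map_zero]
  · intro h2
    obtain ⟨l₀, h₀⟩ := h1
    have hPAm : PA.Monic := by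
      have h3 := LinearMap.charpoly_monic (A l₀).F
      rw [hPA l₀] at h3
      exact Polynomial.monic_of_injective (algebraMap ℚ (Ω l₀)).injective h3
    obtain ⟨R, -, -, -, hR⟩ := common_poles hq Ω A A
      (fun l => dualPair_end (hA l) (F_injective hq (hmix l))) PA hPAm hPA
    exact ⟨R, fun l => (hR l).2 (noCommonPole_end hq (hA l) (h2 l))⟩
  · intro h2
    obtain ⟨l₀, h₀⟩ := h1
    have hPm : P.Monic := by
      have h3 := LinearMap.charpoly_monic (W l₀).F
      rw [hP l₀] at h3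
      exact Polynomial.monic_of_injective (algebraMap ℚ (Ω l₀)).injective h3
    obtain ⟨R, hRm, -, hrm⟩ := exists_reduced_rat hq hPm
    refine ⟨R, fun l => eq_of_rm (LinearMap.charpoly_monic _) (hRm.map _) fun a => ?_⟩
    change rootMultiplicity a (kerPoly (W l)) = _
    rw [rm_kerPoly, kmult_of_pure hq (h2 l), hrm (Ω l) a, ← hP l, rm_charpoly, rm_charpoly]

end Pool.Agent.X305.WM
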