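import Pool.Agent.X305.WM.Coord
import Pool.Agent.X268.WM.Core

/-!
# Purity in terms of homogeneous Jordan chains
-/

set_option autoImplicit false

namespace Pool.Agent.X305.WM

open Module Pool.Agent.X268.WM

universe u

variable {Ω : Type} [Field Ω] [CharZero Ω] {q : ℕ}

/-- The weight is unique. -/
theorem weight_unique (hq : 1 < q) {w w' : ℤ} {a : Ω} (h : IsWeil q w a) (h' : IsWeil q w' a) :
    w = w' := by
  have hd : (minpoly ℚ a).degree ≠ 0 := (minpoly.degree_pos h.1.isIntegral).ne'
  obtain ⟨z, hz⟩ := IsAlgClosed.exists_aeval_eq_zero ℂ (minpoly ℚ a) hd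
  have h1 := (h.2 z hz).symm.trans (h'.2 z hz)
  have hq1 : (1 : ℝ) < q := by exact_mod_cast hq
  exact zpow_right_injective₀ (by positivity) hq1.ne' h1

/-- The generalized eigenspaces of Frobenius. -/
abbrev gen (W : FN.{u} Ω q) : Ω → Submodule Ω W.V := fun a => W.F.maxGenEigenspace a

/-- Homogeneous Jordan chains and the weights of their first vectors. -/
structure WChains (W : FN.{u} Ω q) where
  D : Chains W.N (gen W) ⊤
  w : D.κ → ℤ
  weil : ∀ i, IsWeil q (w i) (D.a i)

theorem gen_shift (hq : 1 < q) (W : FN.{u} Ω q) : ∀ a, ∀ v ∈ gen W a, W.N v ∈ gen W (a / q) :=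
  fun _ _ hv => N_mem (by omega) hv

theorem gen_indep (W : FN.{u} Ω q) : iSupIndep (gen W) := W.F.independent_maxGenEigenspace

theorem exists_weight_of_mem {W : FN.{u} Ω q} (hmix : W.IsMixed) {a : Ω} {v : W.V}
    (hv : v ∈ gen W a) (h0 : v ≠ 0) : ∃ w, IsWeil q w a := by
  obtain ⟨u, hu, hFu, -⟩ := exists_eigenvector (k := W.nilpotent.choose) hv h0
    (by rw [W.nilpotent.choose_spec]; rfl)
  exact hmix a (Module.End.hasEigenvalue_of_hasEigenvector
    (Module.End.hasEigenvector_iff.2 ⟨Module.End.mem_eigenspace_iff.2 hFu, hu⟩))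

theorem exists_wchains [IsAlgClosed Ω] (hq : 1 < q) {W : FN.{u} Ω q} (hmix : W.IsMixed) :
    Nonempty (WChains W) := by
  have hq0 : (q : Ω) ≠ 0 := by exact_mod_cast (by omega : q ≠ 0)
  obtain ⟨D⟩ := exists_chains W.nilpotent (gen_indep W)
    (Module.End.iSup_maxGenEigenspace_eq_top W.F) (τ := fun a => a / (q : Ω))
    (fun a b h => by
      have h' : a / (q : Ω) = b / q := h
      field_simp at h'
      exact h') (gen_shift hq W)
  have hne : ∀ i, D.v i ≠ 0 := by
    intro i h
    have h1 := D.basis.ne_zero ⟨i, ⟨0, D.pos i⟩⟩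
    rw [D.basis_apply] at h1
    exact h1 (by simpa using h)
  choose w hw using fun i => exists_weight_of_mem hmix (D.mem i) (hne i)
  exact ⟨⟨D, w, hw⟩⟩

namespace WChains

variable {W : FN.{u} Ω q} (E : WChains W)

/-- The index set of the basis. -/
abbrev Idx : Type := Σ i, Fin (E.D.l i)

/-- The eigenvalue of Frobenius of a basis vector. -/
noncomputable abbrev dg (x : E.Idx) : Ω := E.D.deg (fun a => a / (q : Ω)) x

theorem dg_eq (x : E.Idx) : E.dg x = E.D.a x.1 / (q : Ω) ^ (x.2 : ℕ) := by
  have h : ∀ (k : ℕ) (a : Ω), (fun a => a / (q : Ω))^[k] a = a / (q : Ω) ^ k := by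
    intro k
    induction k with
    | zero => intro a; simp
    | succ k ih => intro a; rw [Function.iterate_succ_apply', ih, div_div, ← pow_succ]
  exact h _ _

/-- The weight of a basis vector. -/
def wt (x : E.Idx) : ℤ := E.w x.1 - 2 * (x.2 : ℕ)

theorem weil_dg (hq : 1 < q) (x : E.Idx) : IsWeil q (E.wt x) (E.dg x) := by
  have h := (E.weil x.1).scale (by omega : 0 < q) (-(x.2 : ℕ))
  rw [E.dg_eq, wt]
  have h1 : E.D.a x.1 * (q : Ω) ^ (-((x.2 : ℕ) : ℤ)) = E.D.a x.1 / (q : Ω) ^ (x.2 : ℕ) := by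
    rw [zpow_neg, zpow_natCast, div_eq_mul_inv]
  rw [h1] at h
  convert h using 1
  ring

variable {E}

theorem wt_of_dg (hq : 1 < q) {x : E.Idx} {w : ℤ} {a : Ω} (ha : IsWeil q w a) (h : E.dg x = a) :
    E.wt x = w := weight_unique hq (E.weil_dg hq x) (h ▸ ha)

theorem mem_gen_iff (hq : 1 < q) (a : Ω) (x : W.V) :
    x ∈ gen W a ↔ ∀ y, E.D.basis.repr x y ≠ 0 → E.dg y = a :=
  E.D.mem_iff (gen_indep W) (gen_shift hq W) a x

/-- **Purity means that all chains are centered at `m`.** -/
theorem isPure_iff (hq : 1 < q) (hmix : W.IsMixed) (E : WChains W) (m : ℕ) :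
    W.IsPure m ↔ ∀ i, E.w i = m + (E.D.l i : ℤ) - 1 := by
  classical
  have hq0 : (q : Ω) ≠ 0 := by exact_mod_cast (by omega : q ≠ 0)
  constructor
  · rintro ⟨-, hp⟩ i
    have hl := E.D.pos i
    by_contra hne
    rcases lt_or_gt_of_ne hne with hlt | hgt
    · -- the last vector is not in the image
      set x : E.Idx := ⟨i, ⟨E.D.l i - 1, by omega⟩⟩ with hx
      have hwt : E.wt x = E.w i - 2 * ((E.D.l i : ℤ) - 1) := by
        change E.w i - 2 * ((E.D.l i - 1 : ℕ) : ℤ) = _
        push_cast [Nat.cast_sub (by omega : 1 ≤ E.D.l i)]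
        ring
      obtain ⟨k, hk⟩ : ∃ k : ℕ, (k : ℤ) = m - E.wt x := by
        refine ⟨(m - E.wt x).toNat, Int.toNat_of_nonneg ?_⟩
        omega
      have hkl : E.D.l i ≤ k := by omega
      have hb : IsWeil q (m + k) (E.dg x * (q : Ω) ^ (k : ℤ)) := by
        have h := (E.weil_dg hq x).scale (by omega : 0 < q) k
        convert h using 1
        omega
      obtain ⟨v, hv, hvu⟩ := (hp k _ hb).2 (E.D.basis x) (by
        have h := Chains.basis_mem (D := E.D) (gen_shift hq W) x
        have h2 : E.dg x * (q : Ω) ^ (k : ℤ) / (q : Ω) ^ k = E.dg x := by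
          rw [zpow_natCast, mul_div_assoc, div_self (pow_ne_zero _ hq0), mul_one]
        rw [h2]
        exact h)
      have h1 := Chains.repr_pow (D := E.D) k v i ⟨E.D.l i - 1, by omega⟩
      rw [hvu, Basis.repr_self, hx, Finsupp.single_eq_same, if_neg (by simp only; omega)] at h1
      exact one_ne_zero h1
    · -- the first vector is killed
      set x : E.Idx := ⟨i, ⟨0, hl⟩⟩ with hx
      have hwt : E.wt x = E.w i := by rw [wt]; simp [hx]
      obtain ⟨k, hk⟩ : ∃ k : ℕ, (k : ℤ) = E.w i - m := by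
        refine ⟨(E.w i - m).toNat, Int.toNat_of_nonneg ?_⟩
        omega
      have hb : IsWeil q (m + k) (E.dg x) := by
        have h := E.weil_dg hq x
        convert h using 1
        omega
      have h0 : E.D.basis x = 0 := (hp k _ hb).1 _ (Chains.basis_mem (gen_shift hq W) x)
        (Chains.pow_basis_zero k i ⟨0, hl⟩ (by simp only; omega))
      exact E.D.basis.ne_zero x h0
  · intro h
    refine ⟨hmix, fun k a ha => ⟨fun v hv h0 => ?_, fun u hu => ?_⟩⟩
    · rw [← E.D.basis.repr.map_eq_zero_iff]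
      ext ⟨i, j⟩
      by_contra hne
      rw [Finsupp.coe_zero, Pi.zero_apply] at hne
      have h1 := (mem_gen_iff hq a v).1 hv ⟨i, j⟩ hne
      have h2 := wt_of_dg hq ha h1
      rw [wt] at h2
      simp only at h2
      have h3 := h i
      have h4 : (j : ℕ) + k < E.D.l i := by omega
      have h5 := Chains.repr_pow (D := E.D) k v i ⟨j + k, h4⟩
      rw [h0, map_zero, if_pos (by simp only; omega)] at h5
      apply hne
      have h6 : (⟨(j : ℕ) + k - k, lt_of_le_of_lt (Nat.sub_le _ _) h4⟩ : Fin (E.D.l i)) = j :=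
        Fin.ext (by simp)
      simp only at h5
      rw [h6] at h5
      exact h5.symm
    · have hwk : IsWeil q (m - k) (a / (q : Ω) ^ k) := by
        have h1 := ha.scale (by omega : 0 < q) (-k)
        have h2 : a * (q : Ω) ^ (-(k : ℤ)) = a / (q : Ω) ^ k := by
          rw [zpow_neg, zpow_natCast, div_eq_mul_inv]
        rw [h2] at h1
        convert h1 using 1
        ring
      have hu' := (mem_gen_iff (E := E) hq _ u).1 hu
      let v : W.V := ∑ x : E.Idx, (if hx : (x.2 : ℕ) + k < E.D.l x.1 then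
        E.D.basis.repr u ⟨x.1, ⟨x.2 + k, hx⟩⟩ else 0) • E.D.basis x
      have hrv : ∀ x : E.Idx, E.D.basis.repr v x = if hx : (x.2 : ℕ) + k < E.D.l x.1 then
        E.D.basis.repr u ⟨x.1, ⟨x.2 + k, hx⟩⟩ else 0 := fun x =>
        congrFun (E.D.basis.repr_sum_self _) x
      refine ⟨v, (mem_gen_iff (E := E) hq a v).2 fun y hy => ?_, ?_⟩
      · rw [hrv] at hy
        by_cases hx : (y.2 : ℕ) + k < E.D.l y.1
        · rw [dif_pos hx] at hy
          have h1 := hu' _ hy
          rw [E.dg_eq] at h1 ⊢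
          simp only at h1
          have hyk : (q : Ω) ^ (y.2 : ℕ) ≠ 0 := pow_ne_zero _ hq0
          have hkk : (q : Ω) ^ k ≠ 0 := pow_ne_zero _ hq0
          rw [pow_add, div_eq_div_iff (mul_ne_zero hyk hkk) hkk] at h1
          rw [div_eq_iff hyk]
          have h2 : E.D.a y.1 * (q : Ω) ^ k = (a * (q : Ω) ^ (y.2 : ℕ)) * (q : Ω) ^ k := by
            rw [h1]; ring
          exact mul_right_cancel₀ hkk h2
        · rw [dif_neg hx] at hy
          exact absurd rfl hy
      · apply E.D.basis.repr.injective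
        ext ⟨i, j⟩
        rw [Chains.repr_pow]
        by_cases hkj : k ≤ (j : ℕ)
        · rw [if_pos hkj, hrv]
          simp only
          have h1 : (j : ℕ) - k + k < E.D.l i := by have := j.2; omega
          rw [dif_pos h1]
          congr 2
          exact Fin.ext (by simp only; omega)
        · rw [if_neg hkj]
          by_contra hne
          have h1 := hu' ⟨i, j⟩ (Ne.symm hne)
          have h2 := wt_of_dg hq hwk h1
          rw [wt] at h2
          simp only at h2
          have h3 := h i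
          have h4 := j.2
          omega

end WChains

end Pool.Agent.X305.WM
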