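import Pool.Agent.X305.WM.Exp
import Pool.Agent.X305.WM.Pure

/-!
# Purity and two lifts of Frobenius
-/

set_option autoImplicit false

namespace Pool.Agent.X305.WM

open Module Pool.Agent.X268.WM

universe u

variable {Ω : Type} [Field Ω] [CharZero Ω] {q : ℕ}

section lifts

/-- `F exp (s N) = exp ((s / q) N) F`. -/
theorem F_exp (hq : 1 < q) (W : FN.{u} Ω q) (s : Ω) (x : W.V) :
    W.F (expN s W.N x) = expN (s / q) W.N (W.F x) := by
  have hq0 : (q : Ω) ≠ 0 := by exact_mod_cast (by omega : q ≠ 0)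
  rw [expN, expN, LinearMap.sum_apply, LinearMap.sum_apply, map_sum]
  refine Finset.sum_congr rfl fun k _ => ?_
  rw [LinearMap.smul_apply, LinearMap.smul_apply, map_smul, N_pow_F, smul_smul]
  congr 1
  have : (q : Ω) ^ k ≠ 0 := pow_ne_zero _ hq0
  rw [div_pow]
  field_simp

theorem lift_exp {W : FN.{u} Ω q} (hq : 1 < q) (D : Chains W.N (gen W) ⊤) {c s : Ω}
    (hs : c + s / q = s) (x : W.V) : lift W c (expN s W.N x) = expN s W.N (W.F x) := by
  rw [lift, Module.End.mul_apply, F_exp hq, D.exp_add, hs]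

theorem maxGen_map {V : Type u} [AddCommGroup V] [Module Ω V] {F G e : End Ω V}
    (h : ∀ x, G (e x) = e (F x)) (hi : Function.Injective e) (hsu : Function.Surjective e) (a : Ω) :
    G.maxGenEigenspace a = (F.maxGenEigenspace a).map e := by
  have h1 : ∀ (k : ℕ) (x : V), ((G - a • (1 : End Ω V)) ^ k) (e x) =
      e (((F - a • (1 : End Ω V)) ^ k) x) := by
    intro k
    induction k with
    | zero => intro x; simp
    | succ k ih =>
      intro x
      rw [pow_succ, Module.End.mul_apply, pow_succ, Module.End.mul_apply, ← ih]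
      congr 1
      rw [LinearMap.sub_apply, LinearMap.sub_apply, h, map_sub, LinearMap.smul_apply,
        LinearMap.smul_apply, Module.End.one_apply, Module.End.one_apply, map_smul]
  ext y
  obtain ⟨x, rfl⟩ := hsu y
  rw [Submodule.mem_map, Module.End.mem_maxGenEigenspace]
  constructor
  · rintro ⟨k, hk⟩
    refine ⟨x, (Module.End.mem_maxGenEigenspace _ _ _).2 ⟨k, hi ?_⟩, rfl⟩
    rw [map_zero, ← h1]
    exact hk
  · rintro ⟨z, hz, hzx⟩
    have hzx' : z = x := hi hzx
    subst hzx'
    obtain ⟨k, hk⟩ := (Module.End.mem_maxGenEigenspace _ _ _).1 hz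
    exact ⟨k, by rw [h1, hk, map_zero]⟩

theorem above_map {V : Type u} [AddCommGroup V] [Module Ω V] {F G e : End Ω V}
    (h : ∀ x, G (e x) = e (F x)) (hi : Function.Injective e) (hsu : Function.Surjective e) (m : ℤ) :
    above q G m = (above q F m).map e := by
  simp only [above, Submodule.map_iSup]
  exact iSup_congr fun a => iSup_congr fun _ => maxGen_map h hi hsu a

theorem atLeast_map {V : Type u} [AddCommGroup V] [Module Ω V] {F G e : End Ω V}
    (h : ∀ x, G (e x) = e (F x)) (hi : Function.Injective e) (hsu : Function.Surjective e) (m : ℤ) :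
    atLeast q G m = (atLeast q F m).map e := by
  simp only [atLeast, Submodule.map_iSup]
  exact iSup_congr fun a => iSup_congr fun _ => maxGen_map h hi hsu a

end lifts

namespace WChains

variable {W : FN.{u} Ω q} {E : WChains W}

theorem mem_above (hq : 1 < q) (m : ℤ) (x : W.V) :
    x ∈ above q W.F m ↔ ∀ y, E.D.basis.repr x y ≠ 0 → m < E.wt y := by
  rw [above]
  refine (E.D.mem_iSup_iff (gen_indep W) (gen_shift hq W) _ x).trans ?_
  refine forall_congr' fun y => imp_congr_right fun _ => ?_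
  constructor
  · rintro ⟨w, hw, hw'⟩
    rwa [weight_unique hq (E.weil_dg hq y) hw']
  · intro h
    exact ⟨_, h, E.weil_dg hq y⟩

theorem mem_atLeast (hq : 1 < q) (m : ℤ) (x : W.V) :
    x ∈ atLeast q W.F m ↔ ∀ y, E.D.basis.repr x y ≠ 0 → m ≤ E.wt y := by
  rw [atLeast]
  refine (E.D.mem_iSup_iff (gen_indep W) (gen_shift hq W) _ x).trans ?_
  refine forall_congr' fun y => imp_congr_right fun _ => ?_
  constructor
  · rintro ⟨w, hw, hw'⟩
    rwa [weight_unique hq (E.weil_dg hq y) hw']
  · intro h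
    exact ⟨_, h, E.weil_dg hq y⟩

/-- The number of indices `j < l` with `2 j < c`. -/
def cut (l : ℕ) (c : ℤ) : ℕ := min l ((c + 1) / 2).toNat

theorem lt_cut {l : ℕ} {c : ℤ} {j : ℕ} (hj : j < l) : j < cut l c ↔ 2 * (j : ℤ) < c := by
  rw [cut, lt_min_iff]
  omega

theorem cut_le (l : ℕ) (c : ℤ) : cut l c ≤ l := min_le_left _ _

theorem card_cut (l : ℕ) (c : ℤ) :
    (Finset.univ.filter fun j : Fin l => 2 * ((j : ℕ) : ℤ) < c).card = cut l c := by
  have h : (Finset.univ.filter fun j : Fin l => 2 * ((j : ℕ) : ℤ) < c) =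
      Finset.univ.filter fun j : Fin l => (j : ℕ) < cut l c := by
    ext j
    simp only [Finset.mem_filter, Finset.mem_univ, true_and]
    exact (lt_cut j.2).symm
  rw [h, Fin.card_filter_val_lt, min_eq_right (cut_le l c)]

theorem card_sigma_filter {κ : Type} [Fintype κ] (l : κ → ℕ) (p : (Σ i, Fin (l i)) → Prop)
    [DecidablePred p] : (Finset.univ.filter p).card =
      ∑ i, (Finset.univ.filter fun j : Fin (l i) => p ⟨i, j⟩).card := by
  simp only [Finset.card_filter]
  rw [Fintype.sum_sigma]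

theorem finrank_above (hq : 1 < q) (E : WChains W) (m : ℤ) :
    finrank Ω ↥(above q W.F m) = ∑ i, cut (E.D.l i) (E.w i - m) := by
  classical
  rw [above, E.D.finrank_iSup (gen_indep W) (gen_shift hq W), card_sigma_filter]
  refine Finset.sum_congr rfl fun i _ => ?_
  rw [← card_cut]
  congr 1
  ext j
  simp only [Finset.mem_filter, Finset.mem_univ, true_and]
  constructor
  · rintro ⟨w, hw, hw'⟩
    have h := weight_unique hq (E.weil_dg hq ⟨i, j⟩) hw'
    rw [wt] at h
    simp only at h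
    omega
  · intro h
    refine ⟨_, ?_, E.weil_dg hq ⟨i, j⟩⟩
    rw [wt]
    simp only
    omega

theorem finrank_atLeast (hq : 1 < q) (E : WChains W) (m : ℤ) :
    finrank Ω ↥(atLeast q W.F m) = ∑ i, cut (E.D.l i) (E.w i - m + 1) := by
  classical
  rw [atLeast, E.D.finrank_iSup (gen_indep W) (gen_shift hq W), card_sigma_filter]
  refine Finset.sum_congr rfl fun i _ => ?_
  rw [← card_cut]
  congr 1
  ext j
  simp only [Finset.mem_filter, Finset.mem_univ, true_and]
  constructor
  · rintro ⟨w, hw, hw'⟩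
    have h := weight_unique hq (E.weil_dg hq ⟨i, j⟩) hw'
    rw [wt] at h
    simp only at h
    omega
  · intro h
    refine ⟨_, ?_, E.weil_dg hq ⟨i, j⟩⟩
    rw [wt]
    simp only
    omega

theorem finrank_above_card (hq : 1 < q) (E : WChains W) (m : ℤ) :
    finrank Ω ↥(above q W.F m) = (Finset.univ.filter fun y => m < E.wt y).card := by
  classical
  rw [above, E.D.finrank_iSup (gen_indep W) (gen_shift hq W)]
  congr 1
  ext y
  simp only [Finset.mem_filter, Finset.mem_univ, true_and]
  constructor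
  · rintro ⟨w, hw, hw'⟩
    rwa [weight_unique hq (E.weil_dg hq y) hw']
  · intro h
    exact ⟨_, h, E.weil_dg hq y⟩

theorem finrank_atLeast_card (hq : 1 < q) (E : WChains W) (m : ℤ) :
    finrank Ω ↥(atLeast q W.F m) = (Finset.univ.filter fun y => m ≤ E.wt y).card := by
  classical
  rw [atLeast, E.D.finrank_iSup (gen_indep W) (gen_shift hq W)]
  congr 1
  ext y
  simp only [Finset.mem_filter, Finset.mem_univ, true_and]
  constructor
  · rintro ⟨w, hw, hw'⟩
    rwa [weight_unique hq (E.weil_dg hq y) hw']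
  · intro h
    exact ⟨_, h, E.weil_dg hq y⟩

theorem mult_eq_card (hq : 1 < q) (E : WChains W) [DecidableEq Ω] (a : Ω) :
    W.mult a = (Finset.univ.filter fun y => E.dg y = a).card :=
  E.D.finrank_eq_card (gen_indep W) (gen_shift hq W) a

theorem weil_dual (hq : 1 < q) {m : ℕ} {w : ℤ} {a : Ω} (h : IsWeil q w a) :
    IsWeil q (2 * m - w) ((q : Ω) ^ m / a) := by
  have hq0 : (q : Ω) ≠ 0 := by exact_mod_cast (by omega : q ≠ 0)
  have h1 := (h.conj (by omega : 0 < q)).scale (by omega : 0 < q) (m - w)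
  have h2 : (q : Ω) ^ w / a * (q : Ω) ^ ((m : ℤ) - w) = (q : Ω) ^ m / a := by
    rw [div_mul_eq_mul_div, ← zpow_add₀ hq0]
    congr 1
    rw [show w + ((m : ℤ) - w) = m by ring, zpow_natCast]
  rw [h2] at h1
  convert h1 using 1
  ring

/-- The dimensions of the parts of weights `m + k` and `m - k` agree. -/
theorem card_symm (hq : 1 < q) (E : WChains W) (m : ℕ)
    (hsym : ∀ a : Ω, a ≠ 0 → W.mult a = W.mult ((q : Ω) ^ m / a)) (k : ℤ) :
    (Finset.univ.filter fun y => E.wt y = m + k).card =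
      (Finset.univ.filter fun y => E.wt y = m - k).card := by
  classical
  have hq0 : (q : Ω) ≠ 0 := by exact_mod_cast (by omega : q ≠ 0)
  have hdg : ∀ y, E.dg y ≠ 0 := fun y => (E.weil_dg hq y).ne_zero (by omega)
  have hinv : ∀ a : Ω, a ≠ 0 → (q : Ω) ^ m / ((q : Ω) ^ m / a) = a := by
    intro a ha
    rw [div_div_cancel₀ (pow_ne_zero _ hq0)]
  let T : Finset Ω := Finset.univ.image E.dg ∪ Finset.univ.image fun y => (q : Ω) ^ m / E.dg y
  have hT0 : ∀ a ∈ T, a ≠ 0 := by
    intro a ha
    rcases Finset.mem_union.1 ha with h | h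
    · obtain ⟨y, -, rfl⟩ := Finset.mem_image.1 h
      exact hdg y
    · obtain ⟨y, -, rfl⟩ := Finset.mem_image.1 h
      exact div_ne_zero (pow_ne_zero _ hq0) (hdg y)
  have hTinv : ∀ a ∈ T, (q : Ω) ^ m / a ∈ T := by
    intro a ha
    rcases Finset.mem_union.1 ha with h | h
    · obtain ⟨y, -, rfl⟩ := Finset.mem_image.1 h
      exact Finset.mem_union_right _ (Finset.mem_image_of_mem _ (Finset.mem_univ y))
    · obtain ⟨y, -, rfl⟩ := Finset.mem_image.1 h
      rw [hinv _ (hdg y)]
      exact Finset.mem_union_left _ (Finset.mem_image_of_mem _ (Finset.mem_univ y))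
  have hmem : ∀ y : E.Idx, E.dg y ∈ T := fun y =>
    Finset.mem_union_left _ (Finset.mem_image_of_mem _ (Finset.mem_univ y))
  rw [Finset.card_eq_sum_card_fiberwise (f := E.dg) (t := T) fun y _ => hmem y,
    Finset.card_eq_sum_card_fiberwise (f := E.dg) (t := T) fun y _ => hmem y]
  refine Finset.sum_nbij' (fun a => (q : Ω) ^ m / a) (fun a => (q : Ω) ^ m / a) hTinv hTinv
    (fun a ha => hinv a (hT0 a ha)) (fun a ha => hinv a (hT0 a ha)) fun a ha => ?_
  simp only [Finset.filter_filter]
  by_cases hw : IsWeil q (m + k) a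
  · have hw' : IsWeil q (m - k) ((q : Ω) ^ m / a) := by
      have h := weil_dual (m := m) hq hw
      convert h using 1
      ring
    have e1 : (Finset.univ.filter fun y => E.wt y = m + k ∧ E.dg y = a) =
        Finset.univ.filter fun y => E.dg y = a := by
      ext y
      simp only [Finset.mem_filter, Finset.mem_univ, true_and, and_iff_right_iff_imp]
      exact fun h => wt_of_dg hq hw h
    have e2 : (Finset.univ.filter fun y => E.wt y = m - k ∧ E.dg y = (q : Ω) ^ m / a) =
        Finset.univ.filter fun y => E.dg y = (q : Ω) ^ m / a := by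
      ext y
      simp only [Finset.mem_filter, Finset.mem_univ, true_and, and_iff_right_iff_imp]
      exact fun h => wt_of_dg hq hw' h
    rw [e1, e2]
    have h5 := hsym a (hT0 a ha)
    rw [mult_eq_card hq E, mult_eq_card hq E] at h5
    convert h5
  · have e1 : (Finset.univ.filter fun y => E.wt y = m + k ∧ E.dg y = a) = ∅ := by
      rw [Finset.filter_eq_empty_iff]
      rintro y - ⟨h1, h2⟩
      apply hw
      rw [← h1, ← h2]
      exact E.weil_dg hq y
    have e2 : (Finset.univ.filter fun y => E.wt y = m - k ∧ E.dg y = (q : Ω) ^ m / a) = ∅ := by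
      rw [Finset.filter_eq_empty_iff]
      rintro y - ⟨h1, h2⟩
      apply hw
      have h3 := weil_dual (m := m) hq (E.weil_dg hq y)
      rw [h2, hinv a (hT0 a ha), h1] at h3
      convert h3 using 1
      ring
    rw [e1, e2]

theorem card_above_below (hq : 1 < q) (E : WChains W) (m : ℕ)
    (hsym : ∀ a : Ω, a ≠ 0 → W.mult a = W.mult ((q : Ω) ^ m / a)) :
    (Finset.univ.filter fun y => (m : ℤ) < E.wt y).card =
      (Finset.univ.filter fun y => E.wt y < (m : ℤ)).card := by
  classical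
  obtain ⟨M, hM⟩ : ∃ M : ℕ, ∀ y, |E.wt y - m| ≤ M := by
    refine ⟨∑ y, (E.wt y - m).natAbs, fun y => ?_⟩
    rw [Int.abs_eq_natAbs]
    exact_mod_cast Finset.single_le_sum (f := fun y => (E.wt y - m).natAbs)
      (fun _ _ => Nat.zero_le _) (Finset.mem_univ y)
  rw [Finset.card_eq_sum_card_fiberwise (f := fun y => (E.wt y - m).natAbs)
    (t := Finset.Icc 1 M), Finset.card_eq_sum_card_fiberwise
    (f := fun y => (E.wt y - m).natAbs) (t := Finset.Icc 1 M)]
  · refine Finset.sum_congr rfl fun k hk => ?_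
    rw [Finset.mem_Icc] at hk
    simp only [Finset.filter_filter]
    have e1 : (Finset.univ.filter fun y => (m : ℤ) < E.wt y ∧ (E.wt y - m).natAbs = k) =
        Finset.univ.filter fun y => E.wt y = m + k := by
      ext y
      simp only [Finset.mem_filter, Finset.mem_univ, true_and]
      omega
    have e2 : (Finset.univ.filter fun y => E.wt y < (m : ℤ) ∧ (E.wt y - m).natAbs = k) =
        Finset.univ.filter fun y => E.wt y = m - k := by
      ext y
      simp only [Finset.mem_filter, Finset.mem_univ, true_and]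
      omega
    rw [e1, e2]
    exact card_symm hq E m hsym k
  · intro y hy
    have h := hM y
    simp only [Finset.coe_filter, Finset.mem_univ, true_and, Set.mem_setOf_eq] at hy
    simp only [Finset.coe_Icc, Set.mem_Icc]
    rw [Int.abs_eq_natAbs] at h
    omega
  · intro y hy
    have h := hM y
    simp only [Finset.coe_filter, Finset.mem_univ, true_and, Set.mem_setOf_eq] at hy
    simp only [Finset.coe_Icc, Set.mem_Icc]
    rw [Int.abs_eq_natAbs] at h
    omega

/-- Sufficient and necessary condition for disjointness. -/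
theorem disjoint_iff (hq : 1 < q) (E : WChains W) {s : Ω} (hs : s ≠ 0) (m m' : ℤ) :
    Disjoint (atLeast q W.F m') ((above q W.F m).map (expN s W.N)) ↔
      ∀ i, cut (E.D.l i) (E.w i - m) + cut (E.D.l i) (E.w i - m' + 1) ≤ E.D.l i := by
  rw [Submodule.disjoint_def]
  constructor
  · intro h i
    by_contra hcon
    push Not at hcon
    have hA := cut_le (E.D.l i) (E.w i - m)
    have hB := cut_le (E.D.l i) (E.w i - m' + 1)
    obtain ⟨x, hx0, hx1, hx2⟩ := Chains.exists_of_lt (D := E.D) s (i := i)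
      (A := E.D.l i - cut (E.D.l i) (E.w i - m)) (B := E.D.l i - cut (E.D.l i) (E.w i - m' + 1))
      (by omega)
    apply hx0
    apply E.D.exp_injective s
    rw [map_zero]
    refine h _ ((mem_atLeast (E := E) hq m' _).2 fun y hy => ?_) ⟨x,
      (mem_above (E := E) hq m _).2 fun y hy => ?_, rfl⟩
    · obtain ⟨hyi, hyl⟩ := hx2 y hy
      obtain ⟨i', j⟩ := y
      simp only at hyi hyl
      subst hyi
      have h1 : (j : ℕ) < cut (E.D.l i') (E.w i' - m' + 1) := by omega
      rw [lt_cut j.2] at h1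
      rw [wt]
      simp only
      omega
    · obtain ⟨hyi, hyl⟩ := hx1 y hy
      obtain ⟨i', j⟩ := y
      simp only at hyi hyl
      subst hyi
      have h1 : (j : ℕ) < cut (E.D.l i') (E.w i' - m) := by omega
      rw [lt_cut j.2] at h1
      rw [wt]
      simp only
      omega
  · rintro h _ hy ⟨x, hx, rfl⟩
    rw [SetLike.mem_coe, mem_above (E := E) hq] at hx
    rw [mem_atLeast (E := E) hq] at hy
    have h0 : x = 0 := by
      refine Chains.eq_zero_of_phi (D := E.D) fun i => ?_
      have hA := cut_le (E.D.l i) (E.w i - m)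
      have hB := cut_le (E.D.l i) (E.w i - m' + 1)
      have hi := h i
      refine Chains.phi_eq_zero hs (A := E.D.l i - cut (E.D.l i) (E.w i - m))
        (B := E.D.l i - cut (E.D.l i) (E.w i - m' + 1)) (by omega) (fun j hj => ?_) fun j hj => ?_
      · by_contra hne
        have h1 := hx ⟨i, j⟩ hne
        rw [wt] at h1
        simp only at h1
        have h2 : (j : ℕ) < cut (E.D.l i) (E.w i - m) := (lt_cut j.2).2 (by omega)
        omega
      · by_contra hne
        have h1 := hy ⟨i, j⟩ hne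
        rw [wt] at h1
        simp only at h1
        have h2 : (j : ℕ) < cut (E.D.l i) (E.w i - m' + 1) := (lt_cut j.2).2 (by omega)
        omega
    rw [h0, map_zero]

/-- The two cuts add up to the length exactly for the chains centered at `m`. -/
theorem cut_add_eq {l : ℕ} {c : ℤ} (hl : 0 < l) : cut l c + cut l (c + 1) = l ↔ c = l - 1 := by
  rw [cut, cut]
  omega

theorem cut_add_centered {l : ℕ} (hl : 0 < l) (i : ℤ) :
    cut l (l - 1 - i) + cut l (l - 1 + i + 1) = l := by
  rw [cut, cut]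
  omega

theorem finrank_map_exp (E : WChains W) (s : Ω) (X : Submodule Ω W.V) :
    finrank Ω ↥(X.map (expN s W.N)) = finrank Ω ↥X :=
  (LinearEquiv.finrank_map_eq (LinearEquiv.ofBijective (expN s W.N)
    ⟨E.D.exp_injective s, E.D.exp_surjective s⟩) X)

theorem isCompl_iff (hq : 1 < q) (E : WChains W) {s : Ω} (hs : s ≠ 0) (m m' : ℤ) :
    IsCompl (atLeast q W.F m') ((above q W.F m).map (expN s W.N)) ↔
      ∀ i, cut (E.D.l i) (E.w i - m) + cut (E.D.l i) (E.w i - m' + 1) = E.D.l i := by
  have hd : finrank Ω ↥(atLeast q W.F m') + finrank Ω ↥((above q W.F m).map (expN s W.N)) =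
      ∑ i, (cut (E.D.l i) (E.w i - m) + cut (E.D.l i) (E.w i - m' + 1)) := by
    rw [finrank_map_exp E, finrank_above hq E, finrank_atLeast hq E, Finset.sum_add_distrib, add_comm]
  constructor
  · intro h
    have h1 := (disjoint_iff hq E hs m m').1 h.disjoint
    have h2 := Submodule.finrank_add_eq_of_isCompl h
    rw [hd, E.D.finrank_eq] at h2
    have h3 := (Finset.sum_eq_sum_iff_of_le fun i _ => h1 i).1 h2
    exact fun i => h3 i (Finset.mem_univ i)
  · intro h
    rw [Submodule.isCompl_iff_disjoint _ _ (by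
      rw [hd, E.D.finrank_eq]
      exact (Finset.sum_congr rfl fun i _ => (h i).symm).le)]
    exact (disjoint_iff hq E hs m m').2 fun i => (h i).le

/-- The two lifts. -/
theorem lifts_iff (hq : 1 < q) (E : WChains W) {c₁ c₂ : Ω} (hc : c₁ ≠ c₂) (m m' : ℤ) :
    ∃ s : Ω, s ≠ 0 ∧ (IsCompl (atLeast q (lift W c₁) m') (above q (lift W c₂) m) ↔
      IsCompl (atLeast q W.F m') ((above q W.F m).map (expN s W.N))) ∧
      (Disjoint (atLeast q (lift W c₁) m') (above q (lift W c₂) m) ↔
      Disjoint (atLeast q W.F m') ((above q W.F m).map (expN s W.N))) := by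
  have hq0 : (q : Ω) ≠ 0 := by exact_mod_cast (by omega : q ≠ 0)
  have hq1 : (q : Ω) - 1 ≠ 0 := by
    rw [sub_ne_zero]
    exact_mod_cast (by omega : q ≠ 1)
  have hs : ∀ c : Ω, c + c * q / (q - 1) / q = c * q / (q - 1) := by
    intro c
    field_simp
    ring
  set s₁ := c₁ * q / (q - 1) with hs₁
  set s₂ := c₂ * q / (q - 1) with hs₂
  let e := LinearEquiv.ofBijective (expN s₁ W.N) ⟨E.D.exp_injective s₁, E.D.exp_surjective s₁⟩
  have h1 : atLeast q (lift W c₁) m' = (atLeast q W.F m').map (e : W.V →ₗ[Ω] W.V) :=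
    atLeast_map (fun x => lift_exp hq E.D (hs c₁) x) (E.D.exp_injective s₁)
      (E.D.exp_surjective s₁) m'
  have h2 : above q (lift W c₂) m =
      ((above q W.F m).map (expN (s₂ - s₁) W.N)).map (e : W.V →ₗ[Ω] W.V) := by
    rw [above_map (fun x => lift_exp hq E.D (hs c₂) x) (E.D.exp_injective s₂)
      (E.D.exp_surjective s₂) m, ← Submodule.map_comp]
    congr 1
    refine LinearMap.ext fun x => ?_
    have h3 : expN s₁ W.N (expN (s₂ - s₁) W.N x) = expN s₂ W.N x := by
      rw [E.D.exp_add, add_sub_cancel]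
    exact h3.symm
  refine ⟨s₂ - s₁, ?_, ?_, ?_⟩
  · rw [sub_ne_zero, hs₁, hs₂]
    intro h
    apply hc
    rw [div_left_inj' hq1] at h
    exact (mul_right_cancel₀ hq0 h).symm
  · rw [h1, h2]
    exact ((Submodule.orderIsoMapComap e).isCompl_iff).symm
  · rw [h1, h2]
    exact disjoint_map_orderIso_iff (Submodule.orderIsoMapComap e)

end WChains

/-- The sum of the generalized eigenspaces for all Weil numbers is stable under `exp (s N)`. -/
theorem exp_weil_stable (hq : 1 < q) (W : FN.{u} Ω q) (s : Ω) :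
    ∀ x ∈ ⨆ a ∈ {a : Ω | ∃ w : ℤ, IsWeil q w a}, gen W a,
      expN s W.N x ∈ ⨆ a ∈ {a : Ω | ∃ w : ℤ, IsWeil q w a}, gen W a := by
  have h1 : ∀ x ∈ ⨆ a ∈ {a : Ω | ∃ w : ℤ, IsWeil q w a}, gen W a,
      W.N x ∈ ⨆ a ∈ {a : Ω | ∃ w : ℤ, IsWeil q w a}, gen W a := by
    intro x hx
    have h2 : (⨆ a ∈ {a : Ω | ∃ w : ℤ, IsWeil q w a}, gen W a) ≤
        (⨆ a ∈ {a : Ω | ∃ w : ℤ, IsWeil q w a}, gen W a).comap W.N := by
      refine iSup₂_le fun a ha v hv => ?_
      rw [Submodule.mem_comap]
      obtain ⟨w, hw⟩ := ha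
      have h3 : IsWeil q (w + 2 * (-1)) (a / q) := by
        have h4 := hw.scale (by omega : 0 < q) (-1)
        rwa [zpow_neg_one, ← div_eq_mul_inv] at h4
      exact (le_iSup₂ (f := fun b (_ : b ∈ {a : Ω | ∃ w : ℤ, IsWeil q w a}) => gen W b)
        (a / q) ⟨_, h3⟩) (gen_shift hq W a v hv)
    exact h2 hx
  have h2 : ∀ k : ℕ, ∀ x ∈ ⨆ a ∈ {a : Ω | ∃ w : ℤ, IsWeil q w a}, gen W a,
      (W.N ^ k) x ∈ ⨆ a ∈ {a : Ω | ∃ w : ℤ, IsWeil q w a}, gen W a := by
    intro k
    induction k with
    | zero => intro x hx; simpa using hx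
    | succ k ih => intro x hx; rw [pow_succ', Module.End.mul_apply]; exact h1 _ (ih x hx)
  intro x hx
  rw [expN, LinearMap.sum_apply]
  refine Submodule.sum_mem _ fun k _ => ?_
  rw [LinearMap.smul_apply]
  exact Submodule.smul_mem _ _ (h2 k x hx)

theorem isMixed_of_isCompl [IsAlgClosed Ω] (hq : 1 < q) (W : FN.{u} Ω q) {m m' : ℤ} {c₁ c₂ : Ω}
    (h : IsCompl (atLeast q (lift W c₁) m') (above q (lift W c₂) m)) : W.IsMixed := by
  have hq0 : (q : Ω) ≠ 0 := by exact_mod_cast (by omega : q ≠ 0)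
  have hq1 : (q : Ω) - 1 ≠ 0 := by
    rw [sub_ne_zero]
    exact_mod_cast (by omega : q ≠ 1)
  obtain ⟨D⟩ := exists_chains W.nilpotent (gen_indep W)
    (Module.End.iSup_maxGenEigenspace_eq_top W.F) (τ := fun a => a / (q : Ω))
    (fun a b h => by
      have h' : a / (q : Ω) = b / q := h
      field_simp at h'
      exact h') (gen_shift hq W)
  have hs : ∀ c : Ω, c + c * q / (q - 1) / q = c * q / (q - 1) := by
    intro c
    field_simp
    ring
  set S := ⨆ a ∈ {a : Ω | ∃ w : ℤ, IsWeil q w a}, gen W a with hS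
  have h1 : atLeast q (lift W c₁) m' ≤ S := by
    rw [atLeast_map (fun x => lift_exp hq D (hs c₁) x) (D.exp_injective _) (D.exp_surjective _) m']
    rintro _ ⟨x, hx, rfl⟩
    refine exp_weil_stable hq W _ x ?_
    refine (?_ : atLeast q W.F m' ≤ S) hx
    refine iSup₂_le fun a ha => ?_
    obtain ⟨w, -, hw⟩ := ha
    exact le_iSup₂ (f := fun b (_ : b ∈ {a : Ω | ∃ w : ℤ, IsWeil q w a}) => gen W b) a ⟨w, hw⟩
  have h2 : above q (lift W c₂) m ≤ S := by
    rw [above_map (fun x => lift_exp hq D (hs c₂) x) (D.exp_injective _) (D.exp_surjective _) m]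
    rintro _ ⟨x, hx, rfl⟩
    refine exp_weil_stable hq W _ x ?_
    refine (?_ : above q W.F m ≤ S) hx
    refine iSup₂_le fun a ha => ?_
    obtain ⟨w, -, hw⟩ := ha
    exact le_iSup₂ (f := fun b (_ : b ∈ {a : Ω | ∃ w : ℤ, IsWeil q w a}) => gen W b) a ⟨w, hw⟩
  have h3 : S = ⊤ := by
    rw [eq_top_iff, ← h.sup_eq_top]
    exact sup_le h1 h2
  intro a ha
  by_contra hcon
  obtain ⟨v, hv⟩ := ha.exists_hasEigenvector
  have hv1 : v ∈ gen W a := (Module.End.mem_maxGenEigenspace _ _ _).2 ⟨1, by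
    rw [pow_one, LinearMap.sub_apply, LinearMap.smul_apply, Module.End.one_apply,
      Module.End.mem_eigenspace_iff.1 hv.1, sub_self]⟩
  have hv2 : v ∈ ⨆ b, ⨆ (_ : b ≠ a), gen W b := by
    have h4 : S ≤ ⨆ b, ⨆ (_ : b ≠ a), gen W b := by
      refine iSup₂_le fun b hb => ?_
      refine le_iSup₂_of_le (f := fun b (_ : b ≠ a) => gen W b) b ?_ le_rfl
      rintro rfl
      exact hcon hb
    exact h4 (h3 ▸ trivial)
  exact hv.2 (Submodule.disjoint_def.1 (gen_indep W a) v hv1 hv2)

/-- **The weight-monodromy property and two lifts of Frobenius.** -/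
theorem two_lifts [IsAlgClosed Ω] (hq : 1 < q) (W : FN.{u} Ω q) (m : ℕ)
    {c₁ c₂ : Ω} (hc : c₁ ≠ c₂) :
    (W.IsPure m ↔ IsCompl (atLeast q (lift W c₁) m) (above q (lift W c₂) m)) ∧
    (W.IsPure m → ∀ i : ℤ, IsCompl (atLeast q (lift W c₁) (m - i)) (above q (lift W c₂) (m + i))) ∧
    (W.IsMixed → (∀ a : Ω, a ≠ 0 → W.mult a = W.mult ((q : Ω) ^ m / a)) →
      (W.IsPure m ↔ ∀ v ∈ atLeast q (lift W c₁) m, v ∈ above q (lift W c₂) m → v = 0)) := by
  suffices hmain : W.IsMixed → (W.IsPure m ↔ IsCompl (atLeast q (lift W c₁) m)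
      (above q (lift W c₂) m)) ∧
      (W.IsPure m → ∀ i : ℤ, IsCompl (atLeast q (lift W c₁) (m - i)) (above q (lift W c₂) (m + i))) ∧
      ((∀ a : Ω, a ≠ 0 → W.mult a = W.mult ((q : Ω) ^ m / a)) →
      (W.IsPure m ↔ ∀ v ∈ atLeast q (lift W c₁) m, v ∈ above q (lift W c₂) m → v = 0)) from
    ⟨⟨fun hp => (hmain hp.1).1.1 hp, fun h => (hmain (isMixed_of_isCompl hq W h)).1.2 h⟩,
      fun hp => (hmain hp.1).2.1 hp, fun hmix => (hmain hmix).2.2⟩
  intro hmix
  obtain ⟨E⟩ := exists_wchains hq hmix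
  have h1 : W.IsPure m ↔ IsCompl (atLeast q (lift W c₁) m) (above q (lift W c₂) m) := by
    obtain ⟨s, hs, hI, -⟩ := WChains.lifts_iff hq E hc m m
    rw [hI, WChains.isCompl_iff hq E hs, WChains.isPure_iff hq hmix E]
    refine forall_congr' fun i => ?_
    rw [WChains.cut_add_eq (E.D.pos i)]
    omega
  refine ⟨h1, fun hp i => ?_, fun hsym => ?_⟩
  · obtain ⟨s, hs, hI, -⟩ := WChains.lifts_iff hq E hc (m + i) (m - i)
    rw [hI, WChains.isCompl_iff hq E hs]
    intro k
    have h2 := (WChains.isPure_iff hq hmix E m).1 hp k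
    have h3 := WChains.cut_add_centered (E.D.pos k) i
    rw [h2]
    convert h3 using 3
    · ring
    · ring
  · obtain ⟨s, hs, hI, hD⟩ := WChains.lifts_iff hq E hc m m
    rw [h1, ← Submodule.disjoint_def, hI, hD]
    refine Submodule.isCompl_iff_disjoint _ _ ?_
    rw [WChains.finrank_map_exp E, WChains.finrank_above_card hq E, WChains.finrank_atLeast_card hq E,
      WChains.card_above_below hq E m hsym, finrank_eq_card_basis E.D.basis]
    have h2 := Finset.card_filter_add_card_filter_not (s := (Finset.univ : Finset E.Idx))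
      (fun y => (m : ℤ) ≤ E.wt y)
    have h3 : (Finset.univ.filter fun y : E.Idx => ¬ (m : ℤ) ≤ E.wt y) =
        Finset.univ.filter fun y => E.wt y < (m : ℤ) := by
      ext y
      simp only [Finset.mem_filter, Finset.mem_univ, true_and, not_le]
    rw [h3] at h2
    rw [h2]
    exact le_rfl

end Pool.Agent.X305.WM
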