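import Pool.Agent.X305.WM.CdrDefs
import Pool.Agent.X305.WM.Two

/-!
# The centralizer of `N` and weight-monodromy: chains
-/

set_option autoImplicit false

namespace Pool.Agent.X305.WM

open Module Polynomial Pool.Agent.X268.WM

universe u

/-! ### Numbers -/

/-- `1` if `x` is one of the weights `w`, `w - 2`, ..., `w - 2 (l - 1)`, otherwise `0`. -/
def chi (l : ℕ) (w x : ℤ) : ℕ := if (w - x) % 2 = 0 ∧ 0 ≤ (w - x) / 2 ∧ (w - x) / 2 < l then 1 else 0

theorem card_chi (l : ℕ) (w x : ℤ) :
    (Finset.univ.filter fun b : Fin l => w - 2 * ((b : ℕ) : ℤ) = x).card = chi l w x := by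
  rw [chi]
  split_ifs with h
  · rw [Finset.card_eq_one]
    refine ⟨⟨((w - x) / 2).toNat, by omega⟩, ?_⟩
    ext b
    simp only [Finset.mem_filter, Finset.mem_univ, true_and, Finset.mem_singleton, Fin.ext_iff]
    omega
  · rw [Finset.card_eq_zero, Finset.filter_eq_empty_iff]
    intro b _ hb
    have := b.2
    omega

theorem chi_add (l' : ℕ) (s' s : ℤ) (a : ℕ) :
    chi l' s' (s - 2 * a) + chi l' s' (s - 2 * a + 1) =
      if 0 ≤ (a : ℤ) + (s' - s) / 2 ∧ (a : ℤ) + (s' - s) / 2 < l' then 1 else 0 := by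
  rw [chi, chi]
  split_ifs <;> omega

/-- the number of the `a < l` with `0 ≤ a + e < l'` -/
def meet (l l' : ℕ) (e : ℤ) : ℕ :=
  ∑ a : Fin l, if 0 ≤ ((a : ℕ) : ℤ) + e ∧ ((a : ℕ) : ℤ) + e < l' then 1 else 0

theorem meet_eq (l l' : ℕ) (e : ℤ) :
    meet l l' e = (min (l : ℤ) (l' - e) - max 0 (-e)).toNat := by
  rw [meet, Fin.sum_univ_eq_sum_range (fun a : ℕ => if 0 ≤ (a : ℤ) + e ∧ (a : ℤ) + e < l' then 1 else 0) l,
    ← Finset.card_filter]
  have h : ((Finset.range l).filter fun a : ℕ => 0 ≤ (a : ℤ) + e ∧ (a : ℤ) + e < l') =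
      Finset.Ico (max 0 (-e)).toNat (min (l : ℤ) (l' - e)).toNat := by
    ext a
    simp only [Finset.mem_filter, Finset.mem_range, Finset.mem_Ico]
    omega
  rw [h, Nat.card_Ico]
  omega

theorem meet_le (l l' : ℕ) (e : ℤ) : meet l l' e ≤ min l l' := by
  rw [meet_eq]
  omega

theorem meet_eq_min {l l' : ℕ} (hl : 0 < l) (hl' : 0 < l') (e : ℤ) :
    meet l l' e = min l l' ↔ (l ≤ l' ∧ 0 ≤ e ∧ e ≤ (l' : ℤ) - l) ∨
      (l' ≤ l ∧ e ≤ 0 ∧ -e ≤ (l : ℤ) - l') := by
  rw [meet_eq]
  omega

/-- the combinatorial heart: a symmetric nested system of intervals is centered -/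
theorem centered_of_nested {κ : Type} [Fintype κ] (l : κ → ℕ) (w : κ → ℤ) (hl : ∀ i, 0 < l i)
    (m : ℤ) (hsym : ∀ k : ℤ, ∑ j, chi (l j) (w j) (m + k) = ∑ j, chi (l j) (w j) (m - k))
    (hn : ∀ i j, l i ≤ l j → w i ≤ w j ∧ w j - 2 * l j ≤ w i - 2 * l i) (i : κ) :
    w i = m + l i - 1 := by
  classical
  by_contra hi
  obtain ⟨i, hi, hmax⟩ := Finset.exists_max_image
    (Finset.univ.filter fun i => w i ≠ m + l i - 1) l ⟨i, by simpa using hi⟩
  rw [Finset.mem_filter] at hi
  have hc : ∀ j, l i < l j → w j = m + l j - 1 := by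
    intro j hj
    by_contra h
    have := hmax j (by simpa using h)
    omega
  have hli := hl i
  rcases lt_or_gt_of_ne hi.2 with h | h
  · -- the center is smaller than `m`; compare the weights `t` and `2 m - t` for the last weight `t`
    have h1 := hsym (w i - 2 * l i + 2 - m)
    have h2 : ∑ j, chi (l j) (w j) (m - (w i - 2 * l i + 2 - m)) <
        ∑ j, chi (l j) (w j) (m + (w i - 2 * l i + 2 - m)) := by
      apply Finset.sum_lt_sum
      · intro j _
        rcases lt_or_ge (l i) (l j) with hj | hj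
        · have h3 := hc j hj
          rw [chi, chi]
          split_ifs <;> omega
        · have h3 := hn j i hj
          rw [chi, chi]
          split_ifs <;> omega
      · refine ⟨i, Finset.mem_univ _, ?_⟩
        rw [chi, chi]
        split_ifs <;> omega
    omega
  · have h1 := hsym (w i - m)
    have h2 : ∑ j, chi (l j) (w j) (m - (w i - m)) < ∑ j, chi (l j) (w j) (m + (w i - m)) := by
      apply Finset.sum_lt_sum
      · intro j _
        rcases lt_or_ge (l i) (l j) with hj | hj
        · have h3 := hc j hj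
          rw [chi, chi]
          split_ifs <;> omega
        · have h3 := hn j i hj
          rw [chi, chi]
          split_ifs <;> omega
      · refine ⟨i, Finset.mem_univ _, ?_⟩
        rw [chi, chi]
        split_ifs <;> omega
    omega

theorem nested_of_meet {κ : Type} (l : κ → ℕ) (w : κ → ℤ) (hl : ∀ i, 0 < l i)
    (h : ∀ i j, meet (l i) (l j) ((w j - w i) / 2) = min (l i) (l j)) (i j : κ) (hij : l i ≤ l j) :
    w i ≤ w j ∧ w j - 2 * l j ≤ w i - 2 * l i := by
  have h1 := (meet_eq_min (hl i) (hl j) _).1 (h i j)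
  have h2 := (meet_eq_min (hl j) (hl i) _).1 (h j i)
  omega

theorem meet_of_centered {l l' : ℕ} {w w' m : ℤ} (hl : 0 < l) (hl' : 0 < l') (h : w = m + l - 1)
    (h' : w' = m + l' - 1) : meet l l' ((w' - w) / 2) = min l l' := by
  rw [meet_eq_min hl hl']
  omega

/-! ### The centralizer -/

section

variable {K : Type} {V : Type u} [Field K] [AddCommGroup V] [Module K V]

/-- The operators which commute with `N`. -/
def cent (N : End K V) : Submodule K (End K V) where
  carrier := {Z | ∀ v, N (Z v) = Z (N v)}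
  add_mem' := by
    intro Z Z' h h' v
    rw [LinearMap.add_apply, map_add, h, h', LinearMap.add_apply]
  zero_mem' := by intro v; simp
  smul_mem' := by
    intro c Z h v
    rw [LinearMap.smul_apply, map_smul, h, LinearMap.smul_apply]

theorem cent_pow {N Z : End K V} (h : Z ∈ cent N) (k : ℕ) (v : V) :
    (N ^ k) (Z v) = Z ((N ^ k) v) := by
  induction k with
  | zero => simp
  | succ k ih =>
    rw [pow_succ', Module.End.mul_apply, ih, Module.End.mul_apply]
    exact h _

namespace Chains

variable {N : End K V} {ι : Type} {P : ι → Submodule K V} (D : Chains N P ⊤)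

theorem finrank_ker_pow (k : ℕ) :
    finrank K ↥(LinearMap.ker (N ^ k)) = ∑ j, min (D.l j) k := by
  have hfd := D.finiteDimensional
  have h1 := LinearMap.finrank_range_add_finrank_ker (N ^ k)
  rw [D.finrank_range_pow, D.finrank_eq, WChains.card_sigma_filter] at h1
  have h2 : ∀ j, (Finset.univ.filter fun b : Fin (D.l j) => (b : ℕ) + k < D.l j).card =
      D.l j - k := by
    intro j
    have h3 : (Finset.univ.filter fun b : Fin (D.l j) => (b : ℕ) + k < D.l j) =
        Finset.univ.filter fun b : Fin (D.l j) => (b : ℕ) < D.l j - k := by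
      ext b
      simp only [Finset.mem_filter, Finset.mem_univ, true_and]
      omega
    rw [h3, Fin.card_filter_val_lt]
    omega
  simp only [h2] at h1
  have h4 : ∑ j, D.l j = ∑ j, (D.l j - k) + ∑ j, min (D.l j) k := by
    rw [← Finset.sum_add_distrib]
    exact Finset.sum_congr rfl fun j _ => by omega
  omega

theorem finrank_cent : finrank K ↥(cent N) = ∑ i, ∑ j, min (D.l i) (D.l j) := by
  classical
  have hfd := D.finiteDimensional
  let f : cent N →ₗ[K] (∀ i, LinearMap.ker (N ^ (D.l i))) :=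
    { toFun := fun Z i => ⟨Z.1 (D.v i), by
        rw [LinearMap.mem_ker, cent_pow Z.2, D.zero i, map_zero]⟩
      map_add' := fun Z Z' => rfl
      map_smul' := fun c Z => rfl }
  have hinj : Function.Injective f := by
    rw [← LinearMap.ker_eq_bot, LinearMap.ker_eq_bot']
    intro Z hZ
    apply Subtype.ext
    refine D.basis.ext fun x => ?_
    rw [D.basis_apply, ← cent_pow Z.2]
    have h1 : Z.1 (D.v x.1) = 0 := congrArg Subtype.val (congrFun hZ x.1)
    rw [h1, map_zero]
    rfl
  have hsurj : Function.Surjective f := by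
    intro u
    let Z : End K V := D.basis.constr K fun x => (N ^ (x.2 : ℕ)) (u x.1 : V)
    have hZ : ∀ x, Z (D.basis x) = (N ^ (x.2 : ℕ)) (u x.1 : V) := fun x => D.basis.constr_basis K _ x
    have hZv : ∀ i, Z (D.v i) = u i := by
      intro i
      have h1 := hZ ⟨i, ⟨0, D.pos i⟩⟩
      rw [D.basis_apply] at h1
      simpa using h1
    have hc : Z ∈ cent N := by
      have h2 : N ∘ₗ Z = Z ∘ₗ N := by
        refine D.basis.ext fun x => ?_
        rw [LinearMap.comp_apply, LinearMap.comp_apply, hZ]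
        obtain ⟨i, j⟩ := x
        rcases lt_or_ge ((j : ℕ) + 1) (D.l i) with h | h
        · have h3 := D.pow_basis 1 i j h
          rw [pow_one] at h3
          rw [h3, hZ, pow_succ', Module.End.mul_apply]
        · have h3 := D.pow_basis_zero 1 i j h
          rw [pow_one] at h3
          rw [h3, map_zero, ← Module.End.mul_apply, ← pow_succ']
          have h4 : (j : ℕ) + 1 = D.l i := by have := j.2; omega
          simp only
          rw [h4]
          exact LinearMap.mem_ker.1 (u i).2
      exact fun v => congrFun (congrArg DFunLike.coe h2) v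
    exact ⟨⟨Z, hc⟩, funext fun i => Subtype.ext (hZv i)⟩
  rw [LinearEquiv.finrank_eq (LinearEquiv.ofBijective f ⟨hinj, hsurj⟩), Module.finrank_pi_fintype]
  refine Finset.sum_congr rfl fun i _ => ?_
  rw [D.finrank_ker_pow]
  exact Finset.sum_congr rfl fun j _ => min_comm _ _

end Chains

end

/-! ### Weights -/

variable {Ω : Type} [Field Ω] [CharZero Ω] {q : ℕ}

namespace WChains

variable {W : FN.{u} Ω q}

/-- the number of the basis vectors of weight `x` -/
def num (E : WChains W) (x : ℤ) : ℕ := ∑ j, chi (E.D.l j) (E.w j) x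

theorem card_wt (E : WChains W) (x : ℤ) :
    (Finset.univ.filter fun y : E.Idx => E.wt y = x).card = E.num x := by
  rw [card_sigma_filter, num]
  refine Finset.sum_congr rfl fun j _ => ?_
  rw [← card_chi]
  rfl

theorem sum_pairs (E : WChains W) :
    ∑ᶠ x : ℤ, E.num x * (E.num x + E.num (x + 1)) =
      ∑ i, ∑ j, meet (E.D.l i) (E.D.l j) ((E.w j - E.w i) / 2) := by
  classical
  have h1 : Function.support (fun x : ℤ => E.num x * (E.num x + E.num (x + 1))) ⊆
      ((Finset.univ.image fun y : E.Idx => E.wt y : Finset ℤ) : Set ℤ) := by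
    intro x hx
    rw [Function.mem_support] at hx
    have h2 : E.num x ≠ 0 := left_ne_zero_of_mul hx
    rw [← E.card_wt, Finset.card_ne_zero] at h2
    obtain ⟨y, hy⟩ := h2
    rw [Finset.mem_filter] at hy
    exact Finset.mem_coe.2 (Finset.mem_image.2 ⟨y, Finset.mem_univ _, hy.2⟩)
  rw [finsum_eq_sum_of_support_subset _ h1]
  have h3 : ∀ x ∈ (Finset.univ.image fun y : E.Idx => E.wt y : Finset ℤ),
      E.num x * (E.num x + E.num (x + 1)) =
        ∑ y ∈ Finset.univ.filter (fun y : E.Idx => E.wt y = x), (E.num (E.wt y) + E.num (E.wt y + 1)) := by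
    intro x _
    rw [Finset.sum_congr rfl (g := fun _ => E.num x + E.num (x + 1)) (fun y hy => by
      rw [(Finset.mem_filter.1 hy).2]), Finset.sum_const, E.card_wt, smul_eq_mul]
  rw [Finset.sum_congr rfl h3, Finset.sum_fiberwise_of_maps_to (fun y _ =>
    Finset.mem_image_of_mem _ (Finset.mem_univ y)), Fintype.sum_sigma]
  refine Finset.sum_congr rfl fun i _ => ?_
  have h4 : ∀ a : Fin (E.D.l i), E.num (E.wt ⟨i, a⟩) + E.num (E.wt ⟨i, a⟩ + 1) =
      ∑ j, if 0 ≤ ((a : ℕ) : ℤ) + (E.w j - E.w i) / 2 ∧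
        ((a : ℕ) : ℤ) + (E.w j - E.w i) / 2 < E.D.l j then 1 else 0 := by
    intro a
    rw [num, num, ← Finset.sum_add_distrib]
    exact Finset.sum_congr rfl fun j _ => chi_add _ _ _ _
  rw [Finset.sum_congr rfl fun a _ => h4 a, Finset.sum_comm]
  rfl

/-- **The centralizer of `N` and weight-monodromy.** -/
theorem pairs_le (E : WChains W) :
    ∑ᶠ x : ℤ, E.num x * (E.num x + E.num (x + 1)) ≤ finrank Ω ↥(cent W.N) := by
  rw [E.sum_pairs, E.D.finrank_cent]
  exact Finset.sum_le_sum fun i _ => Finset.sum_le_sum fun j _ => meet_le _ _ _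

theorem pairs_eq_iff (hq : 1 < q) (hmix : W.IsMixed) (E : WChains W) (m : ℕ)
    (hsym : ∀ k : ℤ, E.num (m + k) = E.num (m - k)) :
    finrank Ω ↥(cent W.N) = ∑ᶠ x : ℤ, E.num x * (E.num x + E.num (x + 1)) ↔ W.IsPure m := by
  rw [E.sum_pairs, E.D.finrank_cent, isPure_iff hq hmix E m]
  constructor
  · intro h
    have h1 : ∀ i ∈ Finset.univ, ∑ j, meet (E.D.l i) (E.D.l j) ((E.w j - E.w i) / 2) =
        ∑ j, min (E.D.l i) (E.D.l j) :=
      (Finset.sum_eq_sum_iff_of_le fun i _ => Finset.sum_le_sum fun j _ => meet_le _ _ _).1 h.symm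
    have h2 : ∀ i j, meet (E.D.l i) (E.D.l j) ((E.w j - E.w i) / 2) = min (E.D.l i) (E.D.l j) :=
      fun i j => (Finset.sum_eq_sum_iff_of_le fun j _ => meet_le _ _ _).1
        (h1 i (Finset.mem_univ _)) j (Finset.mem_univ _)
    exact centered_of_nested E.D.l E.w E.D.pos m hsym (nested_of_meet E.D.l E.w E.D.pos h2)
  · intro h
    refine Finset.sum_congr rfl fun i _ => Finset.sum_congr rfl fun j _ => ?_
    exact (meet_of_centered (E.D.pos i) (E.D.pos j) (h i) (h j)).symm

end WChains

end Pool.Agent.X305.WM
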