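import Pool.Agent.X305.WM.AdDefs

/-!
# Numbers of Weil numbers of given weights
-/

set_option autoImplicit false

namespace Pool.Agent.X305.WM

open Module Polynomial Pool.Agent.X268.WM

universe u

variable {Ω : Type} [Field Ω] [CharZero Ω] {q : ℕ}

open Classical in
/-- The number of the roots of `P` in an algebraic closure of `ℚ`, with multiplicities, which are `q`-Weil
numbers of weight `w`. -/
noncomputable def weightCount (q : ℕ) (P : ℤ[X]) (w : ℤ) : ℕ :=
  Multiset.card ((P.aroots (AlgebraicClosure ℚ)).filter (IsWeil q w))

/-- The numbers of the roots of weights `m + k` and `m - k` are equal. -/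
def SymmetricWeights (q m : ℕ) (P : ℤ[X]) : Prop :=
  ∀ k : ℤ, weightCount q P (m + k) = weightCount q P (m - k)

/-- The number of the pairs `(a, b)` of roots of `P` for which the weight of `b` is equal to the weight of `a`, or
larger by one: the sum over all `w` of `v (w) * (v (w) + v (w + 1))`, where `v (w)` is the number of the roots of
weight `w`. -/
noncomputable def closePairs (q : ℕ) (P : ℤ[X]) : ℕ :=
  ∑ᶠ w : ℤ, weightCount q P w * (weightCount q P w + weightCount q P (w + 1))

/-- The dimension of the kernel of `N`. -/
noncomputable def kerDim (A : FN.{u} Ω q) : ℕ := finrank Ω ↥(LinearMap.ker A.N)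

end Pool.Agent.X305.WM
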