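import Pool.Agent.X305.WM.Euler

/-!
# The Euler polynomial and its minimal factor
-/

set_option autoImplicit false

namespace Pool.Agent.X305.WM

open Module Polynomial Pool.Agent.X268.WM Pool.Agent.X268.EV

universe u

section poly

variable {k : Type} [Field k]

theorem rm_comp {f : k[X]} (hf : f ≠ 0) {c : k} (hc : c ≠ 0) (a : k) :
    rootMultiplicity a (f.comp (C c * X)) = rootMultiplicity (c * a) f := by
  have hcX : (C c * X : k[X]).natDegree ≠ 0 := by
    rw [natDegree_C_mul hc, natDegree_X]; exact one_ne_zero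
  have hinv : ∀ g : k[X], (g.comp (C c * X)).comp (C c⁻¹ * X) = g := by
    intro g
    rw [comp_assoc, mul_comp, C_comp, X_comp, ← mul_assoc, ← C_mul, mul_inv_cancel₀ hc, C_1, one_mul,
      comp_X]
  have hf' : f.comp (C c * X) ≠ 0 := by
    intro h
    apply hf
    rw [← hinv f, h, zero_comp]
  refine eq_of_forall_le_iff fun n => ?_
  rw [le_rootMultiplicity_iff hf', le_rootMultiplicity_iff hf]
  constructor
  · rintro ⟨g, hg⟩
    have h1 : (f.comp (C c * X)).comp (C c⁻¹ * X) = ((X - C a) ^ n * g).comp (C c⁻¹ * X) := by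
      rw [hg]
    rw [hinv, mul_comp, pow_comp, sub_comp, X_comp, C_comp] at h1
    refine ⟨C (c⁻¹) ^ n * g.comp (C c⁻¹ * X), ?_⟩
    rw [h1, ← mul_assoc, ← mul_pow]
    congr 2
    rw [sub_mul, mul_comm X, ← C_mul, mul_comm (c * a), ← mul_assoc, inv_mul_cancel₀ hc, one_mul]
  · rintro ⟨g, hg⟩
    refine ⟨C c ^ n * g.comp (C c * X), ?_⟩
    conv_lhs => rw [hg]
    rw [mul_comp, pow_comp, sub_comp, X_comp, C_comp, ← mul_assoc, ← mul_pow]
    congr 2
    rw [sub_mul, mul_comm X, ← C_mul, mul_comm a]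

theorem rm_gcd [DecidableEq k] {f g : k[X]} (hf : f ≠ 0) (hg : g ≠ 0) (a : k) :
    rootMultiplicity a (EuclideanDomain.gcd f g) = min (rootMultiplicity a f) (rootMultiplicity a g) := by
  have h0 : EuclideanDomain.gcd f g ≠ 0 := by
    intro h
    exact hf (EuclideanDomain.gcd_eq_zero_iff.1 h).1
  refine eq_of_forall_le_iff fun n => ?_
  rw [le_rootMultiplicity_iff h0, le_min_iff, le_rootMultiplicity_iff hf, le_rootMultiplicity_iff hg]
  exact ⟨fun h => ⟨h.trans (EuclideanDomain.gcd_dvd_left f g), h.trans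
    (EuclideanDomain.gcd_dvd_right f g)⟩, fun h => EuclideanDomain.dvd_gcd h.1 h.2⟩

theorem eq_of_rm [IsAlgClosed k] {f g : k[X]} (hf : f.Monic) (hg : g.Monic)
    (h : ∀ a, rootMultiplicity a f = rootMultiplicity a g) : f = g := by
  classical
  have h1 : f.roots = g.roots := Multiset.ext.2 fun a => by rw [count_roots, count_roots, h]
  rw [(IsAlgClosed.splits f).eq_prod_roots_of_monic hf, (IsAlgClosed.splits g).eq_prod_roots_of_monic hg,
    h1]

theorem dvd_of_rm [IsAlgClosed k] {f g : k[X]} (hf : f ≠ 0)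
    (h : ∀ a, rootMultiplicity a f ≤ rootMultiplicity a g) : f ∣ g := by
  classical
  refine (IsAlgClosed.splits f).dvd_of_roots_le_roots hf ?_
  rw [Multiset.le_iff_count]
  intro a
  rw [count_roots, count_roots]
  exact h a

end poly

/-- The quotient of `P` by the greatest common divisor of `P(X)` and `P(X / q)`. -/
noncomputable def reducedPoly (q : ℕ) (P : ℚ[X]) : ℚ[X] :=
  P / EuclideanDomain.gcd P (P.comp (C ((q : ℚ)⁻¹) * X))

variable {Ω : Type} [Field Ω] [CharZero Ω] {q : ℕ}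

/-- The characteristic polynomial of Frobenius on the kernel of `N`. -/
noncomputable def kerPoly (W : FN.{u} Ω q) : Polynomial Ω := (W.F.restrict (F_ker W)).charpoly

theorem rm_kerPoly (W : FN.{u} Ω q) (a : Ω) : rootMultiplicity a (kerPoly W) = kmult W a := by
  rw [kerPoly, ← LinearMap.finrank_maxGenEigenspace_eq, kmult]
  have h1 : Module.End.maxGenEigenspace (W.F.restrict (F_ker W)) a =
      Submodule.comap (LinearMap.ker W.N).subtype (gen W a) :=
    Module.End.genEigenspace_restrict W.F (LinearMap.ker W.N) ⊤ a (F_ker W)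
  rw [h1]
  have h2 : LinearMap.ker W.N ⊓ gen W a =
      (Submodule.comap (LinearMap.ker W.N).subtype (gen W a)).map (LinearMap.ker W.N).subtype := by
    rw [Submodule.map_comap_subtype]
  rw [h2]
  exact LinearEquiv.finrank_eq (Submodule.equivMapOfInjective _ (Submodule.injective_subtype _) _)

theorem rm_charpoly (W : FN.{u} Ω q) (a : Ω) : rootMultiplicity a W.F.charpoly = W.mult a := by
  rw [← LinearMap.finrank_maxGenEigenspace_eq]; rfl

/-- An integral model of the reduced polynomial. -/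
theorem exists_reduced (hq : 1 < q) {P : ℤ[X]} (hP : P.Monic) :
    ∃ R : ℤ[X], R.Monic ∧ Associated (R.map (Int.castRingHom ℚ))
        (reducedPoly q (P.map (Int.castRingHom ℚ))) ∧
      ∀ (Ω : Type) [Field Ω] [CharZero Ω] (a : Ω), rootMultiplicity a (R.map (Int.castRingHom Ω)) =
        rootMultiplicity a (P.map (Int.castRingHom Ω)) -
          rootMultiplicity (a / q) (P.map (Int.castRingHom Ω)) := by
  classical
  set Q := P.map (Int.castRingHom ℚ) with hQ
  have hq0 : (q : ℚ) ≠ 0 := by exact_mod_cast (by omega : q ≠ 0)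
  have hQm : Q.Monic := hP.map _
  have hQ0 : Q ≠ 0 := hQm.ne_zero
  set D := EuclideanDomain.gcd Q (Q.comp (C ((q : ℚ)⁻¹) * X)) with hD
  have hD0 : D ≠ 0 := by
    intro h
    exact hQ0 (EuclideanDomain.gcd_eq_zero_iff.1 h).1
  have hR0 : reducedPoly q Q * D = Q := by
    rw [reducedPoly, ← hD, mul_comm]
    exact EuclideanDomain.mul_div_cancel' hD0 (EuclideanDomain.gcd_dvd_left _ _)
  have hR00 : reducedPoly q Q ≠ 0 := by
    intro h
    rw [h, zero_mul] at hR0
    exact hQ0 hR0.symm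
  obtain ⟨R, hR⟩ := IsIntegrallyClosed.eq_map_mul_C_of_dvd ℚ hP (g := reducedPoly q Q)
    (Dvd.intro _ hR0)
  have hmap : (algebraMap ℤ ℚ) = Int.castRingHom ℚ := rfl
  rw [hmap] at hR
  have hlc : (reducedPoly q Q).leadingCoeff ≠ 0 := leadingCoeff_ne_zero.2 hR00
  have hRm : R.Monic := by
    have h1 := congrArg leadingCoeff hR
    rw [leadingCoeff_mul, leadingCoeff_C] at h1
    have h2 : (R.map (Int.castRingHom ℚ)).leadingCoeff = 1 :=
      mul_right_cancel₀ hlc (by rw [h1, one_mul])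
    rw [leadingCoeff_map_of_injective (RingHom.injective_int _)] at h2
    have h3 : ((R.leadingCoeff : ℤ) : ℚ) = 1 := h2
    have h4 : R.leadingCoeff = 1 := by exact_mod_cast h3
    exact h4
  refine ⟨R, hRm, ?_, ?_⟩
  · refine ⟨(isUnit_C.2 (Ne.isUnit hlc)).unit, ?_⟩
    rw [IsUnit.unit_spec]
    exact hR
  · intro Ω _ _ a
    have hqΩ : (q : Ω) ≠ 0 := by exact_mod_cast (by omega : q ≠ 0)
    have hcomp : (algebraMap ℚ Ω).comp (Int.castRingHom ℚ) = Int.castRingHom Ω := by
      ext; simp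
    have hmm : ∀ S : ℤ[X], (S.map (Int.castRingHom ℚ)).map (algebraMap ℚ Ω) =
        S.map (Int.castRingHom Ω) := by
      intro S
      rw [Polynomial.map_map, hcomp]
    have h1 : (R.map (Int.castRingHom Ω)) * C (algebraMap ℚ Ω (reducedPoly q Q).leadingCoeff) *
        (D.map (algebraMap ℚ Ω)) = P.map (Int.castRingHom Ω) := by
      rw [← hmm R, ← Polynomial.map_C, ← Polynomial.map_mul, ← Polynomial.map_mul, hR, hR0, hQ, hmm]
    have hPΩ : P.map (Int.castRingHom Ω) ≠ 0 := (hP.map _).ne_zero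
    have hRΩ : R.map (Int.castRingHom Ω) ≠ 0 := (hRm.map _).ne_zero
    have hDΩ : D.map (algebraMap ℚ Ω) ≠ 0 := by
      rwa [Ne, Polynomial.map_eq_zero]
    have hcΩ : C (algebraMap ℚ Ω (reducedPoly q Q).leadingCoeff) ≠ 0 := by
      rw [Ne, C_eq_zero, map_eq_zero]
      exact hlc
    have h2 := congrArg (rootMultiplicity a) h1
    rw [rootMultiplicity_mul (mul_ne_zero (mul_ne_zero hRΩ hcΩ) hDΩ),
      rootMultiplicity_mul (mul_ne_zero hRΩ hcΩ), rootMultiplicity_C, add_zero] at h2
    have h3 : D.map (algebraMap ℚ Ω) = EuclideanDomain.gcd (P.map (Int.castRingHom Ω))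
        ((P.map (Int.castRingHom Ω)).comp (C ((q : Ω)⁻¹) * X)) := by
      rw [hD, ← gcd_map, hQ, hmm, Polynomial.map_comp, hmm, Polynomial.map_mul, Polynomial.map_C,
        Polynomial.map_X, map_inv₀, map_natCast]
    have hcomp0 : (P.map (Int.castRingHom Ω)).comp (C ((q : Ω)⁻¹) * X) ≠ 0 := by
      intro h
      rw [h, EuclideanDomain.gcd_zero_right] at h3
      have h4 := congrArg natDegree h
      have h5 : (D.map (algebraMap ℚ Ω)) = P.map (Int.castRingHom Ω) := h3
      have h6 : ((P.map (Int.castRingHom Ω)).comp (C ((q : Ω)⁻¹) * X)).comp (C (q : Ω) * X) =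
          P.map (Int.castRingHom Ω) := by
        rw [comp_assoc, mul_comp, C_comp, X_comp, ← mul_assoc, ← C_mul, inv_mul_cancel₀ hqΩ, C_1,
          one_mul, comp_X]
      rw [h, zero_comp] at h6
      exact hPΩ h6.symm
    rw [h3, rm_gcd hPΩ hcomp0, rm_comp hPΩ (inv_ne_zero hqΩ), inv_mul_eq_div] at h2
    omega

end Pool.Agent.X305.WM
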