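import Pool.Agent.X305.WM.GenMain
import Pool.Agent.X305.WM.EulerPoly

/-!
# Weight-monodromy and twisted endomorphisms: change of the field of coefficients
-/

set_option autoImplicit false

namespace Pool.Agent.X305.WM

open Module Polynomial Pool.Agent.X268.WM

universe u

variable {Ω : Type} [Field Ω] [CharZero Ω] {q : ℕ}

theorem isWeil_map {Ω' : Type} [Field Ω'] [CharZero Ω'] (φ : Ω' →ₐ[ℚ] Ω) (w : ℤ) (b : Ω') :
    IsWeil q w (φ b) ↔ IsWeil q w b := by
  unfold IsWeil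
  have h1 : IsAlgebraic ℚ (φ b) ↔ IsAlgebraic ℚ b := isAlgebraic_algHom_iff φ φ.injective
  have h2 : minpoly ℚ (φ b) = minpoly ℚ b := minpoly.algHom_eq φ φ.injective b
  rw [h1, h2]

theorem exists_preimage [IsAlgClosed Ω] (φ : AlgebraicClosure ℚ →ₐ[ℚ] Ω) {a : Ω}
    (ha : IsAlgebraic ℚ a) : ∃ b, φ b = a := by
  let _ : Algebra (AlgebraicClosure ℚ) Ω := φ.toRingHom.toAlgebra
  have _ : IsScalarTower ℚ (AlgebraicClosure ℚ) Ω :=
    IsScalarTower.of_algebraMap_eq fun x => (φ.commutes x).symm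
  have h1 : IsIntegral (AlgebraicClosure ℚ) a := ha.isIntegral.tower_top
  have h2 : (minpoly (AlgebraicClosure ℚ) a).degree = 1 :=
    IsAlgClosed.degree_eq_one_of_irreducible _ (minpoly.irreducible h1)
  obtain ⟨b, hb⟩ := minpoly.mem_range_of_degree_eq_one _ _ h2
  exact ⟨b, hb⟩

theorem adm_iff_roots [IsAlgClosed Ω] (W : FN.{u} Ω q) (m : ℕ) (P : ℚ[X])
    (hP : W.F.charpoly = P.map (algebraMap ℚ Ω)) : Adm W m ↔ AdmissibleRoots q m P := by
  have hA : Algebra.IsAlgebraic ℚ (AlgebraicClosure ℚ) := AlgebraicClosure.isAlgebraic ℚ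
  let φ : AlgebraicClosure ℚ →ₐ[ℚ] Ω := IsAlgClosed.lift
  have hrm : ∀ b : AlgebraicClosure ℚ,
      (P.map (algebraMap ℚ (AlgebraicClosure ℚ))).rootMultiplicity b = W.mult (φ b) := by
    intro b
    rw [← rm_charpoly, hP, eq_rootMultiplicity_map (f := φ.toRingHom) φ.injective b,
      Polynomial.map_map]
    congr 2
    exact RingHom.ext fun x => φ.commutes x
  have hdiv : ∀ (b : AlgebraicClosure ℚ) (j : ℕ),
      φ (b / (q : AlgebraicClosure ℚ) ^ j) = φ b / (q : Ω) ^ j := by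
    intro b j
    rw [map_div₀, map_pow, map_natCast]
  constructor
  · intro h k b hb
    have h1 := h k (φ b) ((isWeil_map φ _ b).2 hb)
    refine ⟨fun j hj => ?_, ?_⟩
    · rw [hrm, hrm, hdiv]
      exact h1.1 j hj
    · rw [hrm, hrm, hdiv]
      exact h1.2
  · intro h k a ha
    obtain ⟨b, rfl⟩ := exists_preimage φ ha.1
    have h1 := h k b ((isWeil_map φ _ b).1 ha)
    refine ⟨fun j hj => ?_, ?_⟩
    · rw [← hdiv, ← hrm, ← hrm]
      exact h1.1 j hj
    · rw [← hdiv, ← hrm, ← hrm]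
      exact h1.2

/-- **Weight-monodromy for one prime and twisted endomorphisms for another one.** -/
theorem family (hq : 1 < q) (m : ℕ) {Λ : Type} (Ω : Λ → Type) [∀ l, Field (Ω l)]
    [∀ l, CharZero (Ω l)] [∀ l, IsAlgClosed (Ω l)] (W : ∀ l, FN.{u} (Ω l) q)
    (hmix : ∀ l, (W l).IsMixed) (P : ℚ[X])
    (hP : ∀ l, (W l).F.charpoly = P.map (algebraMap ℚ (Ω l))) :
    (∀ l, (W l).IsPure m ↔ AdmissibleRoots q m P ∧ NoTwistedEndomorphism (W l)) ∧
      ((∃ l, (W l).IsPure m) →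
        ∀ l, (W l).IsPure m ↔ NoTwistedEndomorphism (W l)) := by
  have h1 : ∀ l, (W l).IsPure m ↔ AdmissibleRoots q m P ∧ NoTwistedEndomorphism (W l) := by
    intro l
    rw [pure_iff_adm hq (hmix l) m, adm_iff_roots (W l) m P (hP l)]
  refine ⟨h1, ?_⟩
  rintro ⟨l0, hl0⟩ l
  rw [h1 l]
  exact ⟨fun h => h.2, fun h => ⟨((h1 l0).1 hl0).1, h⟩⟩

end Pool.Agent.X305.WM
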