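import Pool.Agent.X305.WM.Cdr
import Pool.Agent.X305.WM.Ad
import Pool.Agent.X305.WM.GenTrans

/-!
# The conductor of the endomorphisms and weight-monodromy
-/

set_option autoImplicit false

namespace Pool.Agent.X305.WM

open Module Polynomial Pool.Agent.X268.WM

universe u

variable {Ω : Type} [Field Ω] [CharZero Ω] {q : ℕ}

namespace WChains

variable {W : FN.{u} Ω q}

theorem roots_eq (hq : 1 < q) (E : WChains W) :
    W.F.charpoly.roots = Finset.univ.val.map E.dg := by
  classical
  refine Multiset.ext.2 fun a => ?_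
  rw [count_roots, rm_charpoly, mult_eq_card hq E, Multiset.count_map]
  have h1 : (Multiset.filter (fun x => a = E.dg x) Finset.univ.val) =
      (Finset.univ.filter fun y => E.dg y = a).val := by
    rw [Finset.filter_val]
    exact Multiset.filter_congr fun x _ => eq_comm
  rw [h1]
  rfl

open Classical in
theorem num_eq (hq : 1 < q) (E : WChains W) (x : ℤ) :
    E.num x = Multiset.card (W.F.charpoly.roots.filter (IsWeil q x)) := by
  rw [roots_eq hq E, ← E.card_wt, Multiset.filter_map, Multiset.card_map, Finset.card_def,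
    Finset.filter_val]
  congr 1
  refine Multiset.filter_congr fun y _ => ?_
  rw [Function.comp_apply]
  constructor
  · rintro rfl
    exact E.weil_dg hq y
  · intro h
    exact wt_of_dg hq h rfl

open Classical in
theorem num_eq_count [IsAlgClosed Ω] (hq : 1 < q) (E : WChains W) (P : ℤ[X])
    (hP : W.F.charpoly = P.map (Int.castRingHom Ω)) (x : ℤ) : E.num x = weightCount q P x := by
  have hA : Algebra.IsAlgebraic ℚ (AlgebraicClosure ℚ) := AlgebraicClosure.isAlgebraic ℚ
  let φ : AlgebraicClosure ℚ →ₐ[ℚ] Ω := IsAlgClosed.lift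
  have h1 : W.F.charpoly.roots = (P.aroots (AlgebraicClosure ℚ)).map φ := by
    have h2 : (P.map (algebraMap ℤ (AlgebraicClosure ℚ))).map φ.toRingHom =
        P.map (Int.castRingHom Ω) := by
      rw [Polynomial.map_map]
      congr 1
      exact RingHom.ext_int _ _
    rw [hP, ← h2]
    exact (IsAlgClosed.splits (P.map (algebraMap ℤ (AlgebraicClosure ℚ)))).roots_map φ.toRingHom
  rw [num_eq hq E, h1, Multiset.filter_map, Multiset.card_map, weightCount]
  congr 1
  refine Multiset.filter_congr fun y _ => ?_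
  rw [Function.comp_apply]
  exact isWeil_map φ x y

end WChains

theorem kerDim_eq {A W : FN.{u} Ω q} (hA : IsEndOf A W) :
    kerDim A = finrank Ω ↥(cent W.N) := by
  obtain ⟨e, -, hN⟩ := hA
  have h1 : Submodule.map e.toLinearMap (LinearMap.ker A.N) = cent W.N := by
    ext Z
    constructor
    · rintro ⟨z, hz, rfl⟩ v
      have h2 := hN z
      rw [LinearMap.mem_ker.1 hz, map_zero] at h2
      have h3 := congrFun (congrArg DFunLike.coe (sub_eq_zero.1 h2.symm)) v
      exact h3
    · intro hZ
      refine ⟨e.symm Z, ?_, by simp⟩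
      have h2 : A.N (e.symm Z) = 0 := by
        apply e.injective
        rw [hN, map_zero, e.apply_symm_apply, sub_eq_zero]
        exact LinearMap.ext hZ
      exact h2
  rw [kerDim, ← h1]
  exact (LinearEquiv.finrank_map_eq e _).symm

/-- **The conductor of the endomorphisms and weight-monodromy.** -/
theorem conductor_decides (hq : 1 < q) (m : ℕ) {Λ : Type} (Ω : Λ → Type) [∀ l, Field (Ω l)]
    [∀ l, CharZero (Ω l)] [∀ l, IsAlgClosed (Ω l)] (W A : ∀ l, FN.{u} (Ω l) q)
    (hA : ∀ l, IsEndOf (A l) (W l)) (hmix : ∀ l, (W l).IsMixed) (P : ℤ[X]) (hPm : P.Monic)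
    (hP : ∀ l, (W l).F.charpoly = P.map (Int.castRingHom (Ω l))) (hsym : SymmetricWeights q m P) :
    (∀ l, closePairs q P ≤ kerDim (A l)) ∧
      (∀ l, kerDim (A l) = closePairs q P ↔ (W l).IsPure m) ∧
      ((∀ l, kerDim (A l) = closePairs q P) →
        ∃ R : ℤ[X], R.Monic ∧ ∀ l, kerPoly (W l) = R.map (Int.castRingHom (Ω l))) := by
  have hc : ∀ l, ∀ E : WChains (W l),
      ∑ᶠ x : ℤ, E.num x * (E.num x + E.num (x + 1)) = closePairs q P := by
    intro l E
    rw [closePairs]
    refine finsum_congr fun x => ?_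
    rw [E.num_eq_count hq P (hP l), E.num_eq_count hq P (hP l)]
  have h2 : ∀ l, kerDim (A l) = closePairs q P ↔ (W l).IsPure m := by
    intro l
    obtain ⟨E⟩ := exists_wchains hq (hmix l)
    rw [← E.pairs_eq_iff hq (hmix l) m (fun k => by
      rw [E.num_eq_count hq P (hP l), E.num_eq_count hq P (hP l)]; exact hsym k), hc l E,
      kerDim_eq (hA l)]
  refine ⟨fun l => ?_, h2, fun h => ?_⟩
  · obtain ⟨E⟩ := exists_wchains hq (hmix l)
    rw [← hc l E, kerDim_eq (hA l)]
    exact E.pairs_le
  · obtain ⟨R, hRm, -, hrm⟩ := exists_reduced hq hPm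
    refine ⟨R, hRm, fun l => eq_of_rm (LinearMap.charpoly_monic _) (hRm.map _) fun a => ?_⟩
    rw [rm_kerPoly, kmult_of_pure hq ((h2 l).1 (h l)), hrm (Ω l) a, ← hP l, rm_charpoly,
      rm_charpoly]

end Pool.Agent.X305.WM
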