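import Mathlib

/-!
# Homogeneous Jordan chains of a nilpotent operator on a graded space
-/

set_option autoImplicit false

namespace Pool.Agent.X305.WM

open Module

universe u

variable {K : Type} {V : Type u} {ι : Type} [Field K] [AddCommGroup V] [Module K V]

/-- A subspace spanned by its homogeneous elements. -/
def IsHomog (P : ι → Submodule K V) (C : Submodule K V) : Prop := C ≤ ⨆ i, P i ⊓ C

/-- The family `v i`, `N (v i)`, ..., `N ^ (l i - 1) (v i)`. -/
def chainFam (N : End K V) {κ : Type} (v : κ → V) (l : κ → ℕ) : (Σ i, Fin (l i)) → V :=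
  fun x => (N ^ (x.2 : ℕ)) (v x.1)

/-- Homogeneous Jordan chains for `N` on the subspace `C`. -/
structure Chains (N : End K V) (P : ι → Submodule K V) (C : Submodule K V) where
  κ : Type
  [fin : Fintype κ]
  v : κ → V
  a : κ → ι
  l : κ → ℕ
  pos : ∀ i, 0 < l i
  mem : ∀ i, v i ∈ P (a i)
  zero : ∀ i, (N ^ l i) (v i) = 0
  indep : LinearIndependent K (chainFam N v l)
  span : Submodule.span K (Set.range (chainFam N v l)) = C

attribute [instance] Chains.fin

theorem pow_mem {N : End K V} {P : ι → Submodule K V} {τ : ι → ι}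
    (hτ : ∀ i, ∀ v ∈ P i, N v ∈ P (τ i)) (k : ℕ) {i : ι} {v : V} (hv : v ∈ P i) :
    (N ^ k) v ∈ P (τ^[k] i) := by
  induction k with
  | zero => simpa using hv
  | succ k ih =>
    rw [pow_succ', Module.End.mul_apply, Function.iterate_succ_apply']
    exact hτ _ _ ih

/-- The empty system of chains. -/
def Chains.bot (N : End K V) (P : ι → Submodule K V) : Chains N P ⊥ where
  κ := Empty
  v := Empty.elim
  a := Empty.elim
  l := Empty.elim
  pos := fun i => i.elim
  mem := fun i => i.elim
  zero := fun i => i.elim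
  indep := by
    have : IsEmpty (Σ i : Empty, Fin (Empty.elim i)) := ⟨fun x => x.1.elim⟩
    exact linearIndependent_empty_type
  span := by
    have : IsEmpty (Σ i : Empty, Fin (Empty.elim i)) := ⟨fun x => x.1.elim⟩
    rw [Set.range_eq_empty, Submodule.span_empty]

/-- Adding one chain. -/
noncomputable def Chains.cons {N : End K V} {P : ι → Submodule K V} {C' : Submodule K V}
    (D : Chains N P C') (v₀ : V) (a₀ : ι) (L : ℕ) (hL : 0 < L) (hv : v₀ ∈ P a₀)
    (hz : (N ^ L) v₀ = 0)
    (hi : LinearIndependent K (fun k : Fin L => (N ^ (k : ℕ)) v₀))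
    (hd : Disjoint (Submodule.span K (Set.range (fun k : Fin L => (N ^ (k : ℕ)) v₀))) C')
    (C : Submodule K V)
    (hC : Submodule.span K (Set.range (fun k : Fin L => (N ^ (k : ℕ)) v₀)) ⊔ C' = C) :
    Chains N P C := by
  let v : Unit ⊕ D.κ → V := Sum.elim (fun _ => v₀) D.v
  let a : Unit ⊕ D.κ → ι := Sum.elim (fun _ => a₀) D.a
  let l : Unit ⊕ D.κ → ℕ := Sum.elim (fun _ => L) D.l
  let e : (Σ i, Fin (l i)) ≃ Fin L ⊕ (Σ i, Fin (D.l i)) :=
    (Equiv.sumSigmaDistrib (fun i => Fin (l i))).trans
      (Equiv.sumCongr (Equiv.punitProd (Fin L) |>.symm.trans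
        (Equiv.sigmaEquivProd Unit (Fin L)).symm |>.symm) (Equiv.refl _))
  have he : chainFam N v l ∘ e.symm =
      Sum.elim (fun k : Fin L => (N ^ (k : ℕ)) v₀) (chainFam N D.v D.l) := by
    funext x
    rcases x with x | x
    · rfl
    · rfl
  refine
    { κ := Unit ⊕ D.κ
      v := v
      a := a
      l := l
      pos := ?_
      mem := ?_
      zero := ?_
      indep := ?_
      span := ?_ }
  · rintro (i | i)
    · exact hL
    · exact D.pos i
  · rintro (i | i)
    · exact hv
    · exact D.mem i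
  · rintro (i | i)
    · exact hz
    · exact D.zero i
  · rw [← linearIndependent_equiv e.symm, he]
    refine LinearIndependent.sum_type hi D.indep ?_
    rw [D.span]
    exact hd
  · have h1 : Set.range (chainFam N v l) = Set.range (chainFam N v l ∘ e.symm) := by
      rw [EquivLike.range_comp]
    rw [h1, he, Set.Sum.elim_range, Submodule.span_union, D.span, hC]

/-- The triangular system behind the splitting off of a chain of maximal length. -/
theorem indep_of_functional {N : End K V} {v₀ : V} {L : ℕ} (hz : (N ^ L) v₀ = 0)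
    (φ : V →ₗ[K] K) (hφ : φ ((N ^ (L - 1)) v₀) ≠ 0) :
    LinearIndependent K (fun k : Fin L => (LinearMap.pi fun i : Fin L => φ ∘ₗ (N ^ (i : ℕ)) :
      V →ₗ[K] (Fin L → K)) ((N ^ (k : ℕ)) v₀)) := by
  rw [Fintype.linearIndependent_iff]
  intro c hc
  have h1 : ∀ n : ℕ, ∀ k : Fin L, (k : ℕ) = n → c k = 0 := by
    intro n
    induction n using Nat.strong_induction_on with
    | _ n ih =>
      intro k hk
      have h2 := congrFun hc ⟨L - 1 - k, by omega⟩
      simp only [Finset.sum_apply, Pi.smul_apply, LinearMap.pi_apply, LinearMap.comp_apply,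
        smul_eq_mul, Pi.zero_apply] at h2
      rw [Finset.sum_eq_single k] at h2
      · rw [← Module.End.mul_apply, ← pow_add, show L - 1 - (k : ℕ) + k = L - 1 by omega] at h2
        exact (mul_eq_zero.1 h2).resolve_right hφ
      · intro k' _ hne
        rcases lt_or_ge (k' : ℕ) (k : ℕ) with h3 | h3
        · rw [ih k' (by omega) k' rfl, zero_mul]
        · have h4 : (k : ℕ) < k' := lt_of_le_of_ne h3 fun h => hne (Fin.ext h.symm)
          rw [← Module.End.mul_apply, ← pow_add,
            show L - 1 - (k : ℕ) + k' = (L - 1 - k + k' - L) + L by omega, pow_add,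
            Module.End.mul_apply, hz, map_zero, map_zero, mul_zero]
      · intro h
        exact absurd (Finset.mem_univ _) h
  exact fun k => h1 k k rfl

theorem exists_chains_aux [FiniteDimensional K V] {N : End K V} (hN : IsNilpotent N)
    {P : ι → Submodule K V} (hP : iSupIndep P) {τ : ι → ι} (hτi : Function.Injective τ)
    (hτ : ∀ i, ∀ v ∈ P i, N v ∈ P (τ i)) (d : ℕ) :
    ∀ C : Submodule K V, finrank K C = d → IsHomog P C → (∀ x ∈ C, N x ∈ C) →
      Nonempty (Chains N P C) := by
  classical
  induction d using Nat.strong_induction_on with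
  | _ d ih =>
    intro C hd hC hNC
    rcases eq_or_ne C ⊥ with rfl | hne
    · exact ⟨Chains.bot N P⟩
    have hex : ∃ L : ℕ, ∀ x ∈ C, (N ^ L) x = 0 := by
      obtain ⟨L, hL⟩ := hN
      exact ⟨L, fun x _ => by rw [hL]; rfl⟩
    set L := Nat.find hex with hLdef
    have hL := Nat.find_spec hex
    rw [← hLdef] at hL
    have hL0 : 0 < L := by
      rcases Nat.eq_zero_or_pos L with h | h
      · exfalso
        apply hne
        rw [eq_bot_iff]
        intro x hx
        have h1 := hL x hx
        rw [h, pow_zero] at h1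
        exact h1
      · exact h
    have hmin : ¬ ∀ x ∈ C, (N ^ (L - 1)) x = 0 := Nat.find_min hex (by omega)
    -- a homogeneous vector of maximal height
    obtain ⟨a₀, v₀, hv₀, hy⟩ : ∃ a₀ v₀, v₀ ∈ P a₀ ⊓ C ∧ (N ^ (L - 1)) v₀ ≠ 0 := by
      by_contra hcon
      push Not at hcon
      apply hmin
      intro x hx
      have h1 : (⨆ i, P i ⊓ C) ≤ LinearMap.ker (N ^ (L - 1)) :=
        iSup_le fun i v hv => LinearMap.mem_ker.2 (hcon i v hv)
      exact LinearMap.mem_ker.1 (h1 (hC hx))
    set b := τ^[L - 1] a₀ with hb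
    have hyb : (N ^ (L - 1)) v₀ ∈ P b := pow_mem hτ _ hv₀.1
    have hnot : (N ^ (L - 1)) v₀ ∉ ⨆ j, ⨆ (_ : j ≠ b), P j := fun h =>
      hy ((Submodule.disjoint_def.1 (hP b)) _ hyb h)
    obtain ⟨φ, hφ, hker⟩ := Submodule.exists_le_ker_of_notMem hnot
    have hφ0 : ∀ j, j ≠ b → ∀ v ∈ P j, φ v = 0 := fun j hj v hv =>
      LinearMap.mem_ker.1 (hker ((le_iSup₂ (f := fun j (_ : j ≠ b) => P j) j hj) hv))
    have hNk : ∀ k : ℕ, ∀ x ∈ C, (N ^ k) x ∈ C := by
      intro k
      induction k with
      | zero => intro x hx; simpa using hx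
      | succ k ihk => intro x hx; rw [pow_succ', Module.End.mul_apply]; exact hNC _ (ihk x hx)
    let G : V →ₗ[K] (Fin L → K) := LinearMap.pi fun i : Fin L => φ ∘ₗ (N ^ (i : ℕ))
    have hGi : LinearIndependent K (fun k : Fin L => G ((N ^ (k : ℕ)) v₀)) :=
      indep_of_functional (hL v₀ hv₀.2) φ hφ
    have hGt : Submodule.span K (Set.range fun k : Fin L => G ((N ^ (k : ℕ)) v₀)) = ⊤ :=
      hGi.span_eq_top_of_card_eq_finrank' (by simp)
    set B := Submodule.span K (Set.range fun k : Fin L => (N ^ (k : ℕ)) v₀) with hB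
    have hBC : B ≤ C := by
      rw [hB, Submodule.span_le]
      rintro _ ⟨k, rfl⟩
      exact hNk _ _ hv₀.2
    have hGmem : ∀ x, x ∈ LinearMap.ker G ↔ ∀ i < L, φ ((N ^ i) x) = 0 := by
      intro x
      rw [LinearMap.mem_ker]
      constructor
      · intro h i hi
        exact congrFun h ⟨i, hi⟩
      · intro h
        funext i
        exact h i i.2
    set C' := C ⊓ LinearMap.ker G with hC'
    have hlt : C' < C := by
      refine lt_of_le_of_ne inf_le_left fun h => ?_
      have h1 : v₀ ∈ C' := by rw [h]; exact hv₀.2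
      exact hφ ((hGmem _).1 h1.2 (L - 1) (by omega))
    have hdisj : Disjoint B C' := by
      rw [Submodule.disjoint_def]
      intro x hx hx'
      obtain ⟨c, hc⟩ := (Submodule.mem_span_range_iff_exists_fun K).1 hx
      have h1 : ∑ k, c k • G ((N ^ (k : ℕ)) v₀) = 0 := by
        have h2 : G x = 0 := hx'.2
        rw [← hc, map_sum] at h2
        simpa only [map_smul] using h2
      have h3 := Fintype.linearIndependent_iff.1 hGi c h1
      rw [← hc]
      exact Finset.sum_eq_zero fun k _ => by rw [h3 k, zero_smul]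
    have hsup : B ⊔ C' = C := by
      apply le_antisymm (sup_le hBC inf_le_left)
      intro x hx
      have h1 : G x ∈ Submodule.span K (Set.range fun k : Fin L => G ((N ^ (k : ℕ)) v₀)) := by
        rw [hGt]; trivial
      obtain ⟨c, hc⟩ := (Submodule.mem_span_range_iff_exists_fun K).1 h1
      set y := ∑ k : Fin L, c k • (N ^ (k : ℕ)) v₀ with hyd
      have hyB : y ∈ B := (Submodule.mem_span_range_iff_exists_fun K).2 ⟨c, rfl⟩
      have h2 : G (x - y) = 0 := by
        rw [map_sub, hyd, map_sum, sub_eq_zero, ← hc]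
        exact Finset.sum_congr rfl fun k _ => by rw [map_smul]
      have h3 : x = y + (x - y) := by abel
      rw [h3]
      exact Submodule.add_mem_sup hyB ⟨C.sub_mem hx (hBC hyB), h2⟩
    have hNC' : ∀ x ∈ C', N x ∈ C' := by
      intro x hx
      refine ⟨hNC x hx.1, (hGmem _).2 fun i hi => ?_⟩
      rw [← Module.End.mul_apply, ← pow_succ]
      rcases lt_or_ge (i + 1) L with h | h
      · exact (hGmem _).1 hx.2 _ h
      · rw [show i + 1 = L by omega, hL x hx.1, map_zero]
    have hhom : IsHomog P C' := by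
      intro x hx
      have h1 := hC hx.1
      rw [Submodule.mem_iSup_iff_exists_finsupp] at h1
      obtain ⟨f, hf, hfx⟩ := h1
      rw [Submodule.mem_iSup_iff_exists_finsupp]
      refine ⟨f, fun i => ⟨(hf i).1, (hf i).2, (hGmem _).2 fun k hk => ?_⟩, hfx⟩
      by_cases hi : τ^[k] i = b
      · have h2 : φ ((N ^ k) x) = 0 := (hGmem _).1 hx.2 k hk
        rw [← hfx, Finsupp.sum, map_sum, map_sum, Finset.sum_eq_single i] at h2
        · exact h2
        · intro j _ hj
          refine hφ0 (τ^[k] j) (fun h => hj ?_) _ (pow_mem hτ k (hf j).1)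
          exact hτi.iterate k (h.trans hi.symm)
        · intro h
          rw [Finsupp.notMem_support_iff.1 h, map_zero, map_zero]
      · exact hφ0 _ hi _ (pow_mem hτ k (hf i).1)
    obtain ⟨D⟩ := ih (finrank K C') (by rw [← hd]; exact Submodule.finrank_lt_finrank_of_lt hlt)
      C' rfl hhom hNC'
    refine ⟨D.cons v₀ a₀ L hL0 hv₀.1 (hL _ hv₀.2) ?_ hdisj C hsup⟩
    exact LinearIndependent.of_comp G hGi

/-- **Homogeneous Jordan chains exist.** -/
theorem exists_chains [FiniteDimensional K V] {N : End K V} (hN : IsNilpotent N)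
    {P : ι → Submodule K V} (hP : iSupIndep P) (hP' : ⨆ i, P i = ⊤) {τ : ι → ι}
    (hτi : Function.Injective τ) (hτ : ∀ i, ∀ v ∈ P i, N v ∈ P (τ i)) :
    Nonempty (Chains N P ⊤) :=
  exists_chains_aux hN hP hτi hτ _ ⊤ rfl (by rw [IsHomog]; simp [hP']) fun _ _ => trivial

end Pool.Agent.X305.WM
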