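import Pool.Agent.X305.WM.Chain

/-!
# Coordinates with respect to homogeneous Jordan chains
-/

set_option autoImplicit false

namespace Pool.Agent.X305.WM

open Module

universe u

variable {K : Type} {V : Type u} {ι : Type} [Field K] [AddCommGroup V] [Module K V]
  {N : End K V} {P : ι → Submodule K V}

namespace Chains

variable (D : Chains N P ⊤)

/-- The basis of the chains. -/
noncomputable def basis : Basis (Σ i, Fin (D.l i)) K V := Basis.mk D.indep D.span.ge

theorem basis_apply (x : Σ i, Fin (D.l i)) : D.basis x = (N ^ (x.2 : ℕ)) (D.v x.1) := by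
  rw [basis, Basis.mk_apply]; rfl

/-- The degree of a basis vector. -/
def deg (τ : ι → ι) (x : Σ i, Fin (D.l i)) : ι := τ^[(x.2 : ℕ)] (D.a x.1)

variable {D}

theorem basis_mem {τ : ι → ι} (hτ : ∀ i, ∀ v ∈ P i, N v ∈ P (τ i)) (x : Σ i, Fin (D.l i)) :
    D.basis x ∈ P (D.deg τ x) := by
  rw [D.basis_apply]
  exact pow_mem hτ _ (D.mem _)

theorem finiteDimensional (D : Chains N P ⊤) : FiniteDimensional K V :=
  Module.Finite.of_basis D.basis

theorem finrank_eq (D : Chains N P ⊤) : finrank K V = ∑ i, D.l i := by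
  rw [finrank_eq_card_basis D.basis, Fintype.card_sigma]
  simp

/-- The powers of `N` on the basis. -/
theorem pow_basis (k : ℕ) (i : D.κ) (j : Fin (D.l i)) (h : (j : ℕ) + k < D.l i) :
    (N ^ k) (D.basis ⟨i, j⟩) = D.basis ⟨i, ⟨j + k, h⟩⟩ := by
  rw [D.basis_apply, D.basis_apply, ← Module.End.mul_apply, ← pow_add, add_comm k]

theorem pow_basis_zero (k : ℕ) (i : D.κ) (j : Fin (D.l i)) (h : D.l i ≤ (j : ℕ) + k) :
    (N ^ k) (D.basis ⟨i, j⟩) = 0 := by
  rw [D.basis_apply, ← Module.End.mul_apply, ← pow_add,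
    show k + (j : ℕ) = (k + j - D.l i) + D.l i by omega, pow_add, Module.End.mul_apply, D.zero,
    map_zero]

/-- The coordinates of `N ^ k x`. -/
theorem repr_pow (k : ℕ) (x : V) (i : D.κ) (j : Fin (D.l i)) :
    D.basis.repr ((N ^ k) x) ⟨i, j⟩ =
      if k ≤ (j : ℕ) then D.basis.repr x ⟨i, ⟨j - k, lt_of_le_of_lt (Nat.sub_le _ _) j.2⟩⟩
      else 0 := by
  classical
  have h1 : (D.basis.coord ⟨i, j⟩) ∘ₗ (N ^ k) =
      if k ≤ (j : ℕ) then D.basis.coord ⟨i, ⟨j - k, lt_of_le_of_lt (Nat.sub_le _ _) j.2⟩⟩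
      else 0 := by
    refine D.basis.ext fun y => ?_
    obtain ⟨i', j'⟩ := y
    rw [LinearMap.comp_apply]
    rcases lt_or_ge ((j' : ℕ) + k) (D.l i') with h | h
    · rw [pow_basis k i' j' h, Basis.coord_apply, Basis.repr_self]
      by_cases hi : i' = i
      · subst hi
        by_cases hj : (j' : ℕ) + k = j
        · have h2 : k ≤ (j : ℕ) := by omega
          have h3 : (⟨(j' : ℕ) + k, h⟩ : Fin (D.l i')) = j := Fin.ext hj
          have h4 : (⟨(j : ℕ) - k, lt_of_le_of_lt (Nat.sub_le _ _) j.2⟩ : Fin (D.l i')) = j' :=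
            Fin.ext (by simp only; omega)
          rw [if_pos h2, Basis.coord_apply, Basis.repr_self, h3, h4, Finsupp.single_eq_same,
            Finsupp.single_eq_same]
        · rw [Finsupp.single_apply, if_neg]
          · split_ifs with h2
            · rw [Basis.coord_apply, Basis.repr_self, Finsupp.single_apply, if_neg]
              intro h3
              have h4 := (Sigma.mk.inj_iff.1 h3).2
              rw [heq_eq_eq] at h4
              have h5 := congrArg Fin.val h4
              simp only at h5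
              omega
            · rfl
          · intro h3
            have h4 := (Sigma.mk.inj_iff.1 h3).2
            rw [heq_eq_eq] at h4
            have h5 := congrArg Fin.val h4
            simp only at h5
            omega
      · rw [Finsupp.single_apply, if_neg fun h3 => hi (Sigma.mk.inj_iff.1 h3).1]
        split_ifs with h2
        · rw [Basis.coord_apply, Basis.repr_self, Finsupp.single_apply,
            if_neg fun h3 => hi (Sigma.mk.inj_iff.1 h3).1]
        · rfl
    · rw [pow_basis_zero k i' j' h, map_zero]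
      split_ifs with h2
      · rw [Basis.coord_apply, Basis.repr_self, Finsupp.single_apply, if_neg]
        intro h3
        have hi := (Sigma.mk.inj_iff.1 h3).1
        subst hi
        have h4 := (Sigma.mk.inj_iff.1 h3).2
        rw [heq_eq_eq] at h4
        have h5 := congrArg Fin.val h4
        simp only at h5
        have := j.2
        omega
      · rfl
  have h2 := LinearMap.congr_fun h1 x
  rw [LinearMap.comp_apply, Basis.coord_apply] at h2
  rw [h2]
  split_ifs
  · rw [Basis.coord_apply]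
  · rfl

/-- The sum of the `P i`, `i ∈ S`, in coordinates. -/
theorem mem_iSup_iff (hP : iSupIndep P) {τ : ι → ι} (hτ : ∀ i, ∀ v ∈ P i, N v ∈ P (τ i))
    (S : Set ι) (x : V) :
    x ∈ ⨆ i ∈ S, P i ↔ ∀ y, D.basis.repr x y ≠ 0 → D.deg τ y ∈ S := by
  classical
  have key : ∀ T : Set ι, ∀ x : V, (∀ y, D.basis.repr x y ≠ 0 → D.deg τ y ∈ T) →
      x ∈ ⨆ i ∈ T, P i := by
    intro T x h
    rw [← D.basis.sum_repr x]
    refine Submodule.sum_mem _ fun y _ => ?_
    by_cases h0 : D.basis.repr x y = 0
    · rw [h0, zero_smul]; exact Submodule.zero_mem _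
    · exact Submodule.smul_mem _ _ ((le_iSup₂ (f := fun i (_ : i ∈ T) => P i) _ (h y h0))
        (basis_mem hτ y))
  refine ⟨fun hx y hy => ?_, key S x⟩
  by_contra hyS
  -- split `x` into the part with degrees in `S` and the rest
  let x₁ : V := ∑ z : (Σ i, Fin (D.l i)), if D.deg τ z ∈ S then D.basis.repr x z • D.basis z else 0
  let x₂ : V := ∑ z : (Σ i, Fin (D.l i)), if D.deg τ z ∈ S then 0 else D.basis.repr x z • D.basis z
  have hx12 : x = x₁ + x₂ := by
    rw [← Finset.sum_add_distrib]
    conv_lhs => rw [← D.basis.sum_repr x]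
    refine Finset.sum_congr rfl fun z _ => ?_
    split_ifs <;> simp
  have h1 : x₁ ∈ ⨆ i ∈ S, P i := by
    refine Submodule.sum_mem _ fun z _ => ?_
    split_ifs with h
    · exact Submodule.smul_mem _ _ ((le_iSup₂ (f := fun i (_ : i ∈ S) => P i) _ h)
        (basis_mem hτ z))
    · exact Submodule.zero_mem _
  have h2 : x₂ ∈ ⨆ i ∈ Sᶜ, P i := by
    refine Submodule.sum_mem _ fun z _ => ?_
    split_ifs with h
    · exact Submodule.zero_mem _
    · exact Submodule.smul_mem _ _ ((le_iSup₂ (f := fun i (_ : i ∈ Sᶜ) => P i) _ h)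
        (basis_mem hτ z))
  have h3 : x₂ ∈ ⨆ i ∈ S, P i := by
    have : x₂ = x - x₁ := by rw [hx12]; abel
    rw [this]
    exact Submodule.sub_mem _ hx h1
  have h4 : Disjoint (⨆ i ∈ S, P i) (⨆ i ∈ Sᶜ, P i) :=
    hP.disjoint_biSup_biSup (disjoint_compl_right)
  have h5 : x₂ = 0 := Submodule.disjoint_def.1 h4 _ h3 h2
  have h6 : D.basis.repr x₂ y = D.basis.repr x y := by
    rw [map_sum, Finsupp.finset_sum_apply, Finset.sum_eq_single y]
    · rw [if_neg hyS, map_smul, Basis.repr_self, Finsupp.smul_apply, Finsupp.single_eq_same,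
        smul_eq_mul, mul_one]
    · intro z _ hz
      split_ifs with h
      · rw [map_zero]; rfl
      · rw [map_smul, Basis.repr_self, Finsupp.smul_apply, Finsupp.single_apply, if_neg hz,
          smul_zero]
    · intro h
      exact absurd (Finset.mem_univ _) h
  rw [h5, map_zero] at h6
  exact hy h6.symm

theorem mem_iff (hP : iSupIndep P) {τ : ι → ι} (hτ : ∀ i, ∀ v ∈ P i, N v ∈ P (τ i))
    (a : ι) (x : V) : x ∈ P a ↔ ∀ y, D.basis.repr x y ≠ 0 → D.deg τ y = a := by
  have h := D.mem_iSup_iff hP hτ {a} x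
  simpa using h

/-- The dimension of the sum of the `P i`, `i ∈ S`. -/
theorem finrank_iSup (hP : iSupIndep P) {τ : ι → ι} (hτ : ∀ i, ∀ v ∈ P i, N v ∈ P (τ i))
    (S : Set ι) [DecidablePred fun y => D.deg τ y ∈ S] :
    finrank K ↥(⨆ i ∈ S, P i) = (Finset.univ.filter fun y => D.deg τ y ∈ S).card := by
  classical
  have h1 : (⨆ i ∈ S, P i) = Submodule.span K (Set.range fun y : {y // D.deg τ y ∈ S} =>
      D.basis y) := by
    apply le_antisymm
    · intro x hx
      rw [D.mem_iSup_iff hP hτ] at hx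
      rw [← D.basis.sum_repr x]
      refine Submodule.sum_mem _ fun y _ => ?_
      by_cases h0 : D.basis.repr x y = 0
      · rw [h0, zero_smul]; exact Submodule.zero_mem _
      · exact Submodule.smul_mem _ _ (Submodule.subset_span ⟨⟨y, hx y h0⟩, rfl⟩)
    · rw [Submodule.span_le]
      rintro _ ⟨y, rfl⟩
      exact (le_iSup₂ (f := fun i (_ : i ∈ S) => P i) _ y.2) (basis_mem hτ y.1)
  have h2 : LinearIndependent K (fun y : {y // D.deg τ y ∈ S} => D.basis y) :=
    D.basis.linearIndependent.comp _ Subtype.val_injective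
  rw [h1, finrank_span_eq_card h2, Fintype.card_subtype]

theorem finrank_eq_card (hP : iSupIndep P) {τ : ι → ι} (hτ : ∀ i, ∀ v ∈ P i, N v ∈ P (τ i))
    [DecidableEq ι] (a : ι) :
    finrank K ↥(P a) = (Finset.univ.filter fun y => D.deg τ y = a).card := by
  have h := D.finrank_iSup hP hτ {a}
  have h2 : (⨆ i ∈ ({a} : Set ι), P i) = P a := by simp
  rw [h2] at h
  exact h

/-- The rank of `N ^ k`. -/
theorem finrank_range_pow (k : ℕ) :
    finrank K ↥(LinearMap.range (N ^ k)) =
      (Finset.univ.filter fun y : (Σ i, Fin (D.l i)) => (y.2 : ℕ) + k < D.l y.1).card := by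
  classical
  let f : {y : (Σ i, Fin (D.l i)) // (y.2 : ℕ) + k < D.l y.1} → (Σ i, Fin (D.l i)) :=
    fun y => ⟨y.1.1, ⟨y.1.2 + k, y.2⟩⟩
  have hf : Function.Injective f := by
    rintro ⟨⟨i, j⟩, h⟩ ⟨⟨i', j'⟩, h'⟩ hh
    have hi := (Sigma.mk.inj_iff.1 hh).1
    simp only at hi
    subst hi
    have h4 := (Sigma.mk.inj_iff.1 hh).2
    rw [heq_eq_eq] at h4
    have h5 := congrArg Fin.val h4
    simp only at h5
    apply Subtype.ext
    simp only
    congr 1
    exact Fin.ext (by omega)
  have h1 : LinearMap.range (N ^ k) = Submodule.span K (Set.range fun y => D.basis (f y)) := by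
    apply le_antisymm
    · rintro _ ⟨x, rfl⟩
      rw [← D.basis.sum_repr x, map_sum]
      refine Submodule.sum_mem _ fun y _ => ?_
      rw [map_smul]
      refine Submodule.smul_mem _ _ ?_
      rcases lt_or_ge ((y.2 : ℕ) + k) (D.l y.1) with h | h
      · exact Submodule.subset_span ⟨⟨y, h⟩, (pow_basis k y.1 y.2 h).symm⟩
      · have h2 : (N ^ k) (D.basis y) = 0 := pow_basis_zero k y.1 y.2 h
        rw [h2]; exact Submodule.zero_mem _
    · rw [Submodule.span_le]
      rintro _ ⟨y, rfl⟩
      exact ⟨D.basis y.1, pow_basis k y.1.1 y.1.2 y.2⟩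
  have h2 : LinearIndependent K (fun y => D.basis (f y)) := D.basis.linearIndependent.comp f hf
  rw [h1, finrank_span_eq_card h2, Fintype.card_subtype]

end Chains

end Pool.Agent.X305.WM
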