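import Pool.Agent.X268.WM.Stm

/-!
# Frobenius lifts and parts of weight at least or above `m`
-/

set_option autoImplicit false

namespace Pool.Agent.X305.WM

open Module Pool.Agent.X268.WM

universe u

/-- The operator `exp (s N)` for a nilpotent operator `N`. -/
noncomputable def expN {K : Type} {V : Type u} [Field K] [AddCommGroup V] [Module K V] (s : K)
    (N : End K V) : End K V :=
  ∑ k ∈ Finset.range (nilpotencyClass N), (s ^ k / (k.factorial : K)) • N ^ k

/-- The action `exp (u N) F` of the lift `σ g` of Frobenius; here `g` is the lift which acts as `F`, and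
`σ` an element of the inertia group which acts as `exp (u N)`, `u = t_ℓ (σ)`. -/
noncomputable def lift {Ω : Type} [Field Ω] {q : ℕ} (W : FN.{u} Ω q) (c : Ω) : End Ω W.V :=
  expN c W.N * W.F

/-- The sum of the generalized eigenspaces of `G` for the eigenvalues which are `q`-Weil numbers of
weights `> m`. -/
noncomputable def above {Ω : Type} [Field Ω] [CharZero Ω] (q : ℕ) {V : Type u} [AddCommGroup V]
    [Module Ω V] (G : End Ω V) (m : ℤ) : Submodule Ω V :=
  ⨆ a ∈ {a : Ω | ∃ w : ℤ, m < w ∧ IsWeil q w a}, G.maxGenEigenspace a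

/-- The sum of the generalized eigenspaces of `G` for the eigenvalues which are `q`-Weil numbers of
weights `≥ m`. -/
noncomputable def atLeast {Ω : Type} [Field Ω] [CharZero Ω] (q : ℕ) {V : Type u} [AddCommGroup V]
    [Module Ω V] (G : End Ω V) (m : ℤ) : Submodule Ω V :=
  ⨆ a ∈ {a : Ω | ∃ w : ℤ, m ≤ w ∧ IsWeil q w a}, G.maxGenEigenspace a

end Pool.Agent.X305.WM
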