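import Pool.Agent.X305.WM.Pure
import Pool.Agent.X268.EV.Stm

/-!
# Frobenius on the inertia invariants
-/

set_option autoImplicit false

namespace Pool.Agent.X305.WM

open Module Polynomial Pool.Agent.X268.WM Pool.Agent.X268.EV

universe u

variable {Ω : Type} [Field Ω] [CharZero Ω] {q : ℕ}

/-- `F` maps the kernel of `N` to itself. -/
theorem F_ker (W : FN.{u} Ω q) : ∀ x ∈ LinearMap.ker W.N, W.F x ∈ LinearMap.ker W.N := by
  intro x hx
  rw [LinearMap.mem_ker] at hx ⊢
  rw [W.comm, hx, map_zero, smul_zero]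

theorem F_injective (hq : 1 < q) {W : FN.{u} Ω q} (hmix : W.IsMixed) : Function.Injective W.F := by
  rw [injective_iff_map_eq_zero]
  intro x hx
  by_contra hne
  obtain ⟨w, hw⟩ := hmix 0 (Module.End.hasEigenvalue_of_hasEigenvector
    (Module.End.hasEigenvector_iff.2 ⟨Module.End.mem_eigenspace_iff.2 (by rw [hx, zero_smul]), hne⟩))
  exact hw.ne_zero (by omega) rfl

/-- The adjoint of `F - a'`. -/
theorem adjoint_pow {W : FN.{u} Ω q} {n : ℕ} {B : W.V →ₗ[Ω] W.V →ₗ[Ω] Ω}
    (hF : ∀ x y, B (W.F x) (W.F y) = (q : Ω) ^ n * B x y) (a' : Ω) (K : ℕ) (z x : W.V) :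
    B (((W.F - a' • (1 : End Ω W.V)) ^ K) z) ((W.F ^ K) x) =
      B z ((((q : Ω) ^ n • (1 : End Ω W.V) - a' • W.F) ^ K) x) := by
  induction K generalizing x z with
  | zero => simp
  | succ K ih =>
    rw [pow_succ' (W.F - a' • (1 : End Ω W.V)), Module.End.mul_apply, pow_succ' W.F,
      Module.End.mul_apply]
    set z' := ((W.F - a' • (1 : End Ω W.V)) ^ K) z with hz'
    set x' := (W.F ^ K) x with hx'
    have h1 : B ((W.F - a' • (1 : End Ω W.V)) z') (W.F x') =
        B z' (((q : Ω) ^ n • (1 : End Ω W.V) - a' • W.F) x') := by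
      rw [LinearMap.sub_apply, LinearMap.smul_apply, Module.End.one_apply, LinearMap.sub_apply,
        LinearMap.smul_apply, LinearMap.smul_apply, Module.End.one_apply, map_sub, map_smul,
        LinearMap.sub_apply, LinearMap.smul_apply, hF, map_sub, map_smul, map_smul, smul_eq_mul,
        smul_eq_mul]
    rw [h1]
    have hcomm : Commute ((q : Ω) ^ n • (1 : End Ω W.V) - a' • W.F) (W.F ^ K) := by
      refine Commute.sub_left ?_ ?_
      · exact (Commute.one_left _).smul_left _
      · exact ((Commute.refl W.F).pow_right K).smul_left _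
    have h2 : ((q : Ω) ^ n • (1 : End Ω W.V) - a' • W.F) x' =
        (W.F ^ K) (((q : Ω) ^ n • (1 : End Ω W.V) - a' • W.F) x) := by
      rw [hx', ← Module.End.mul_apply, hcomm.eq, Module.End.mul_apply]
    rw [h2, hz', ih, ← Module.End.mul_apply, ← pow_succ]

/-- If `N` is injective on the dual part, it is surjective. -/
theorem surj_of_dual [IsAlgClosed Ω] (hq : 1 < q) {W : FN.{u} Ω q} (hmix : W.IsMixed) {n : ℕ}
    (hB : SelfDual W n) {a : Ω} (ha : a ≠ 0)
    (h : ∀ z ∈ gen W ((q : Ω) ^ (n + 1) / a), W.N z = 0 → z = 0) :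
    ∀ y ∈ gen W (a / q), ∃ x ∈ gen W a, W.N x = y := by
  have hq0 : (q : Ω) ≠ 0 := by exact_mod_cast (by omega : q ≠ 0)
  obtain ⟨B, hnd, hF, hN⟩ := hB
  intro y hy
  by_contra hcon
  set U : Submodule Ω W.V := (gen W a).map W.N ⊔ ⨆ b, ⨆ (_ : b ≠ a / q), gen W b with hU
  have hyU : y ∉ U := by
    intro hyU
    obtain ⟨u, hu, v, hv, huv⟩ := Submodule.mem_sup.1 hyU
    obtain ⟨x, hx, rfl⟩ := hu
    have h1 : W.N x ∈ gen W (a / q) := gen_shift hq W a x hx
    have h2 : v ∈ gen W (a / q) := by
      have : v = y - W.N x := by rw [← huv]; abel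
      rw [this]
      exact Submodule.sub_mem _ hy h1
    have h3 : v = 0 := Submodule.disjoint_def.1 (gen_indep W (a / q)) v h2 hv
    rw [h3, add_zero] at huv
    exact hcon ⟨x, hx, huv⟩
  obtain ⟨ψ, hψy, hψU⟩ := Submodule.exists_le_ker_of_notMem hyU
  have hinj : Function.Injective B := by
    rw [injective_iff_map_eq_zero]
    intro x hx
    exact hnd x fun y => by rw [hx]; rfl
  have hsur : Function.Surjective B := by
    refine (LinearMap.injective_iff_surjective_of_finrank_eq_finrank (f := B) ?_).1 hinj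
    exact (Subspace.dual_finrank_eq).symm
  obtain ⟨z, hz⟩ := hsur ψ
  have hz0 : z ≠ 0 := by
    rintro rfl
    rw [map_zero] at hz
    exact hψy (by rw [← hz]; rfl)
  have hzN : W.N z = 0 := by
    refine hnd _ fun x => ?_
    rw [hN, neg_eq_zero, hz]
    have h1 : ∀ x ∈ ⨆ b, gen W b, ψ (W.N x) = 0 := by
      intro x hx
      have h2 : (⨆ b, gen W b) ≤ (LinearMap.ker ψ).comap W.N := by
        refine iSup_le fun b v hv => ?_
        rw [Submodule.mem_comap]
        apply hψU
        by_cases hb : b = a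
        · subst hb
          exact Submodule.mem_sup_left ⟨v, hv, rfl⟩
        · refine Submodule.mem_sup_right (Submodule.mem_iSup_of_mem (b / q)
            (Submodule.mem_iSup_of_mem ?_ (gen_shift hq W b v hv)))
          intro h
          apply hb
          field_simp at h
          exact h
      exact h2 hx
    exact h1 x (by rw [Module.End.iSup_maxGenEigenspace_eq_top]; trivial)
  have hzg : z ∈ gen W ((q : Ω) ^ (n + 1) / a) := by
    rw [Module.End.mem_maxGenEigenspace]
    set a' := (q : Ω) ^ (n + 1) / a with ha'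
    have ha'0 : a' ≠ 0 := div_ne_zero (pow_ne_zero _ hq0) ha
    obtain ⟨K, hK⟩ : ∃ K : ℕ, ∀ x ∈ gen W (a / q), ((W.F - (a / q) • (1 : End Ω W.V)) ^ K) x = 0 := by
      refine ⟨finrank Ω W.V, fun x hx => ?_⟩
      have h1 := Module.End.maxGenEigenspace_eq_genEigenspace_finrank W.F (a / q)
      rw [gen, h1, Module.End.mem_genEigenspace_nat] at hx
      exact hx
    refine ⟨K, hnd _ fun x => ?_⟩
    have hFs : Function.Surjective (W.F ^ K) := by
      have h1 : Function.Surjective W.F :=
        LinearMap.injective_iff_surjective.1 (F_injective hq hmix)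
      rw [Module.End.coe_pow]
      exact h1.iterate K
    obtain ⟨x, rfl⟩ := hFs x
    rw [adjoint_pow hF, hz]
    have h1 : ∀ x ∈ ⨆ b, gen W b, ψ ((((q : Ω) ^ n • (1 : End Ω W.V) - a' • W.F) ^ K) x) = 0 := by
      intro x hx
      have h2 : (⨆ b, gen W b) ≤ (LinearMap.ker ψ).comap
          (((q : Ω) ^ n • (1 : End Ω W.V) - a' • W.F) ^ K) := by
        refine iSup_le fun b v hv => ?_
        rw [Submodule.mem_comap]
        by_cases hb : b = a / q
        · subst hb
          have h3 : (q : Ω) ^ n • (1 : End Ω W.V) - a' • W.F =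
              (-a') • (W.F - (a / q) • (1 : End Ω W.V)) := by
            rw [smul_sub, smul_smul, neg_smul, neg_mul, neg_smul, sub_neg_eq_add, neg_add_eq_sub]
            congr 2
            rw [ha', pow_succ]
            field_simp
          rw [h3, _root_.smul_pow, LinearMap.smul_apply, hK v hv, smul_zero]
          exact Submodule.zero_mem _
        · apply hψU
          refine Submodule.mem_sup_right (Submodule.mem_iSup_of_mem b
            (Submodule.mem_iSup_of_mem hb ?_))
          have h4 : ∀ (k : ℕ), ∀ v ∈ gen W b,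
              (((q : Ω) ^ n • (1 : End Ω W.V) - a' • W.F) ^ k) v ∈ gen W b := by
            intro k
            induction k with
            | zero => intro v hv; simpa using hv
            | succ k ih =>
              intro v hv
              rw [pow_succ', Module.End.mul_apply, LinearMap.sub_apply, LinearMap.smul_apply,
                LinearMap.smul_apply, Module.End.one_apply]
              refine Submodule.sub_mem _ (Submodule.smul_mem _ _ (ih v hv))
                (Submodule.smul_mem _ _ ?_)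
              exact Module.End.mapsTo_maxGenEigenspace_of_comm (Commute.refl W.F) b (ih v hv)
          exact h4 K v hv
      exact h2 hx
    exact h1 x (by rw [Module.End.iSup_maxGenEigenspace_eq_top]; trivial)
  exact hz0 (h z hzg hzN)

/-- The map `N` between generalized eigenspaces. -/
noncomputable def Na (hq : 1 < q) (W : FN.{u} Ω q) (a : Ω) : gen W a →ₗ[Ω] gen W (a / q) :=
  W.N.restrict fun v hv => gen_shift hq W a v hv

theorem finrank_ker_Na (hq : 1 < q) (W : FN.{u} Ω q) (a : Ω) :
    finrank Ω ↥(LinearMap.ker (Na hq W a)) = finrank Ω ↥(LinearMap.ker W.N ⊓ gen W a) := by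
  have h1 : (LinearMap.ker (Na hq W a)).map (gen W a).subtype = LinearMap.ker W.N ⊓ gen W a := by
    ext x
    constructor
    · rintro ⟨y, hy, rfl⟩
      refine ⟨?_, y.2⟩
      have h2 : Na hq W a y = 0 := hy
      rw [SetLike.mem_coe, LinearMap.mem_ker]
      exact congrArg Subtype.val h2
    · rintro ⟨hx1, hx2⟩
      exact ⟨⟨x, hx2⟩, Subtype.ext (LinearMap.mem_ker.1 hx1), rfl⟩
  rw [← h1]
  exact (LinearEquiv.finrank_eq (Submodule.equivMapOfInjective _ (Submodule.injective_subtype _) _))

/-- The multiplicity of `a` as an eigenvalue of `F` on the kernel of `N`. -/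
noncomputable def kmult (W : FN.{u} Ω q) (a : Ω) : ℕ := finrank Ω ↥(LinearMap.ker W.N ⊓ gen W a)

theorem le_kmult (hq : 1 < q) (W : FN.{u} Ω q) (a : Ω) : W.mult a - W.mult (a / q) ≤ kmult W a := by
  have h1 := LinearMap.finrank_range_add_finrank_ker (Na hq W a)
  rw [finrank_ker_Na] at h1
  have h2 := Submodule.finrank_le (LinearMap.range (Na hq W a))
  rw [kmult]
  change _ = W.mult a at h1
  change _ ≤ W.mult (a / q) at h2
  omega

theorem kmult_of_inj (hq : 1 < q) (W : FN.{u} Ω q) (a : Ω)
    (h : ∀ v ∈ gen W a, W.N v = 0 → v = 0) : kmult W a = 0 ∧ W.mult a - W.mult (a / q) = 0 := by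
  have h1 : kmult W a = 0 := by
    rw [kmult]
    have h2 : LinearMap.ker W.N ⊓ gen W a = ⊥ := by
      rw [eq_bot_iff]
      rintro x ⟨hx1, hx2⟩
      exact h x hx2 (LinearMap.mem_ker.1 hx1)
    rw [h2, finrank_bot]
  exact ⟨h1, Nat.le_zero.1 (h1 ▸ le_kmult hq W a)⟩

theorem kmult_of_surj (hq : 1 < q) (W : FN.{u} Ω q) (a : Ω)
    (h : ∀ y ∈ gen W (a / q), ∃ x ∈ gen W a, W.N x = y) :
    kmult W a = W.mult a - W.mult (a / q) := by
  have h1 := LinearMap.finrank_range_add_finrank_ker (Na hq W a)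
  rw [finrank_ker_Na] at h1
  have h2 : LinearMap.range (Na hq W a) = ⊤ := by
    rw [LinearMap.range_eq_top]
    rintro ⟨y, hy⟩
    obtain ⟨x, hx, hxy⟩ := h y hy
    exact ⟨⟨x, hx⟩, Subtype.ext hxy⟩
  rw [h2, finrank_top] at h1
  rw [kmult]
  change W.mult (a / q) + _ = W.mult a at h1
  omega

/-- If the invariants have weights `≤ n`, their multiplicities are determined by those of `F`. -/
theorem kmult_eq [IsAlgClosed Ω] (hq : 1 < q) {W : FN.{u} Ω q} (hmix : W.IsMixed) {n : ℕ}
    (hB : SelfDual W n)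
    (hw : ∀ (a : Ω) (w : ℤ), IsWeil q w a → (n : ℤ) < w → kmult W a = 0) (a : Ω) :
    kmult W a = W.mult a - W.mult (a / q) := by
  have hq0 : (q : Ω) ≠ 0 := by exact_mod_cast (by omega : q ≠ 0)
  have hinj : ∀ (a : Ω) (w : ℤ), IsWeil q w a → (n : ℤ) < w → ∀ v ∈ gen W a, W.N v = 0 → v = 0 := by
    intro a w ha hnw v hv h0
    have h1 := hw a w ha hnw
    rw [kmult, Submodule.finrank_eq_zero] at h1
    have h2 : v ∈ LinearMap.ker W.N ⊓ gen W a := ⟨h0, hv⟩
    rw [h1] at h2
    exact h2
  by_cases hex : ∃ w, IsWeil q w a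
  · obtain ⟨w, ha⟩ := hex
    rcases lt_or_ge (n : ℤ) w with hlt | hge
    · obtain ⟨h1, h2⟩ := kmult_of_inj hq W a (hinj a w ha hlt)
      rw [h1, h2]
    · have ha0 := ha.ne_zero (by omega : 0 < q)
      refine kmult_of_surj hq W a (surj_of_dual hq hmix hB ha0 ?_)
      have h1 := (ha.conj (by omega : 0 < q)).scale (by omega : 0 < q) (n + 1 - w)
      have h2 : (q : Ω) ^ w / a * (q : Ω) ^ ((n : ℤ) + 1 - w) = (q : Ω) ^ (n + 1) / a := by
        rw [div_mul_eq_mul_div, ← zpow_add₀ hq0]
        congr 1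
        rw [show w + ((n : ℤ) + 1 - w) = ((n + 1 : ℕ) : ℤ) by push_cast; ring, zpow_natCast]
      rw [h2] at h1
      exact hinj _ _ h1 (by omega)
  · have h0 : gen W a = ⊥ := by
      rw [eq_bot_iff]
      intro v hv
      by_contra hne
      exact hex (exists_weight_of_mem hmix hv hne)
    rw [kmult, FN.mult]
    change finrank Ω ↥(LinearMap.ker W.N ⊓ gen W a) = finrank Ω ↥(gen W a) - _
    rw [h0]
    simp

end Pool.Agent.X305.WM
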