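import Pool.Agent.X305.WM.EulerPoly

/-!
# Weights of the inertia invariants and independence of `ℓ` of Euler factors
-/

set_option autoImplicit false

namespace Pool.Agent.X305.WM

open Module Polynomial Pool.Agent.X268.WM Pool.Agent.X268.EV

universe u

variable {Ω : Type} [Field Ω] [CharZero Ω] {q : ℕ}

/-- The eigenvalues of Frobenius on the kernel of `N` have weights `≤ i`: no nonzero eigenvector `x` with
`N x = 0` has an eigenvalue of a weight `> i`. -/
def InvariantsBounded (W : FN.{u} Ω q) (i : ℕ) : Prop :=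
  ∀ (a : Ω) (w : ℤ), IsWeil q w a → (i : ℤ) < w → ∀ x : W.V, W.N x = 0 → W.F x = a • x → x = 0

theorem kmult_of_bounded {W : FN.{u} Ω q} {i : ℕ} (h : InvariantsBounded W i) {a : Ω} {w : ℤ}
    (ha : IsWeil q w a) (hw : (i : ℤ) < w) : kmult W a = 0 := by
  rw [kmult, Submodule.finrank_eq_zero, eq_bot_iff]
  rintro x ⟨hx1, hx2⟩
  by_contra hne
  obtain ⟨u, hu0, hFu, hNu⟩ := exists_eigenvector (k := 1) hx2 hne (by
    rw [pow_one]; exact LinearMap.mem_ker.1 hx1)
  exact hu0 (h a w ha hw u (by rwa [pow_one] at hNu) hFu)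

theorem bounded_of_isPure {W : FN.{u} Ω q} {i : ℕ} (hp : W.IsPure i) :
    InvariantsBounded W i := by
  intro a w ha hw x hN hF
  obtain ⟨k, hk⟩ : ∃ k : ℕ, (k : ℤ) = w - i := ⟨(w - i).toNat, Int.toNat_of_nonneg (by omega)⟩
  have hk0 : k ≠ 0 := by omega
  refine (hp.2 k a (by convert ha using 1; omega)).1 x ?_ ?_
  · exact (Module.End.mem_maxGenEigenspace _ _ _).2 ⟨1, by
      rw [pow_one, LinearMap.sub_apply, LinearMap.smul_apply, Module.End.one_apply, hF, sub_self]⟩
  · obtain ⟨j, rfl⟩ := Nat.exists_eq_succ_of_ne_zero hk0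
    rw [Nat.succ_eq_add_one, pow_succ, Module.End.mul_apply, hN, map_zero]

/-- **Weights of the inertia invariants and independence of `ℓ`.** -/
theorem euler_factors (hq : 1 < q) (i : ℕ) {Λ : Type} (Ω : Λ → Type) [∀ l, Field (Ω l)]
    [∀ l, CharZero (Ω l)] [∀ l, IsAlgClosed (Ω l)] (W : ∀ l, FN.{u} (Ω l) q) (P : ℤ[X])
    (hP : ∀ l, (W l).F.charpoly = P.map (Int.castRingHom (Ω l))) (hPm : P.Monic)
    (hmix : ∀ l, (W l).IsMixed) (hdual : ∀ l, SelfDual (W l) i) :
    ∃ R : ℤ[X], R.Monic ∧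
      Associated (R.map (Int.castRingHom ℚ)) (reducedPoly q (P.map (Int.castRingHom ℚ))) ∧
      (∀ l, R.map (Int.castRingHom (Ω l)) ∣ kerPoly (W l)) ∧
      (∀ l, InvariantsBounded (W l) i → kerPoly (W l) = R.map (Int.castRingHom (Ω l))) ∧
      (∀ l, kerPoly (W l) = R.map (Int.castRingHom (Ω l)) ↔
        finrank (Ω l) ↥(LinearMap.ker (W l).N) = R.natDegree) ∧
      ∀ l, (W l).IsPure i → InvariantsBounded (W l) i := by
  obtain ⟨R, hRm, hR, hrm⟩ := exists_reduced hq hPm
  have hmon : ∀ l, (kerPoly (W l)).Monic := fun l => LinearMap.charpoly_monic _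
  have h1 : ∀ l a, rootMultiplicity a (R.map (Int.castRingHom (Ω l))) =
      (W l).mult a - (W l).mult (a / q) := by
    intro l a
    rw [hrm (Ω l) a, ← hP l, rm_charpoly, rm_charpoly]
  have hdvd : ∀ l, R.map (Int.castRingHom (Ω l)) ∣ kerPoly (W l) := by
    intro l
    refine dvd_of_rm (hRm.map _).ne_zero fun a => ?_
    rw [h1, rm_kerPoly]
    exact le_kmult hq (W l) a
  refine ⟨R, hRm, hR, hdvd, fun l hb => ?_, fun l => ?_, fun l hp => bounded_of_isPure hp⟩
  · refine eq_of_rm (hmon l) (hRm.map _) fun a => ?_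
    rw [h1, rm_kerPoly]
    exact kmult_eq hq (hmix l) (hdual l) (fun a w ha hw => kmult_of_bounded hb ha hw) a
  · have hd : (kerPoly (W l)).natDegree = finrank (Ω l) ↥(LinearMap.ker (W l).N) := by
      rw [kerPoly, LinearMap.charpoly_natDegree]
    have hd' : (R.map (Int.castRingHom (Ω l))).natDegree = R.natDegree := hRm.natDegree_map _
    constructor
    · intro h
      rw [← hd, h, hd']
    · intro h
      refine (eq_of_monic_of_dvd_of_natDegree_le (hRm.map _) (hmon l) (hdvd l) ?_)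
      rw [hd, h, hd']

end Pool.Agent.X305.WM
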