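import Pool.Agent.X305.WM.Coord
import Pool.Agent.X305.WM.Defs

/-!
# The unipotent operators `exp (s N)` and polynomials
-/

set_option autoImplicit false

namespace Pool.Agent.X305.WM

open Module Polynomial

universe u

variable {K : Type} {V : Type u} {ι : Type} [Field K] [AddCommGroup V] [Module K V]

theorem expN_eq {N : End K V} (s : K) {M : ℕ} (hM : N ^ M = 0) :
    expN s N = ∑ k ∈ Finset.range M, (s ^ k / (k.factorial : K)) • N ^ k := by
  have h1 : nilpotencyClass N ≤ M := Nat.sInf_le hM
  rw [expN]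
  refine Finset.sum_subset (Finset.range_mono h1) fun k _ hk => ?_
  rw [Finset.mem_range, not_lt] at hk
  rw [pow_eq_zero_of_le hk (pow_nilpotencyClass (⟨M, hM⟩ : IsNilpotent N)), smul_zero]

/-- Taylor's formula. -/
theorem taylor_eq_sum [CharZero K] (s : K) (f : K[X]) {M : ℕ} (hM : f.natDegree < M) :
    taylor s f = ∑ k ∈ Finset.range M, (s ^ k / (k.factorial : K)) • derivative^[k] f := by
  have key : ∀ (n : ℕ) (r : K), n < M → taylor s (monomial n r) =
      ∑ k ∈ Finset.range M, (s ^ k / (k.factorial : K)) • derivative^[k] (monomial n r) := by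
    intro n r hn
    rw [taylor_monomial, add_comm X, add_pow, Finset.mul_sum]
    have h1 : Finset.range (n + 1) ⊆ Finset.range M := Finset.range_mono (by omega)
    rw [← Finset.sum_subset h1]
    · refine Finset.sum_congr rfl fun k hk => ?_
      rw [Finset.mem_range] at hk
      rw [← C_mul_X_pow_eq_monomial, iterate_derivative_C_mul, iterate_derivative_X_pow_eq_natCast_mul,
        smul_eq_C_mul, ← C_pow]
      have h2 : (n.descFactorial k : K) = (k.factorial : K) * (n.choose k : K) := by
        rw [← Nat.cast_mul, Nat.descFactorial_eq_factorial_mul_choose]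
      have h3 : (k.factorial : K) ≠ 0 := by exact_mod_cast k.factorial_ne_zero
      have h4 : C (s ^ k / (k.factorial : K)) * ((n.descFactorial k : ℕ) : K[X]) =
          C (s ^ k) * ((n.choose k : ℕ) : K[X]) := by
        rw [← C_eq_natCast, ← C_eq_natCast, ← C_mul, ← C_mul, h2]
        congr 1
        field_simp
      calc C r * (C (s ^ k) * X ^ (n - k) * ((n.choose k : ℕ) : K[X]))
          = C r * (C (s ^ k) * ((n.choose k : ℕ) : K[X])) * X ^ (n - k) := by ring
        _ = _ := by rw [← h4]; ring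
    · intro k _ hk
      rw [Finset.mem_range, not_lt] at hk
      rw [← C_mul_X_pow_eq_monomial, iterate_derivative_C_mul, iterate_derivative_X_pow_eq_natCast_mul,
        Nat.descFactorial_of_lt (by omega)]
      simp
  conv_lhs => rw [f.as_sum_range' M hM]
  rw [map_sum]
  have h5 : ∀ k, derivative^[k] f = ∑ n ∈ Finset.range M, derivative^[k] (monomial n (f.coeff n)) := by
    intro k
    conv_lhs => rw [f.as_sum_range' M hM]
    rw [iterate_derivative_sum]
  simp_rw [h5, Finset.smul_sum]
  rw [Finset.sum_comm]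
  exact Finset.sum_congr rfl fun n hn => key n _ (Finset.mem_range.1 hn)

namespace Chains

variable {N : End K V} {P : ι → Submodule K V} (D : Chains N P ⊤)

/-- The polynomial attached to the coordinates in one chain. -/
noncomputable def phi (i : D.κ) : V →ₗ[K] K[X] :=
  ∑ j : Fin (D.l i), (monomial (D.l i - 1 - j)) ∘ₗ
    ((((D.l i - 1 - j).factorial : K)⁻¹) • D.basis.coord ⟨i, j⟩)

variable {D}

theorem phi_coeff (i : D.κ) (x : V) (d : ℕ) (hd : d < D.l i) :
    (D.phi i x).coeff d = ((d.factorial : K)⁻¹) *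
      D.basis.repr x ⟨i, ⟨D.l i - 1 - d, by omega⟩⟩ := by
  rw [phi, LinearMap.sum_apply, finset_sum_coeff,
    Finset.sum_eq_single (⟨D.l i - 1 - d, by omega⟩ : Fin (D.l i))]
  · rw [LinearMap.comp_apply, coeff_monomial, if_pos (by simp only; omega), LinearMap.smul_apply,
      Basis.coord_apply, smul_eq_mul]
    congr 3
    simp only
    congr 1
    omega
  · intro j _ hj
    rw [LinearMap.comp_apply, coeff_monomial, if_neg]
    intro h
    apply hj
    apply Fin.ext
    have := j.2
    simp only
    omega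
  · intro h
    exact absurd (Finset.mem_univ _) h

theorem phi_coeff_zero (i : D.κ) (x : V) (d : ℕ) (hd : D.l i ≤ d) : (D.phi i x).coeff d = 0 := by
  rw [phi, LinearMap.sum_apply, finset_sum_coeff]
  refine Finset.sum_eq_zero fun j _ => ?_
  rw [LinearMap.comp_apply, coeff_monomial, if_neg]
  have := j.2
  omega

theorem phi_natDegree (i : D.κ) (x : V) : (D.phi i x).natDegree < D.l i := by
  have h1 : (D.phi i x).natDegree ≤ D.l i - 1 := by
    rw [natDegree_le_iff_coeff_eq_zero]
    intro d hd
    exact phi_coeff_zero i x d (by omega)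
  have := D.pos i
  omega

variable [CharZero K]

theorem repr_eq_phi (i : D.κ) (x : V) (j : Fin (D.l i)) :
    D.basis.repr x ⟨i, j⟩ = ((D.l i - 1 - j).factorial : K) * (D.phi i x).coeff (D.l i - 1 - j) := by
  have hj := j.2
  rw [phi_coeff i x _ (by omega), ← mul_assoc, mul_inv_cancel₀ (by
    exact_mod_cast (Nat.factorial_ne_zero _)), one_mul]
  congr 2
  exact Fin.ext (by simp only; omega)

theorem eq_zero_of_phi {x : V} (h : ∀ i, D.phi i x = 0) : x = 0 := by
  rw [← D.basis.repr.map_eq_zero_iff]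
  ext ⟨i, j⟩
  rw [repr_eq_phi, h i, coeff_zero, mul_zero]
  rfl

theorem eq_of_phi {x y : V} (h : ∀ i, D.phi i x = D.phi i y) : x = y := by
  rw [← sub_eq_zero]
  exact eq_zero_of_phi fun i => by rw [map_sub, h i, sub_self]

theorem phi_N (i : D.κ) (x : V) : D.phi i (N x) = derivative (D.phi i x) := by
  ext d
  rw [coeff_derivative]
  have hN : N x = (N ^ 1) x := by rw [pow_one]
  rcases lt_or_ge d (D.l i) with hd | hd
  · rw [phi_coeff i _ d hd, hN, repr_pow]
    rcases lt_or_ge (d + 1) (D.l i) with hd' | hd'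
    · rw [if_pos (by simp only; omega), phi_coeff i _ (d + 1) hd', Nat.factorial_succ, Nat.cast_mul,
        mul_inv]
      have h1 : ((d + 1 : ℕ) : K) ≠ 0 := by exact_mod_cast Nat.succ_ne_zero d
      have h2 : (⟨D.l i - 1 - d - 1, by omega⟩ : Fin (D.l i)) = ⟨D.l i - 1 - (d + 1), by omega⟩ :=
        Fin.ext (by simp only; omega)
      simp only
      rw [h2]
      push_cast at h1 ⊢
      field_simp
    · rw [if_neg (by simp only; omega), phi_coeff_zero i _ (d + 1) hd', mul_zero, zero_mul]
  · rw [phi_coeff_zero i _ d hd, phi_coeff_zero i _ (d + 1) (by omega), zero_mul]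

theorem phi_pow (i : D.κ) (k : ℕ) (x : V) : D.phi i ((N ^ k) x) = derivative^[k] (D.phi i x) := by
  induction k with
  | zero => simp
  | succ k ih =>
    rw [pow_succ', Module.End.mul_apply, phi_N, ih, Function.iterate_succ_apply']

theorem pow_finrank_zero (D : Chains N P ⊤) : N ^ (∑ i, D.l i) = 0 := by
  refine D.basis.ext fun y => ?_
  obtain ⟨i, j⟩ := y
  rw [LinearMap.zero_apply]
  apply pow_basis_zero
  have : D.l i ≤ ∑ i, D.l i := Finset.single_le_sum (f := D.l) (fun _ _ => Nat.zero_le _)
    (Finset.mem_univ i)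
  omega

/-- The operator `exp (s N)` is the translation of polynomials. -/
theorem phi_exp (i : D.κ) (s : K) (x : V) : D.phi i (expN s N x) = taylor s (D.phi i x) := by
  rw [expN_eq s D.pow_finrank_zero, taylor_eq_sum s (D.phi i x) (M := ∑ i, D.l i)
    (lt_of_lt_of_le (phi_natDegree i x) (Finset.single_le_sum (f := D.l) (fun _ _ => Nat.zero_le _)
    (Finset.mem_univ i))), LinearMap.sum_apply, map_sum]
  refine Finset.sum_congr rfl fun k _ => ?_
  rw [LinearMap.smul_apply, map_smul, phi_pow]

theorem exp_add (D : Chains N P ⊤) (s t : K) (x : V) :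
    expN s N (expN t N x) = expN (s + t) N x := by
  refine D.eq_of_phi fun i => ?_
  rw [phi_exp, phi_exp, phi_exp, taylor_taylor]

theorem exp_zero (D : Chains N P ⊤) (x : V) : expN (0 : K) N x = x := by
  refine D.eq_of_phi fun i => ?_
  rw [phi_exp, taylor_zero]

theorem exp_injective (D : Chains N P ⊤) (s : K) : Function.Injective (expN s N) := by
  intro x y h
  have h1 : expN (-s) N (expN s N x) = expN (-s) N (expN s N y) := by rw [h]
  rwa [D.exp_add, D.exp_add, neg_add_cancel, D.exp_zero, D.exp_zero] at h1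

theorem exp_surjective (D : Chains N P ⊤) (s : K) : Function.Surjective (expN s N) := fun x =>
  ⟨expN (-s) N x, by rw [D.exp_add, add_neg_cancel, D.exp_zero]⟩

/-- The key lemma: too many coordinates vanish. -/
theorem phi_eq_zero {s : K} (hs : s ≠ 0) {i : D.κ} {x : V} {A B : ℕ} (hAB : D.l i ≤ A + B)
    (h1 : ∀ j : Fin (D.l i), D.l i ≤ (j : ℕ) + A → D.basis.repr x ⟨i, j⟩ = 0)
    (h2 : ∀ j : Fin (D.l i), D.l i ≤ (j : ℕ) + B → D.basis.repr (expN s N x) ⟨i, j⟩ = 0) :
    D.phi i x = 0 := by
  have hA : X ^ A ∣ D.phi i x := by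
    rw [X_pow_dvd_iff]
    intro d hd
    rcases lt_or_ge d (D.l i) with h | h
    · rw [phi_coeff i x d h, h1 _ (by simp only; omega), mul_zero]
    · exact phi_coeff_zero i x d h
  have hB : X ^ B ∣ taylor s (D.phi i x) := by
    rw [← phi_exp, X_pow_dvd_iff]
    intro d hd
    rcases lt_or_ge d (D.l i) with h | h
    · rw [phi_coeff i _ d h, h2 _ (by simp only; omega), mul_zero]
    · exact phi_coeff_zero i _ d h
  have hB' : (X - C s) ^ B ∣ D.phi i x := by
    obtain ⟨g, hg⟩ := hB
    refine ⟨taylor (-s) g, ?_⟩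
    have h3 := congrArg (taylor (-s)) hg
    rw [taylor_taylor, neg_add_cancel, taylor_zero, taylor_mul, taylor_pow, taylor_X, C_neg,
      ← sub_eq_add_neg] at h3
    exact h3
  have hcop : IsCoprime ((X : K[X]) ^ A) ((X - C s) ^ B) := by
    apply IsCoprime.pow
    have h4 := isCoprime_X_sub_C_of_isUnit_sub (a := (0 : K)) (b := s)
      (by rw [zero_sub]; exact (neg_ne_zero.2 hs).isUnit)
    rwa [C_0, sub_zero] at h4
  obtain ⟨g, hg⟩ := hcop.mul_dvd hA hB'
  by_contra hne
  have hg0 : g ≠ 0 := by
    rintro rfl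
    rw [mul_zero] at hg
    exact hne hg
  have h5 : (D.phi i x).natDegree = A + B + g.natDegree := by
    rw [hg, natDegree_mul (mul_ne_zero (pow_ne_zero _ X_ne_zero)
      (pow_ne_zero _ (X_sub_C_ne_zero s))) hg0, natDegree_mul (pow_ne_zero _ X_ne_zero)
      (pow_ne_zero _ (X_sub_C_ne_zero s)), natDegree_X_pow, natDegree_pow, natDegree_X_sub_C,
      mul_one]
  have := phi_natDegree i x
  omega

/-- The converse of the key lemma. -/
theorem exists_of_lt (s : K) {i : D.κ} {A B : ℕ} (hAB : A + B < D.l i) :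
    ∃ x : V, x ≠ 0 ∧ (∀ y, D.basis.repr x y ≠ 0 → y.1 = i ∧ (y.2 : ℕ) + A < D.l y.1) ∧
      ∀ y, D.basis.repr (expN s N x) y ≠ 0 → y.1 = i ∧ (y.2 : ℕ) + B < D.l y.1 := by
  classical
  set f : K[X] := X ^ A * (X - C s) ^ B with hf
  have hf0 : f ≠ 0 := mul_ne_zero (pow_ne_zero _ X_ne_zero) (pow_ne_zero _ (X_sub_C_ne_zero s))
  have hfd : f.natDegree = A + B := by
    rw [hf, natDegree_mul (pow_ne_zero _ X_ne_zero)
      (pow_ne_zero _ (X_sub_C_ne_zero s)), natDegree_X_pow, natDegree_pow, natDegree_X_sub_C,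
      mul_one]
  let c : (Σ i, Fin (D.l i)) → K := fun y =>
    if y.1 = i then ((D.l y.1 - 1 - y.2).factorial : K) * f.coeff (D.l y.1 - 1 - y.2) else 0
  let x : V := ∑ y, c y • D.basis y
  have hrx : ∀ y, D.basis.repr x y = c y := fun y => congrFun (D.basis.repr_sum_self c) y
  have hphi : D.phi i x = f := by
    ext d
    rcases lt_or_ge d (D.l i) with h | h
    · rw [phi_coeff i x d h, hrx]
      simp only [c, if_true]
      rw [show D.l i - 1 - (D.l i - 1 - d) = d by omega, ← mul_assoc, inv_mul_cancel₀ (by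
        exact_mod_cast (Nat.factorial_ne_zero _)), one_mul]
    · rw [phi_coeff_zero i x d h, coeff_eq_zero_of_natDegree_lt (by omega)]
  have hphi' : ∀ i', i' ≠ i → D.phi i' x = 0 := by
    intro i' hi'
    ext d
    rcases lt_or_ge d (D.l i') with h | h
    · rw [phi_coeff i' x d h, hrx]
      simp only [c, if_neg hi', mul_zero, coeff_zero]
    · rw [phi_coeff_zero i' x d h, coeff_zero]
  refine ⟨x, ?_, ?_, ?_⟩
  · intro h
    rw [h, map_zero] at hphi
    exact hf0 hphi.symm
  · rintro ⟨i', j⟩ hy
    rw [repr_eq_phi] at hy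
    by_cases hi : i' = i
    · refine ⟨hi, ?_⟩
      subst hi
      rw [hphi] at hy
      by_contra hlt
      apply hy
      have hA : X ^ A ∣ f := Dvd.intro _ rfl
      rw [X_pow_dvd_iff] at hA
      have := j.2
      rw [hA _ (by simp only at hlt; omega), mul_zero]
    · rw [hphi' i' hi, coeff_zero, mul_zero] at hy
      exact absurd rfl hy
  · rintro ⟨i', j⟩ hy
    rw [repr_eq_phi, phi_exp] at hy
    by_cases hi : i' = i
    · refine ⟨hi, ?_⟩
      subst hi
      rw [hphi] at hy
      by_contra hlt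
      apply hy
      have hB : X ^ B ∣ taylor s f := by
        rw [hf, taylor_mul, taylor_pow, taylor_pow, map_sub, taylor_X, taylor_C, add_sub_cancel_right]
        exact Dvd.intro_left _ rfl
      rw [X_pow_dvd_iff] at hB
      have := j.2
      rw [hB _ (by simp only at hlt; omega), mul_zero]
    · rw [hphi' i' hi, map_zero, coeff_zero, mul_zero] at hy
      exact absurd rfl hy

end Chains

end Pool.Agent.X305.WM
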