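import Pool.Agent.X268.WM.Stm

/-!
# Admissible multiplicities and twisted endomorphisms
-/

set_option autoImplicit false

namespace Pool.Agent.X305.WM

open Module Polynomial Pool.Agent.X268.WM

universe u

variable {Ω : Type} [Field Ω] [CharZero Ω] {q : ℕ}

/-- There is no nonzero homomorphism from `W` to its Tate twist `W(1)`: no nonzero operator `Z` commutes with
`N` and satisfies `F Z = q Z F`. -/
def NoTwistedEndomorphism (W : FN.{u} Ω q) : Prop :=
  ∀ Z : End Ω W.V, (∀ v, W.F (Z v) = (q : Ω) • Z (W.F v)) → (∀ v, W.N (Z v) = Z (W.N v)) → Z = 0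

/-- The multiplicities of the roots of `P` in an algebraic closure of `ℚ` are admissible for the weight `m`:
if `a` is a Weil number of weight `m + k`, its multiplicity is not larger than those of `a / q`, ...,
`a / q ^ k`, and equal to the last one. -/
def AdmissibleRoots (q m : ℕ) (P : ℚ[X]) : Prop :=
  ∀ (k : ℕ) (a : AlgebraicClosure ℚ), IsWeil q (m + k) a →
    (∀ j ≤ k, (P.map (algebraMap ℚ (AlgebraicClosure ℚ))).rootMultiplicity a ≤
      (P.map (algebraMap ℚ (AlgebraicClosure ℚ))).rootMultiplicity (a / (q : AlgebraicClosure ℚ) ^ j)) ∧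
    (P.map (algebraMap ℚ (AlgebraicClosure ℚ))).rootMultiplicity a =
      (P.map (algebraMap ℚ (AlgebraicClosure ℚ))).rootMultiplicity (a / (q : AlgebraicClosure ℚ) ^ k)

end Pool.Agent.X305.WM
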