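import Pool.Agent.X305.WM.Two
import Pool.Agent.X305.WM.Pair
import Pool.Agent.X305.WM.GenDefs

/-!
# Weight-monodromy and twisted endomorphisms
-/

set_option autoImplicit false

namespace Pool.Agent.X305.WM

open Module Polynomial Pool.Agent.X268.WM

universe u

variable {Ω : Type} [Field Ω] [CharZero Ω] {q : ℕ}

/-- the multiplicities are admissible -/
def Adm (W : FN.{u} Ω q) (m : ℕ) : Prop :=
  ∀ (k : ℕ) (a : Ω), IsWeil q (m + k) a →
    (∀ j ≤ k, W.mult a ≤ W.mult (a / (q : Ω) ^ j)) ∧ W.mult a = W.mult (a / (q : Ω) ^ k)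

theorem pow_gen (hq : 1 < q) (W : FN.{u} Ω q) (j : ℕ) : ∀ (b : Ω), ∀ v ∈ gen W b,
    (W.N ^ j) v ∈ gen W (b / (q : Ω) ^ j) := by
  induction j with
  | zero => intro b v hv; simpa using hv
  | succ j ih =>
    intro b v hv
    have h6 : (W.N ^ (j + 1)) v = W.N ((W.N ^ j) v) := by rw [pow_succ', Module.End.mul_apply]
    rw [h6, pow_succ, ← div_div]
    exact gen_shift hq W _ _ (ih b v hv)

theorem adm_of_pure (hq : 1 < q) {W : FN.{u} Ω q} {m : ℕ} (hp : W.IsPure m) : Adm W m := by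
  intro k a ha
  have hinj : ∀ j ≤ k, W.mult a ≤ W.mult (a / (q : Ω) ^ j) := by
    intro j hj
    let f : gen W a →ₗ[Ω] gen W (a / (q : Ω) ^ j) := (W.N ^ j).restrict (pow_gen hq W j a)
    have hf : Function.Injective f := by
      rw [injective_iff_map_eq_zero]
      rintro ⟨v, hv⟩ h0
      have h1 : (W.N ^ j) v = 0 := congrArg Subtype.val h0
      apply Subtype.ext
      refine (hp.2 k a ha).1 v hv ?_
      rw [show k = (k - j) + j by omega, pow_add, Module.End.mul_apply, h1, map_zero]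
    exact LinearMap.finrank_le_finrank_of_injective hf
  refine ⟨hinj, le_antisymm (hinj k le_rfl) ?_⟩
  let f : gen W a →ₗ[Ω] gen W (a / (q : Ω) ^ k) := (W.N ^ k).restrict (pow_gen hq W k a)
  have hf : Function.Surjective f := by
    rintro ⟨u, hu⟩
    obtain ⟨v, hv, hvu⟩ := (hp.2 k a ha).2 u hu
    exact ⟨⟨v, hv⟩, Subtype.ext hvu⟩
  exact LinearMap.finrank_le_finrank_of_surjective hf

/-- A map `Z` with `F Z = c Z F` shifts the generalized eigenspaces. -/
theorem shift_gen {W : FN.{u} Ω q} {Z : End Ω W.V} {c : Ω}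
    (hZ : ∀ v, W.F (Z v) = c • Z (W.F v)) {a : Ω} {v : W.V} (hv : v ∈ gen W a) :
    Z v ∈ gen W (c * a) := by
  obtain ⟨K, hK⟩ := exists_pow W a
  rw [gen, Module.End.mem_maxGenEigenspace]
  refine ⟨K, ?_⟩
  have h1 : ∀ (k : ℕ) (v : W.V), ((W.F - (c * a) • (1 : End Ω W.V)) ^ k) (Z v) =
      c ^ k • Z (((W.F - a • (1 : End Ω W.V)) ^ k) v) := by
    intro k
    induction k with
    | zero => intro v; simp
    | succ k ih =>
      intro v
      rw [pow_succ, Module.End.mul_apply, pow_succ (W.F - a • (1 : End Ω W.V)), Module.End.mul_apply]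
      have h2 : (W.F - (c * a) • (1 : End Ω W.V)) (Z v) = c • Z ((W.F - a • (1 : End Ω W.V)) v) := by
        rw [LinearMap.sub_apply, LinearMap.smul_apply, Module.End.one_apply, hZ, LinearMap.sub_apply,
          LinearMap.smul_apply, Module.End.one_apply, map_sub, map_smul, smul_sub, smul_smul]
      rw [h2, map_smul, ih, smul_smul, pow_succ, mul_comm (c ^ k)]
  rw [h1, hK v hv, map_zero, smul_zero]

theorem noTwist_of_pure [IsAlgClosed Ω] (hq : 1 < q) {W : FN.{u} Ω q} {m : ℕ} (hp : W.IsPure m) :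
    NoTwistedEndomorphism W := by
  intro Z hF hN
  obtain ⟨E⟩ := exists_wchains hq hp.1
  have hc := (E.isPure_iff hq hp.1 m).1 hp
  have hpow : ∀ (k : ℕ) (v : W.V), (W.N ^ k) (Z v) = Z ((W.N ^ k) v) := by
    intro k
    induction k with
    | zero => intro v; simp
    | succ k ih => intro v; rw [pow_succ, Module.End.mul_apply, hN, ih, Module.End.mul_apply]
  have h0 : ∀ i, Z (E.D.v i) = 0 := by
    intro i
    have h1 : Z (E.D.v i) ∈ gen W ((q : Ω) * E.D.a i) := shift_gen hF (E.D.mem i)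
    have h2 : IsWeil q (m + ((E.D.l i + 1 : ℕ) : ℤ)) ((q : Ω) * E.D.a i) := by
      have h3 := (E.weil i).scale (by omega : 0 < q) 1
      rw [zpow_one] at h3
      rw [mul_comm (q : Ω)]
      convert h3 using 1
      rw [hc i]
      push_cast
      ring
    refine (hp.2 _ _ h2).1 _ h1 ?_
    rw [hpow, pow_succ', Module.End.mul_apply, E.D.zero, map_zero, map_zero]
  apply E.D.basis.ext
  intro x
  rw [E.D.basis_apply, ← hpow, h0, map_zero, LinearMap.zero_apply]

namespace WChains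

variable {W : FN.{u} Ω q} (E : WChains W)

/-- Two linked chains. -/
def Linked (i j : E.D.κ) (k : ℕ) : Prop :=
  E.D.a j = E.D.a i * (q : Ω) ^ (k + 1) ∧ k < E.D.l j ∧ E.D.l j ≤ k + E.D.l i

/-- the chains which cover the eigenvalue `b` -/
noncomputable def cov (b : Ω) : Finset E.D.κ := by
  classical
  exact Finset.univ.filter fun c => ∃ s : Fin (E.D.l c), E.D.a c / (q : Ω) ^ (s : ℕ) = b

theorem mem_cov (b : Ω) (c : E.D.κ) :
    c ∈ E.cov b ↔ ∃ s : Fin (E.D.l c), E.D.a c / (q : Ω) ^ (s : ℕ) = b := by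
  classical
  simp [cov]

theorem q_pow_inj (hq : 1 < q) {a : Ω} (ha : a ≠ 0) {s t : ℕ}
    (h : a / (q : Ω) ^ s = a / (q : Ω) ^ t) : s = t := by
  have hq0 : (q : Ω) ≠ 0 := by exact_mod_cast (by omega : q ≠ 0)
  have h1 : (q : Ω) ^ s = (q : Ω) ^ t := by
    rw [div_eq_div_iff (pow_ne_zero _ hq0) (pow_ne_zero _ hq0)] at h
    exact (mul_left_cancel₀ ha h).symm
  have h2 : (q ^ s : ℕ) = q ^ t := by exact_mod_cast h1
  exact Nat.pow_right_injective hq h2

theorem a_ne (hq : 1 < q) (c : E.D.κ) : E.D.a c ≠ 0 := (E.weil c).ne_zero (by omega)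

theorem card_cov (hq : 1 < q) (b : Ω) : (E.cov b).card = W.mult b := by
  classical
  rw [mult_eq_card hq E b]
  have h1 : E.cov b = (Finset.univ.filter fun y : E.Idx => E.dg y = b).image Sigma.fst := by
    ext c
    rw [mem_cov, Finset.mem_image]
    constructor
    · rintro ⟨s, hs⟩
      exact ⟨⟨c, s⟩, Finset.mem_filter.2 ⟨Finset.mem_univ _, by rw [E.dg_eq]; exact hs⟩, rfl⟩
    · rintro ⟨y, hy, rfl⟩
      have h2 := (Finset.mem_filter.1 hy).2
      rw [E.dg_eq] at h2
      exact ⟨y.2, h2⟩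
  rw [h1, Finset.card_image_of_injOn]
  rintro ⟨c, s⟩ hx ⟨c', t⟩ hy hxy
  obtain rfl : c = c' := hxy
  have h2 := (Finset.mem_filter.1 hx).2
  have h3 := (Finset.mem_filter.1 hy).2
  rw [E.dg_eq] at h2 h3
  have h4 := q_pow_inj hq (E.a_ne hq c) (h2.trans h3.symm)
  congr 1
  exact Fin.ext h4

/-- Without linked chains, chains which cover `a` cover `a / q ^ k` if the multiplicities do not become
smaller. -/
theorem cov_subset (hq : 1 < q) (hl : ∀ i j k, ¬E.Linked i j k) {a : Ω} {k : ℕ}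
    (hm : ∀ j ≤ k, W.mult a ≤ W.mult (a / (q : Ω) ^ j)) : E.cov a ⊆ E.cov (a / (q : Ω) ^ k) := by
  classical
  have hq0 : (q : Ω) ≠ 0 := by exact_mod_cast (by omega : q ≠ 0)
  by_contra hcon
  set R := E.cov a ∩ E.cov (a / (q : Ω) ^ k) with hR
  have hne : (E.cov a \ E.cov (a / (q : Ω) ^ k)).Nonempty := by
    rw [Finset.sdiff_nonempty]
    exact hcon
  -- the position of `a` in a chain
  have hpos : ∀ c ∈ E.cov a, ∃ s : ℕ, s < E.D.l c ∧ E.D.a c = a * (q : Ω) ^ s := by
    intro c hc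
    obtain ⟨s, hs⟩ := (E.mem_cov a c).1 hc
    refine ⟨s, s.2, ?_⟩
    rw [← hs, div_mul_cancel₀ _ (pow_ne_zero _ hq0)]
  choose! s hs1 hs2 using hpos
  obtain ⟨c, hc, hmax⟩ := Finset.exists_max_image _ (fun c => E.D.l c - s c) hne
  rw [Finset.mem_sdiff] at hc
  have hsl := hs1 c hc.1
  -- the chain `c` ends before `a / q ^ k`
  set e := E.D.l c - 1 - s c with he
  have hek : e < k := by
    by_contra hge
    push Not at hge
    apply hc.2
    rw [mem_cov]
    refine ⟨⟨s c + k, by omega⟩, ?_⟩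
    change E.D.a c / (q : Ω) ^ (s c + k) = _
    rw [hs2 c hc.1, pow_add]
    field_simp
  have hcard : R.card < (E.cov (a / (q : Ω) ^ (e + 1))).card := by
    refine lt_of_lt_of_le (b := (E.cov a).card) ?_ ?_
    · refine Finset.card_lt_card ⟨Finset.inter_subset_left, fun h => ?_⟩
      exact hc.2 (Finset.mem_inter.1 (h hc.1)).2
    · rw [E.card_cov hq, E.card_cov hq]
      exact hm _ (by omega)
  obtain ⟨c', hc', hcR⟩ := Finset.exists_mem_notMem_of_card_lt_card hcard
  obtain ⟨t, ht⟩ := (E.mem_cov _ c').1 hc'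
  have hac' : E.D.a c' = a / (q : Ω) ^ (e + 1) * (q : Ω) ^ (t : ℕ) := by
    rw [← ht, div_mul_cancel₀ _ (pow_ne_zero _ hq0)]
  have ha0 : a ≠ 0 := by
    rintro rfl
    have h1 := hs2 c hc.1
    rw [zero_mul] at h1
    exact E.a_ne hq c h1
  by_cases hte : (t : ℕ) ≤ e
  · -- linked chains
    refine hl c' c (s c + e - t) ⟨?_, by omega, by have := t.2; omega⟩
    rw [hs2 c hc.1, hac']
    have h1 : s c + e - t + 1 + t = s c + (e + 1) := by omega
    have h2 : a / (q : Ω) ^ (e + 1) * (q : Ω) ^ (t : ℕ) * (q : Ω) ^ (s c + e - t + 1) =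
        a / (q : Ω) ^ (e + 1) * (q : Ω) ^ (s c + (e + 1)) := by
      rw [← h1, pow_add _ (s c + e - t + 1) t]
      ring
    rw [h2, pow_add (q : Ω) (s c) (e + 1), div_mul_eq_mul_div, eq_div_iff (pow_ne_zero _ hq0)]
    ring
  · -- the chain covers `a`
    push Not at hte
    have h1 : c' ∈ E.cov a := by
      rw [mem_cov]
      refine ⟨⟨t - (e + 1), by have := t.2; omega⟩, ?_⟩
      change E.D.a c' / (q : Ω) ^ ((t : ℕ) - (e + 1)) = a
      rw [hac']
      have h2 : (q : Ω) ^ (t : ℕ) = (q : Ω) ^ ((t : ℕ) - (e + 1)) * (q : Ω) ^ (e + 1) := by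
        rw [← pow_add]
        congr 1
        omega
      rw [h2, div_mul_eq_mul_div, div_div,
        div_eq_iff (mul_ne_zero (pow_ne_zero _ hq0) (pow_ne_zero _ hq0))]
      ring
    have h3 : c' ∉ E.cov (a / (q : Ω) ^ k) := fun h => hcR (Finset.mem_inter.2 ⟨h1, h⟩)
    have h4 := hmax c' (Finset.mem_sdiff.2 ⟨h1, h3⟩)
    have h5 := hs2 c' h1
    rw [hac'] at h5
    have h6 : (q : Ω) ^ (t : ℕ) = (q : Ω) ^ (s c' + (e + 1)) := by
      rw [div_mul_eq_mul_div, div_eq_iff (pow_ne_zero _ hq0), mul_assoc, ← pow_add] at h5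
      exact mul_left_cancel₀ ha0 h5
    have h7 : (t : ℕ) = s c' + (e + 1) := by
      have h8 : (q ^ (t : ℕ) : ℕ) = q ^ (s c' + (e + 1)) := by exact_mod_cast h6
      exact Nat.pow_right_injective hq h8
    have := t.2
    omega

/-- Without linked chains and with admissible multiplicities, all chains are centered. -/
theorem centered (hq : 1 < q) (hl : ∀ i j k, ¬E.Linked i j k) {m : ℕ} (ha : Adm W m) (c : E.D.κ) :
    E.w c = m + (E.D.l c : ℤ) - 1 := by
  classical
  have hq0 : (q : Ω) ≠ 0 := by exact_mod_cast (by omega : q ≠ 0)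
  have hpos := E.D.pos c
  -- the eigenvalues of weights `m + k` and `m - k` are covered by the same chains
  have key : ∀ (k : ℕ) (b : Ω), IsWeil q (m + k) b → E.cov b = E.cov (b / (q : Ω) ^ k) := by
    intro k b hb
    refine Finset.eq_of_subset_of_card_le (E.cov_subset hq hl (ha k b hb).1) ?_
    rw [E.card_cov hq, E.card_cov hq, ← (ha k b hb).2]
  -- from above
  have h1 : (m : ℤ) < E.w c → E.w c - 2 * ((E.D.l c : ℤ) - 1) ≤ 2 * m - E.w c := by
    intro h
    obtain ⟨k, hk⟩ : ∃ k : ℕ, (k : ℤ) = E.w c - m := ⟨(E.w c - m).toNat, Int.toNat_of_nonneg (by omega)⟩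
    have h2 : c ∈ E.cov (E.D.a c) := (E.mem_cov _ c).2 ⟨⟨0, hpos⟩, by simp⟩
    rw [key k (E.D.a c) (by convert E.weil c using 1; omega), mem_cov] at h2
    obtain ⟨t, ht⟩ := h2
    have h3 := q_pow_inj hq (E.a_ne hq c) ht
    have := t.2
    omega
  -- from below
  have h2 : E.w c - 2 * ((E.D.l c : ℤ) - 1) < m →
      2 * m - (E.w c - 2 * ((E.D.l c : ℤ) - 1)) ≤ E.w c := by
    intro h
    set v := E.w c - 2 * ((E.D.l c : ℤ) - 1) with hv
    obtain ⟨k, hk⟩ : ∃ k : ℕ, (k : ℤ) = m - v := ⟨(m - v).toNat, Int.toNat_of_nonneg (by omega)⟩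
    set b := E.D.a c / (q : Ω) ^ (E.D.l c - 1) with hb
    have hb' : IsWeil q v b := by
      have h3 := (E.weil c).scale (by omega : 0 < q) (-((E.D.l c - 1 : ℕ) : ℤ))
      have h4 : E.D.a c * (q : Ω) ^ (-((E.D.l c - 1 : ℕ) : ℤ)) = b := by
        rw [zpow_neg, zpow_natCast, ← div_eq_mul_inv]
      rw [h4] at h3
      convert h3 using 1
      push_cast [Nat.cast_sub (by omega : 1 ≤ E.D.l c)]
      omega
    have h5 : IsWeil q (m + k) (b * (q : Ω) ^ k) := by
      have h6 := hb'.scale (by omega : 0 < q) k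
      rw [zpow_natCast] at h6
      convert h6 using 1
      omega
    have h7 : c ∈ E.cov b := (E.mem_cov _ c).2 ⟨⟨E.D.l c - 1, by omega⟩, rfl⟩
    have h8 := key k _ h5
    rw [mul_div_assoc, div_self (pow_ne_zero _ hq0), mul_one] at h8
    rw [← h8, mem_cov] at h7
    obtain ⟨t, ht⟩ := h7
    have h9 : IsWeil q (E.w c - 2 * ((t : ℕ) : ℤ)) (b * (q : Ω) ^ k) := by
      have h10 := E.weil_dg hq ⟨c, t⟩
      rw [E.dg_eq, wt] at h10
      change IsWeil q (E.w c - 2 * ((t : ℕ) : ℤ)) (E.D.a c / (q : Ω) ^ (t : ℕ)) at h10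
      rwa [ht] at h10
    have h11 := weight_unique hq h5 h9
    omega
  rcases lt_trichotomy (E.w c) (m : ℤ) with h | h | h
  · have := h2 (by omega)
    omega
  · by_cases h3 : E.w c - 2 * ((E.D.l c : ℤ) - 1) < m
    · have := h2 h3
      omega
    · omega
  · have h3 := h1 h
    have h4 := h2 (by omega)
    omega

end WChains

end Pool.Agent.X305.WM
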