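import Pool.Agent.X305.WM.Gen

/-!
# Weight-monodromy and twisted endomorphisms: the criterion
-/

set_option autoImplicit false

namespace Pool.Agent.X305.WM

open Module Polynomial Pool.Agent.X268.WM

universe u

variable {Ω : Type} [Field Ω] [CharZero Ω] {q : ℕ}

/-- the operators which commute with `N` and raise the degree -/
def raising (W : FN.{u} Ω q) : Submodule Ω (End Ω W.V) where
  carrier := {Z | (∀ v, W.N (Z v) = Z (W.N v)) ∧ ∀ a, ∀ v ∈ gen W a, Z v ∈ gen W ((q : Ω) * a)}
  add_mem' := by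
    rintro Z Z' ⟨h1, h2⟩ ⟨h1', h2'⟩
    refine ⟨fun v => ?_, fun a v hv => ?_⟩
    · rw [LinearMap.add_apply, map_add, h1, h1', LinearMap.add_apply]
    · exact Submodule.add_mem _ (h2 a v hv) (h2' a v hv)
  zero_mem' := ⟨fun v => by simp, fun a v _ => by simp⟩
  smul_mem' := by
    rintro c Z ⟨h1, h2⟩
    refine ⟨fun v => ?_, fun a v hv => ?_⟩
    · rw [LinearMap.smul_apply, map_smul, h1, LinearMap.smul_apply]
    · exact Submodule.smul_mem _ _ (h2 a v hv)

theorem exists_twist [IsAlgClosed Ω] (hq : 1 < q) {W : FN.{u} Ω q} (hmix : W.IsMixed)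
    {Z₀ : End Ω W.V} (h0 : Z₀ ∈ raising W) (hne : Z₀ ≠ 0) : ¬NoTwistedEndomorphism W := by
  have hq0 : (q : Ω) ≠ 0 := by exact_mod_cast (by omega : q ≠ 0)
  have hinj := F_injective hq hmix
  let e : W.V ≃ₗ[Ω] W.V := LinearEquiv.ofInjectiveEndo W.F hinj
  have he : ∀ v, e v = W.F v := fun v => rfl
  have hes : ∀ v, W.F (e.symm v) = v := fun v => by rw [← he, LinearEquiv.apply_symm_apply]
  have heN : ∀ v, W.N (e.symm v) = (q : Ω)⁻¹ • e.symm (W.N v) := by
    intro v
    apply hinj
    rw [map_smul, hes]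
    have h1 := W.comm (e.symm v)
    rw [hes] at h1
    rw [h1, smul_smul, inv_mul_cancel₀ hq0, one_smul]
  have hFg : ∀ a, ∀ v ∈ gen W a, W.F v ∈ gen W a := fun a v hv =>
    Module.End.mapsTo_maxGenEigenspace_of_comm (Commute.refl W.F) a hv
  have heg : ∀ a, ∀ v ∈ gen W a, e.symm v ∈ gen W a := by
    intro a v hv
    let f : gen W a →ₗ[Ω] gen W a := W.F.restrict (hFg a)
    have hf : Function.Injective f := by
      intro x y hxy
      exact Subtype.ext (hinj (congrArg Subtype.val hxy))
    obtain ⟨⟨u, hu⟩, huv⟩ := (LinearMap.injective_iff_surjective.1 hf) ⟨v, hv⟩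
    have h1 : W.F u = v := congrArg Subtype.val huv
    rw [← h1, ← he, LinearEquiv.symm_apply_apply]
    exact hu
  -- the conjugation by Frobenius
  let T₀ : End Ω W.V →ₗ[Ω] End Ω W.V :=
    { toFun := fun Z => W.F ∘ₗ Z ∘ₗ e.symm.toLinearMap
      map_add' := fun Z Z' => by
        refine LinearMap.ext fun v => ?_
        simp
      map_smul' := fun c Z => by
        refine LinearMap.ext fun v => ?_
        simp }
  have hT : ∀ Z ∈ raising W, T₀ Z ∈ raising W := by
    rintro Z ⟨h1, h2⟩
    refine ⟨fun v => ?_, fun a v hv => ?_⟩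
    · change W.N (W.F (Z (e.symm v))) = W.F (Z (e.symm (W.N v)))
      rw [W.comm, h1, heN, map_smul, map_smul, smul_smul, mul_inv_cancel₀ hq0, one_smul]
    · exact hFg _ _ (h2 a _ (heg a v hv))
  let T : End Ω (raising W) := T₀.restrict hT
  have hnt : Nontrivial (raising W) := ⟨⟨⟨Z₀, h0⟩, 0, fun h => hne (congrArg Subtype.val h)⟩⟩
  obtain ⟨c, hc⟩ := Module.End.exists_eigenvalue T
  obtain ⟨⟨Z, hZ⟩, hZe⟩ := hc.exists_hasEigenvector
  have hZ0 : Z ≠ 0 := fun h => hZe.2 (Subtype.ext h)
  have hZF : ∀ v, W.F (Z v) = c • Z (W.F v) := by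
    intro v
    have h1 : T₀ Z = c • Z := congrArg Subtype.val (Module.End.mem_eigenspace_iff.1 hZe.1)
    have h2 := LinearMap.congr_fun h1 (W.F v)
    change W.F (Z (e.symm (e v))) = c • Z (W.F v) at h2
    rwa [LinearEquiv.symm_apply_apply] at h2
  intro hno
  -- the eigenvalue is `q`
  have hcq : c = q := by
    by_contra hcq
    apply hZ0
    have h3 : ∀ v ∈ ⨆ b, gen W b, Z v = 0 := by
      intro v hv
      have h4 : (⨆ b, gen W b) ≤ LinearMap.ker Z := by
        refine iSup_le fun a v hv => ?_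
        rw [LinearMap.mem_ker]
        by_contra hv0
        have hv1 : v ≠ 0 := by
          rintro rfl
          exact hv0 (map_zero Z)
        obtain ⟨w, hw⟩ := exists_weight_of_mem hmix hv hv1
        have ha := hw.ne_zero (by omega : 0 < q)
        have h5 : (q : Ω) * a ≠ c * a := fun h => hcq (mul_right_cancel₀ ha h).symm
        exact hv0 (Submodule.disjoint_def.1 ((gen_indep W).pairwiseDisjoint h5) (Z v) (hZ.2 a v hv)
          (shift_gen hZF hv))
      exact h4 hv
    refine LinearMap.ext fun v => ?_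
    rw [LinearMap.zero_apply]
    exact h3 v (by
      rw [show (⨆ b, gen W b) = ⊤ from Module.End.iSup_maxGenEigenspace_eq_top W.F]; trivial)
  rw [hcq] at hZF
  exact hZ0 (hno Z hZF hZ.1)

/-- Linked chains give a twisted endomorphism. -/
theorem notLinked [IsAlgClosed Ω] (hq : 1 < q) {W : FN.{u} Ω q} (hmix : W.IsMixed)
    (E : WChains W) (hno : NoTwistedEndomorphism W) (i j : E.D.κ) (k : ℕ) : ¬E.Linked i j k := by
  classical
  rintro ⟨h1, h2, h3⟩
  have hq0 : (q : Ω) ≠ 0 := by exact_mod_cast (by omega : q ≠ 0)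
  let Z : End Ω W.V := E.D.basis.constr Ω fun x => if x.1 = i then
    (W.N ^ ((x.2 : ℕ) + k)) (E.D.v j) else 0
  have hZ : ∀ x, Z (E.D.basis x) = if x.1 = i then (W.N ^ ((x.2 : ℕ) + k)) (E.D.v j) else 0 :=
    fun x => E.D.basis.constr_basis Ω _ x
  refine exists_twist hq hmix (Z₀ := Z) ⟨fun v => ?_, fun a v hv => ?_⟩ ?_ hno
  · -- commutes with `N`
    have h4 : W.N ∘ₗ Z = Z ∘ₗ W.N := by
      apply E.D.basis.ext
      rintro ⟨c, s⟩
      rw [LinearMap.comp_apply, LinearMap.comp_apply, hZ]
      by_cases hs : (s : ℕ) + 1 < E.D.l c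
      · have h5 := Chains.pow_basis (D := E.D) 1 c s hs
        rw [pow_one] at h5
        rw [h5, hZ]
        by_cases hc : c = i
        · rw [if_pos hc, if_pos hc, ← Module.End.mul_apply, ← pow_succ']
          congr 2
          simp only
          ring
        · rw [if_neg hc, if_neg hc, map_zero]
      · have h5 := Chains.pow_basis_zero (D := E.D) 1 c s (by omega)
        rw [pow_one] at h5
        rw [h5, map_zero]
        by_cases hc : c = i
        · subst hc
          rw [if_pos rfl, ← Module.End.mul_apply, ← pow_succ']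
          have h6 : (s : ℕ) + k + 1 = ((s : ℕ) + k + 1 - E.D.l j) + E.D.l j := by
            have := s.2
            omega
          simp only
          rw [h6, pow_add, Module.End.mul_apply, E.D.zero, map_zero]
        · rw [if_neg hc, map_zero]
    exact LinearMap.congr_fun h4 v
  · -- raises the degree
    rw [← E.D.basis.sum_repr v, map_sum]
    refine Submodule.sum_mem _ fun x _ => ?_
    rw [map_smul]
    by_cases hx : E.D.basis.repr v x = 0
    · rw [hx, zero_smul]
      exact Submodule.zero_mem _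
    · refine Submodule.smul_mem _ _ ?_
      have h4 := (WChains.mem_gen_iff (E := E) hq a v).1 hv x hx
      rw [hZ]
      by_cases hc : x.1 = i
      · rw [if_pos hc]
        have h5 := pow_gen hq W ((x.2 : ℕ) + k) _ _ (E.D.mem j)
        rw [E.dg_eq] at h4
        have h6 : E.D.a j / (q : Ω) ^ ((x.2 : ℕ) + k) = (q : Ω) * a := by
          rw [h1, ← h4, ← congrArg E.D.a hc, pow_succ, mul_div_assoc, div_eq_mul_inv]
          field_simp
          rw [pow_add]
          ring
        rwa [h6] at h5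
      · rw [if_neg hc]
        exact Submodule.zero_mem _
  · intro h4
    have h5 := hZ ⟨i, ⟨0, E.D.pos i⟩⟩
    rw [h4, LinearMap.zero_apply, if_pos rfl] at h5
    have h6 := E.D.basis_apply ⟨j, ⟨k, h2⟩⟩
    simp only [zero_add] at h5
    exact E.D.basis.ne_zero ⟨j, ⟨k, h2⟩⟩ (by rw [h6]; exact h5.symm)

/-- **Weight-monodromy, multiplicities and twisted endomorphisms.** -/
theorem pure_iff_adm [IsAlgClosed Ω] (hq : 1 < q) {W : FN.{u} Ω q} (hmix : W.IsMixed) (m : ℕ) :
    W.IsPure m ↔ Adm W m ∧ NoTwistedEndomorphism W := by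
  constructor
  · intro h
    exact ⟨adm_of_pure hq h, noTwist_of_pure hq h⟩
  · rintro ⟨h1, h2⟩
    obtain ⟨E⟩ := exists_wchains hq hmix
    exact (E.isPure_iff hq hmix m).2 fun c =>
      E.centered hq (fun i j k => notLinked hq hmix E h2 i j k) h1 c

end Pool.Agent.X305.WM
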