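import Pool.Agent.X305.WM.LocDefs
import Pool.Agent.X305.WM.CdrMain

/-!
# Generic monodromy operators and centralizers
-/

set_option autoImplicit false

namespace Pool.Agent.X305.WM

open Module Polynomial Pool.Agent.X268.WM

universe u

theorem abel_le (d d' : ℕ → ℤ) (M : ℕ) (hd : ∀ k, d (k + 1) ≤ d k)
    (hs : ∀ K, ∑ k ∈ Finset.range K, d k ≤ ∑ k ∈ Finset.range K, d' k)
    (hM : ∑ k ∈ Finset.range M, d k = ∑ k ∈ Finset.range M, d' k) :
    ∑ k ∈ Finset.range M, d k ^ 2 ≤ ∑ k ∈ Finset.range M, d' k ^ 2 ∧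
      (∑ k ∈ Finset.range M, d' k ^ 2 = ∑ k ∈ Finset.range M, d k ^ 2 →
        ∀ k < M, d' k = d k) := by
  have h1 : ∀ K, d K * ∑ k ∈ Finset.range K, (d' k - d k) ≤
      ∑ k ∈ Finset.range K, d k * (d' k - d k) := by
    intro K
    induction K with
    | zero => simp
    | succ K ih =>
      have h2 := hs (K + 1)
      have h3 : 0 ≤ ∑ k ∈ Finset.range (K + 1), (d' k - d k) := by
        rw [Finset.sum_sub_distrib]
        linarith
      have h4 := mul_le_mul_of_nonneg_right (hd K) h3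
      rw [Finset.sum_range_succ] at h4 ⊢
      rw [Finset.sum_range_succ]
      nlinarith
  have h2 := h1 M
  have h3 : ∑ k ∈ Finset.range M, (d' k - d k) = 0 := by
    rw [Finset.sum_sub_distrib, hM, sub_self]
  rw [h3, mul_zero] at h2
  have h4 : ∑ k ∈ Finset.range M, d' k ^ 2 - ∑ k ∈ Finset.range M, d k ^ 2 =
      ∑ k ∈ Finset.range M, (d' k - d k) ^ 2 + 2 * ∑ k ∈ Finset.range M, d k * (d' k - d k) := by
    rw [Finset.mul_sum, ← Finset.sum_sub_distrib, ← Finset.sum_add_distrib]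
    exact Finset.sum_congr rfl fun k _ => by ring
  have h5 : 0 ≤ ∑ k ∈ Finset.range M, (d' k - d k) ^ 2 := Finset.sum_nonneg fun k _ => sq_nonneg _
  refine ⟨by linarith, fun h k hk => ?_⟩
  have h6 : ∑ k ∈ Finset.range M, (d' k - d k) ^ 2 = 0 := by linarith
  have h7 := (Finset.sum_eq_zero_iff_of_nonneg fun k _ => sq_nonneg _).1 h6 k (Finset.mem_range.2 hk)
  have h8 := pow_eq_zero_iff (two_ne_zero) |>.1 h7
  linarith

variable {Ω : Type} [Field Ω] [CharZero Ω] {q : ℕ}

namespace WChains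

variable {W : FN.{u} Ω q} (E : WChains W)

open Classical in
/-- the chains which cover `b`, `b / q`, ..., `b / q ^ k` -/
noncomputable def thru (b : Ω) (k : ℕ) : Finset E.D.κ :=
  Finset.univ.filter fun c => ∃ s : ℕ, s + k < E.D.l c ∧ E.D.a c / (q : Ω) ^ s = b

theorem mem_thru (b : Ω) (k : ℕ) (c : E.D.κ) :
    c ∈ E.thru b k ↔ ∃ s : ℕ, s + k < E.D.l c ∧ E.D.a c / (q : Ω) ^ s = b := by
  classical
  simp [thru]

theorem thru_zero (b : Ω) : E.thru b 0 = E.cov b := by
  ext c
  rw [mem_thru, mem_cov]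
  constructor
  · rintro ⟨s, hs, h⟩
    exact ⟨⟨s, hs⟩, h⟩
  · rintro ⟨s, h⟩
    exact ⟨s, s.2, h⟩

theorem thru_subset (b : Ω) {j k : ℕ} (hj : j ≤ k) :
    E.thru b k ⊆ E.thru (b / (q : Ω) ^ j) 0 := by
  intro c hc
  rw [mem_thru] at hc ⊢
  obtain ⟨s, hs, h⟩ := hc
  exact ⟨s + j, by omega, by rw [pow_add, ← div_div, h]⟩

/-- Without linked chains, at some place all the chains go through. -/
theorem exists_thru (hq : 1 < q) (hl : ∀ i j k, ¬E.Linked i j k) {b : Ω} (hb : b ≠ 0) (k : ℕ) :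
    ∃ j ≤ k, E.thru (b / (q : Ω) ^ j) 0 ⊆ E.thru b k := by
  classical
  have hq0 : (q : Ω) ≠ 0 := by exact_mod_cast (by omega : q ≠ 0)
  by_contra hcon
  push Not at hcon
  have hne : (E.thru b 0 \ E.thru b k).Nonempty := by
    have h := hcon 0 (Nat.zero_le _)
    rw [pow_zero, div_one] at h
    exact Finset.sdiff_nonempty.2 h
  have hpos : ∀ c ∈ E.thru b 0, ∃ s : ℕ, s < E.D.l c ∧ E.D.a c / (q : Ω) ^ s = b := by
    intro c hc
    obtain ⟨s, hs, h⟩ := (E.mem_thru b 0 c).1 hc
    exact ⟨s, hs, h⟩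
  choose! s hs1 hs2 using hpos
  obtain ⟨c, hc, hmax⟩ := Finset.exists_max_image _ (fun c => E.D.l c - s c) hne
  rw [Finset.mem_sdiff] at hc
  have hsl := hs1 c hc.1
  have hca := hs2 c hc.1
  set e := E.D.l c - 1 - s c with he
  have hek : e < k := by
    by_contra hge
    push Not at hge
    exact hc.2 ((E.mem_thru _ _ _).2 ⟨s c, by omega, hca⟩)
  obtain ⟨c', hc', hcn⟩ := Finset.not_subset.1 (hcon (e + 1) (by omega))
  obtain ⟨t, ht, hta⟩ := (E.mem_thru _ _ _).1 hc'
  have h1 : E.D.a c = b * (q : Ω) ^ s c := by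
    rw [← hca, div_mul_cancel₀ _ (pow_ne_zero _ hq0)]
  have h2 : E.D.a c' = b / (q : Ω) ^ (e + 1) * (q : Ω) ^ t := by
    rw [← hta, div_mul_cancel₀ _ (pow_ne_zero _ hq0)]
  by_cases hte : t ≤ e
  · refine hl c' c (s c + e - t) ⟨?_, by omega, by omega⟩
    rw [h1, h2]
    have h3 : (q : Ω) ^ t * (q : Ω) ^ (s c + e - t + 1) = (q : Ω) ^ s c * (q : Ω) ^ (e + 1) := by
      rw [← pow_add, ← pow_add]
      congr 1
      omega
    rw [mul_assoc, h3, div_mul_eq_mul_div, eq_div_iff (pow_ne_zero _ hq0), mul_assoc]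
  · push Not at hte
    have h3 : E.D.a c' / (q : Ω) ^ (t - (e + 1)) = b := by
      rw [h2, div_eq_iff (pow_ne_zero _ hq0), div_mul_eq_mul_div, div_eq_iff (pow_ne_zero _ hq0),
        mul_assoc, ← pow_add]
      congr 2
      omega
    have h4 : c' ∈ E.thru b 0 := (E.mem_thru _ _ _).2 ⟨t - (e + 1), by omega, h3⟩
    have h5 := hmax c' (Finset.mem_sdiff.2 ⟨h4, hcn⟩)
    have h6 : s c' = t - (e + 1) := q_pow_inj hq (E.a_ne hq c') ((hs2 c' h4).trans h3.symm)
    omega

/-- all eigenvalues -/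
noncomputable def vals : Finset Ω := by
  classical
  exact Finset.univ.image fun y : E.Idx => E.dg y

theorem mem_vals (c : E.D.κ) {s : ℕ} (hs : s < E.D.l c) : E.D.a c / (q : Ω) ^ s ∈ E.vals := by
  classical
  rw [vals, Finset.mem_image]
  exact ⟨⟨c, ⟨s, hs⟩⟩, Finset.mem_univ _, E.dg_eq _⟩

theorem sum_thru (hq : 1 < q) (k : ℕ) (S : Finset Ω) (hS : E.vals ⊆ S) :
    ∑ b ∈ S, (E.thru b k).card = ∑ c, (E.D.l c - k) := by
  classical
  have h1 : ∀ b, (E.thru b k).card =
      ∑ c, if ∃ s : ℕ, s + k < E.D.l c ∧ E.D.a c / (q : Ω) ^ s = b then 1 else 0 := by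
    intro b
    rw [thru, Finset.card_filter]
  simp only [h1]
  rw [Finset.sum_comm]
  refine Finset.sum_congr rfl fun c _ => ?_
  rw [← Finset.card_filter]
  have h2 : (S.filter fun b => ∃ s : ℕ, s + k < E.D.l c ∧ E.D.a c / (q : Ω) ^ s = b) =
      (Finset.range (E.D.l c - k)).image fun s => E.D.a c / (q : Ω) ^ s := by
    ext b
    rw [Finset.mem_filter, Finset.mem_image]
    constructor
    · rintro ⟨-, s, hs, h⟩
      exact ⟨s, Finset.mem_range.2 (by omega), h⟩
    · rintro ⟨s, hs, h⟩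
      rw [Finset.mem_range] at hs
      refine ⟨?_, s, by omega, h⟩
      rw [← h]
      exact hS (E.mem_vals c (by omega))
  rw [h2, Finset.card_image_of_injOn (fun s _ t _ h => q_pow_inj hq (E.a_ne hq c) h),
    Finset.card_range]

theorem card_thru_eq_zero {b : Ω} (hb : b ∉ E.vals) (k : ℕ) : (E.thru b k).card = 0 := by
  rw [Finset.card_eq_zero, Finset.eq_empty_iff_forall_notMem]
  intro c hc
  obtain ⟨s, hs, h⟩ := (E.mem_thru _ _ _).1 hc
  exact hb (h ▸ E.mem_vals c (by omega))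

open Classical in
/-- the number of the chains which begin with `a` and have more than `k` vectors -/
noncomputable def top (a : Ω) (k : ℕ) : ℕ :=
  (Finset.univ.filter fun c => E.D.a c = a ∧ k < E.D.l c).card

theorem thru_split (hq : 1 < q) (a : Ω) (k : ℕ) :
    (E.thru a k).card = E.top a k + (E.thru (a * q) (k + 1)).card := by
  classical
  have hq0 : (q : Ω) ≠ 0 := by exact_mod_cast (by omega : q ≠ 0)
  rw [top, ← Finset.card_union_of_disjoint]
  · congr 1
    ext c
    rw [Finset.mem_union, Finset.mem_filter, mem_thru, mem_thru]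
    constructor
    · rintro ⟨s, hs, h⟩
      rcases Nat.eq_zero_or_pos s with rfl | hpos
      · left
        rw [pow_zero, div_one] at h
        exact ⟨Finset.mem_univ _, h, by omega⟩
      · right
        obtain ⟨s, rfl⟩ : ∃ r, s = r + 1 := ⟨s - 1, by omega⟩
        refine ⟨s, by omega, ?_⟩
        rw [← h, pow_succ, ← div_div, div_mul_cancel₀ _ hq0]
    · rintro (⟨-, h, hk⟩ | ⟨s, hs, h⟩)
      · exact ⟨0, by omega, by rw [pow_zero, div_one, h]⟩
      · exact ⟨s + 1, by omega, by rw [pow_succ, ← div_div, h, mul_div_assoc, div_self hq0, mul_one]⟩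
  · rw [Finset.disjoint_left]
    intro c hc hc'
    rw [Finset.mem_filter] at hc
    obtain ⟨s, hs, h⟩ := (E.mem_thru _ _ _).1 hc'
    have h1 : E.D.a c / (q : Ω) ^ (s + 1) = E.D.a c / (q : Ω) ^ 0 := by
      rw [pow_succ, ← div_div, h, mul_div_assoc, div_self hq0, mul_one, pow_zero, div_one, hc.2.1]
    have := q_pow_inj hq (E.a_ne hq c) h1
    omega

open Classical in
theorem card_exact (a : Ω) (k : ℕ) :
    (Finset.univ.filter fun c => E.D.a c = a ∧ E.D.l c = k + 1).card + E.top a (k + 1) =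
      E.top a k := by
  rw [top, top, ← Finset.card_union_of_disjoint]
  · congr 1
    ext c
    simp only [Finset.mem_union, Finset.mem_filter, Finset.mem_univ, true_and]
    constructor
    · rintro (⟨h, h'⟩ | ⟨h, h'⟩)
      · exact ⟨h, by omega⟩
      · exact ⟨h, by omega⟩
    · rintro ⟨h, h'⟩
      rcases Nat.lt_or_ge (k + 1) (E.D.l c) with h2 | h2
      · exact Or.inr ⟨h, h2⟩
      · exact Or.inl ⟨h, by omega⟩
  · rw [Finset.disjoint_left]
    intro c hc hc'
    rw [Finset.mem_filter] at hc hc'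
    omega

/-- the number of the chains with more than `k` vectors -/
noncomputable def dk (k : ℕ) : ℕ := ∑ c, if k < E.D.l c then 1 else 0

theorem dk_anti (k : ℕ) : E.dk (k + 1) ≤ E.dk k := by
  refine Finset.sum_le_sum fun c _ => ?_
  split_ifs <;> omega

theorem sum_dk (K : ℕ) : ∑ k ∈ Finset.range K, E.dk k = ∑ c, min (E.D.l c) K := by
  simp only [dk]
  rw [Finset.sum_comm]
  refine Finset.sum_congr rfl fun c _ => ?_
  rw [← Finset.card_filter]
  have h1 : ((Finset.range K).filter fun k => k < E.D.l c) = Finset.range (min (E.D.l c) K) := by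
    ext k
    simp only [Finset.mem_filter, Finset.mem_range]
    omega
  rw [h1, Finset.card_range]

theorem sum_dk_sq {M : ℕ} (hM : ∀ c, E.D.l c ≤ M) :
    ∑ k ∈ Finset.range M, E.dk k ^ 2 = ∑ i, ∑ j, min (E.D.l i) (E.D.l j) := by
  have h1 : ∀ k, E.dk k ^ 2 = ∑ i, ∑ j, if k < min (E.D.l i) (E.D.l j) then 1 else 0 := by
    intro k
    rw [sq, dk, Finset.sum_mul_sum]
    refine Finset.sum_congr rfl fun i _ => Finset.sum_congr rfl fun j _ => ?_
    split_ifs <;> omega
  simp only [h1]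
  rw [Finset.sum_comm]
  refine Finset.sum_congr rfl fun i _ => ?_
  rw [Finset.sum_comm]
  refine Finset.sum_congr rfl fun j _ => ?_
  rw [← Finset.card_filter]
  have h2 : ((Finset.range M).filter fun k => k < min (E.D.l i) (E.D.l j)) =
      Finset.range (min (E.D.l i) (E.D.l j)) := by
    ext k
    simp only [Finset.mem_filter, Finset.mem_range]
    have := hM i
    omega
  rw [h2, Finset.card_range]

end WChains

end Pool.Agent.X305.WM
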