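import Pool.Agent.X305.WM.CdrDefs
import Pool.Agent.X305.WM.GenDefs

/-!
# Isomorphism up to Frobenius semisimplification: definition
-/

set_option autoImplicit false

namespace Pool.Agent.X305.WM

open Module Pool.Agent.X268.WM

universe u

variable {Ω : Type} [Field Ω] [CharZero Ω] {q : ℕ}

/-- `W` and `W'` have isomorphic Frobenius semisimplifications: an isomorphism of the vector spaces transforms `N`
to `N'` and maps the generalized eigenspaces of `F` to those of `F'`. -/
def FssIso (W W' : FN.{u} Ω q) : Prop :=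
  ∃ e : W.V ≃ₗ[Ω] W'.V, (∀ v, e (W.N v) = W'.N (e v)) ∧
    ∀ a, ∀ v ∈ W.F.maxGenEigenspace a, e v ∈ W'.F.maxGenEigenspace a

/-- The dimension of the kernel of `N ^ k`. -/
noncomputable def nullity (W : FN.{u} Ω q) (k : ℕ) : ℕ := finrank Ω ↥(LinearMap.ker (W.N ^ k))

/-- The operators `F` of `W` and `W'` have the same characteristic polynomial. -/
def SameEigenvalues (W W' : FN.{u} Ω q) : Prop := W'.F.charpoly = W.F.charpoly

/-- The sum of the `f j * dim ker (N | A j)`. -/
noncomputable def totalKer {J : Type} [Fintype J] (f : J → ℕ) (A : ∀ j, FN.{u} Ω (q ^ f j)) : ℕ :=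
  ∑ j, f j * kerDim (A j)

end Pool.Agent.X305.WM
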