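import Pool.Agent.X305.WM.Loc

/-!
# Generic monodromy operators: comparison
-/

set_option autoImplicit false

namespace Pool.Agent.X305.WM

open Module Polynomial Pool.Agent.X268.WM

universe u

variable {Ω : Type} [Field Ω] [CharZero Ω] {q : ℕ} {W W' : FN.{u} Ω q}

namespace WChains

theorem thru_le (hq : 1 < q) (E : WChains W) (E' : WChains W') (hl : ∀ i j k, ¬E.Linked i j k)
    (hm : ∀ b, W.mult b = W'.mult b) (b : Ω) (k : ℕ) :
    (E'.thru b k).card ≤ (E.thru b k).card := by
  have hq0 : (q : Ω) ≠ 0 := by exact_mod_cast (by omega : q ≠ 0)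
  by_cases hb : b = 0
  · have h1 : (E'.thru b k).card = 0 := by
      rw [Finset.card_eq_zero, Finset.eq_empty_iff_forall_notMem]
      intro c hc
      obtain ⟨s, -, h⟩ := (E'.mem_thru _ _ _).1 hc
      rw [hb, div_eq_zero_iff] at h
      rcases h with h | h
      · exact E'.a_ne hq c h
      · exact pow_ne_zero _ hq0 h
    rw [h1]
    exact Nat.zero_le _
  · obtain ⟨j, hj, h⟩ := E.exists_thru hq hl hb k
    refine (Finset.card_le_card (E'.thru_subset b hj)).trans ?_
    rw [thru_zero, card_cov _ hq, ← hm, ← card_cov E hq, ← thru_zero]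
    exact Finset.card_le_card h

theorem sum_sub_le (hq : 1 < q) (E : WChains W) (E' : WChains W')
    (hl : ∀ i j k, ¬E.Linked i j k) (hm : ∀ b, W.mult b = W'.mult b) (k : ℕ) :
    ∑ c, (E'.D.l c - k) ≤ ∑ c, (E.D.l c - k) := by
  classical
  rw [← E.sum_thru hq k (E.vals ∪ E'.vals) Finset.subset_union_left,
    ← E'.sum_thru hq k (E.vals ∪ E'.vals) Finset.subset_union_right]
  exact Finset.sum_le_sum fun b _ => thru_le hq E E' hl hm b k

theorem sum_length (hq : 1 < q) (E : WChains W) (E' : WChains W')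
    (hm : ∀ b, W.mult b = W'.mult b) : ∑ c, E.D.l c = ∑ c, E'.D.l c := by
  classical
  have h1 := E.sum_thru hq 0 (E.vals ∪ E'.vals) Finset.subset_union_left
  have h2 := E'.sum_thru hq 0 (E.vals ∪ E'.vals) Finset.subset_union_right
  simp only [Nat.sub_zero] at h1 h2
  rw [← h1, ← h2]
  refine Finset.sum_congr rfl fun b _ => ?_
  rw [thru_zero, thru_zero, card_cov _ hq, card_cov _ hq, hm]

theorem sum_min (E : WChains W) (K : ℕ) :
    ∑ c, min (E.D.l c) K + ∑ c, (E.D.l c - K) = ∑ c, E.D.l c := by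
  rw [← Finset.sum_add_distrib]
  exact Finset.sum_congr rfl fun c _ => by omega

theorem sum_min_le (hq : 1 < q) (E : WChains W) (E' : WChains W')
    (hl : ∀ i j k, ¬E.Linked i j k) (hm : ∀ b, W.mult b = W'.mult b) (K : ℕ) :
    ∑ c, min (E.D.l c) K ≤ ∑ c, min (E'.D.l c) K := by
  have h1 := sum_sub_le hq E E' hl hm K
  have h2 := sum_length hq E E' hm
  have h3 := E.sum_min K
  have h4 := E'.sum_min K
  omega

theorem exists_bound (E : WChains W) (E' : WChains W') :
    ∃ M, (∀ c, E.D.l c ≤ M) ∧ ∀ c, E'.D.l c ≤ M := by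
  refine ⟨∑ c, E.D.l c + ∑ c, E'.D.l c, fun c => ?_, fun c => ?_⟩
  · exact (Finset.single_le_sum (f := fun c => E.D.l c) (fun _ _ => Nat.zero_le _)
      (Finset.mem_univ c)).trans (Nat.le_add_right _ _)
  · exact (Finset.single_le_sum (f := fun c => E'.D.l c) (fun _ _ => Nat.zero_le _)
      (Finset.mem_univ c)).trans (Nat.le_add_left _ _)

/-- **The centralizer of a generic `N` is the smallest one.** -/
theorem cent_le (hq : 1 < q) (E : WChains W) (E' : WChains W')
    (hl : ∀ i j k, ¬E.Linked i j k) (hm : ∀ b, W.mult b = W'.mult b) :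
    finrank Ω ↥(cent W.N) ≤ finrank Ω ↥(cent W'.N) ∧
      (finrank Ω ↥(cent W'.N) = finrank Ω ↥(cent W.N) →
        ∀ b k, (E'.thru b k).card = (E.thru b k).card) := by
  classical
  obtain ⟨M, hM, hM'⟩ := exists_bound E E'
  rw [E.D.finrank_cent, E'.D.finrank_cent, ← E.sum_dk_sq hM, ← E'.sum_dk_sq hM']
  have h1 := abel_le (fun k => (E.dk k : ℤ)) (fun k => (E'.dk k : ℤ)) M
    (fun k => by exact_mod_cast E.dk_anti k)
    (fun K => by
      have h2 := sum_min_le hq E E' hl hm K
      rw [← E.sum_dk, ← E'.sum_dk] at h2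
      exact_mod_cast h2)
    (by
      have h2 := sum_length hq E E' hm
      have h3 : ∑ c, min (E.D.l c) M = ∑ c, E.D.l c :=
        Finset.sum_congr rfl fun c _ => min_eq_left (hM c)
      have h4 : ∑ c, min (E'.D.l c) M = ∑ c, E'.D.l c :=
        Finset.sum_congr rfl fun c _ => min_eq_left (hM' c)
      have h5 : ∑ k ∈ Finset.range M, E.dk k = ∑ k ∈ Finset.range M, E'.dk k := by
        rw [E.sum_dk, E'.sum_dk, h3, h4, h2]
      exact_mod_cast h5)
  refine ⟨by exact_mod_cast h1.1, fun h b k => ?_⟩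
  have h2 : ∀ k < M, E'.dk k = E.dk k := fun k hk => by
    have h3 := h1.2 (by exact_mod_cast h) k hk
    exact_mod_cast h3
  have h3 : ∀ k, E'.dk k = E.dk k := by
    intro k
    rcases lt_or_ge k M with hk | hk
    · exact h2 k hk
    · rw [dk, dk, Finset.sum_eq_zero, Finset.sum_eq_zero]
      · intro c _
        rw [if_neg (by have := hM c; omega)]
      · intro c _
        rw [if_neg (by have := hM' c; omega)]
  have h4 : ∑ c, (E'.D.l c - k) = ∑ c, (E.D.l c - k) := by
    have h5 : ∑ c, min (E'.D.l c) k = ∑ c, min (E.D.l c) k := by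
      rw [← E.sum_dk, ← E'.sum_dk]
      exact Finset.sum_congr rfl fun k _ => h3 k
    have h6 := sum_length hq E E' hm
    have h7 := E.sum_min k
    have h8 := E'.sum_min k
    omega
  by_cases hb : b ∈ E.vals ∪ E'.vals
  · rw [← E.sum_thru hq k (E.vals ∪ E'.vals) Finset.subset_union_left,
      ← E'.sum_thru hq k (E.vals ∪ E'.vals) Finset.subset_union_right] at h4
    exact (Finset.sum_eq_sum_iff_of_le fun b _ => thru_le hq E E' hl hm b k).1 h4 b hb
  · rw [Finset.mem_union, not_or] at hb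
    rw [E.card_thru_eq_zero hb.1, E'.card_thru_eq_zero hb.2]

/-- Chains with the same numbers give an isomorphism up to Frobenius semisimplification. -/
theorem fssIso (hq : 1 < q) (E : WChains W) (E' : WChains W')
    (h : ∀ b k, (E'.thru b k).card = (E.thru b k).card) : FssIso W W' := by
  classical
  have htop : ∀ a k, E.top a k = E'.top a k := by
    intro a k
    have h1 := E.thru_split hq a k
    have h2 := E'.thru_split hq a k
    rw [h, h] at h2
    omega
  have hfib : ∀ x : Ω × ℕ, Nonempty ({c // (E.D.a c, E.D.l c) = x} ≃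
      {c // (E'.D.a c, E'.D.l c) = x}) := by
    rintro ⟨a, l⟩
    refine ⟨Fintype.equivOfCardEq ?_⟩
    rw [Fintype.card_subtype, Fintype.card_subtype]
    rcases Nat.eq_zero_or_pos l with rfl | hpos
    · have h1 : (Finset.univ.filter fun c => (E.D.a c, E.D.l c) = (a, 0)) = ∅ := by
        refine Finset.filter_false_of_mem fun c _ hc => ?_
        have := E.D.pos c
        rw [Prod.mk.injEq] at hc
        omega
      have h2 : (Finset.univ.filter fun c => (E'.D.a c, E'.D.l c) = (a, 0)) = ∅ := by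
        refine Finset.filter_false_of_mem fun c _ hc => ?_
        have := E'.D.pos c
        rw [Prod.mk.injEq] at hc
        omega
      rw [h1, h2]
      rfl
    · obtain ⟨k, rfl⟩ : ∃ k, l = k + 1 := ⟨l - 1, by omega⟩
      have h1 := E.card_exact a k
      have h2 := E'.card_exact a k
      rw [htop a k, htop a (k + 1)] at h1
      simp only [Prod.mk.injEq]
      omega
  let σ : E.D.κ ≃ E'.D.κ := Equiv.ofFiberEquiv fun x => (hfib x).some
  have hσ : ∀ c, (E'.D.a (σ c), E'.D.l (σ c)) = (E.D.a c, E.D.l c) := fun c =>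
    Equiv.ofFiberEquiv_map (f := fun c => (E.D.a c, E.D.l c))
      (g := fun c => (E'.D.a c, E'.D.l c)) (fun x => (hfib x).some) c
  have hσa : ∀ c, E'.D.a (σ c) = E.D.a c := fun c => congrArg Prod.fst (hσ c)
  have hσl : ∀ c, E'.D.l (σ c) = E.D.l c := fun c => congrArg Prod.snd (hσ c)
  let τ : E.Idx ≃ E'.Idx := Equiv.sigmaCongr σ fun c => finCongr (hσl c).symm
  have hτ : ∀ (c : E.D.κ) (s : Fin (E.D.l c)),
      τ ⟨c, s⟩ = ⟨σ c, ⟨s, by rw [hσl]; exact s.2⟩⟩ := fun c s => rfl
  let e : W.V ≃ₗ[Ω] W'.V := E.D.basis.equiv E'.D.basis τ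
  have he : ∀ x, e (E.D.basis x) = E'.D.basis (τ x) := fun x => by
    simp [e, Basis.equiv_apply]
  refine ⟨e, fun v => ?_, fun a v hv => ?_⟩
  · have h1 : e.toLinearMap ∘ₗ W.N = W'.N ∘ₗ e.toLinearMap := by
      refine E.D.basis.ext ?_
      rintro ⟨c, s⟩
      change e (W.N (E.D.basis ⟨c, s⟩)) = W'.N (e (E.D.basis ⟨c, s⟩))
      rw [he, hτ]
      by_cases hs : (s : ℕ) + 1 < E.D.l c
      · have h5 := Chains.pow_basis (D := E.D) 1 c s hs
        have h6 := Chains.pow_basis (D := E'.D) 1 (σ c) ⟨s, by rw [hσl]; exact s.2⟩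
          (by change (s : ℕ) + 1 < E'.D.l (σ c); rw [hσl]; exact hs)
        rw [pow_one] at h5 h6
        rw [h5, h6, he, hτ]
      · have h5 := Chains.pow_basis_zero (D := E.D) 1 c s (by omega)
        have h6 := Chains.pow_basis_zero (D := E'.D) 1 (σ c) ⟨s, by rw [hσl]; exact s.2⟩
          (by change E'.D.l (σ c) ≤ (s : ℕ) + 1; rw [hσl]; omega)
        rw [pow_one] at h5 h6
        rw [h5, h6, map_zero]
    exact LinearMap.congr_fun h1 v
  · rw [← E.D.basis.sum_repr v, map_sum]
    refine Submodule.sum_mem _ fun x _ => ?_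
    rw [map_smul, he]
    by_cases hx : E.D.basis.repr v x = 0
    · rw [hx, zero_smul]
      exact Submodule.zero_mem _
    · refine Submodule.smul_mem _ _ ?_
      have h4 := (WChains.mem_gen_iff (E := E) hq a v).1 hv x hx
      have h5 := Chains.basis_mem (D := E'.D) (gen_shift hq W') (τ x)
      have h6 : E'.dg (τ x) = a := by
        obtain ⟨c, s⟩ := x
        rw [← h4, E'.dg_eq, E.dg_eq, hτ, hσa]
      rw [← h6]
      exact h5

end WChains

theorem cent_eq_of_iso (h : FssIso W W') : finrank Ω ↥(cent W'.N) = finrank Ω ↥(cent W.N) := by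
  obtain ⟨e, hN, -⟩ := h
  have h1 : ∀ v, e.symm (W'.N v) = W.N (e.symm v) := by
    intro v
    apply e.injective
    rw [hN, e.apply_symm_apply, e.apply_symm_apply]
  have h2 : Submodule.map e.conj.toLinearMap (cent W.N) = cent W'.N := by
    ext Z
    constructor
    · rintro ⟨Y, hY, rfl⟩ v
      change W'.N (e (Y (e.symm v))) = e (Y (e.symm (W'.N v)))
      rw [h1, ← hN, hY]
    · intro hZ
      refine ⟨e.symm.conj Z, fun v => ?_, ?_⟩
      · change W.N (e.symm (Z (e v))) = e.symm (Z (e (W.N v)))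
        rw [hN, ← h1, hZ]
      · ext v
        change e (e.symm (Z (e (e.symm v)))) = Z v
        rw [e.apply_symm_apply, e.apply_symm_apply]
  rw [← h2]
  exact LinearEquiv.finrank_map_eq e.conj _

/-- **Conductors and local-global compatibility.** -/
theorem compatibility [IsAlgClosed Ω] (hq : 1 < q) {A A' : FN.{u} Ω q} (hA : IsEndOf A W)
    (hA' : IsEndOf A' W') (hmix : W.IsMixed) (hcp : W'.F.charpoly = W.F.charpoly)
    (hgen : NoTwistedEndomorphism W) :
    (∀ k, finrank Ω ↥(LinearMap.ker (W.N ^ k)) ≤ finrank Ω ↥(LinearMap.ker (W'.N ^ k))) ∧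
      kerDim A ≤ kerDim A' ∧ (kerDim A' = kerDim A ↔ FssIso W W') := by
  have hm : ∀ b, W.mult b = W'.mult b := fun b => by
    rw [← rm_charpoly, ← rm_charpoly, hcp]
  have hmix' : W'.IsMixed := by
    intro a ha
    refine hmix a ?_
    rw [Module.End.hasEigenvalue_iff_isRoot_charpoly] at ha ⊢
    rwa [hcp] at ha
  obtain ⟨E⟩ := exists_wchains hq hmix
  obtain ⟨E'⟩ := exists_wchains hq hmix'
  have hl := fun i j k => notLinked hq hmix E hgen i j k
  have h1 := WChains.cent_le hq E E' hl hm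
  rw [kerDim_eq hA, kerDim_eq hA']
  refine ⟨fun k => ?_, h1.1, fun h => WChains.fssIso hq E E' (h1.2 h), cent_eq_of_iso⟩
  rw [E.D.finrank_ker_pow, E'.D.finrank_ker_pow]
  exact WChains.sum_min_le hq E E' hl hm k

end Pool.Agent.X305.WM
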