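import Pool.Agent.X305.WM.EulerPoly

/-!
# Dual pairs and common poles of local `L`-factors: definitions
-/

set_option autoImplicit false

namespace Pool.Agent.X305.WM

open Module Polynomial Pool.Agent.X268.WM

universe u

variable {Ω : Type} [Field Ω] [CharZero Ω] {q : ℕ}

/-- `W'` is dual to `W`: there is a perfect pairing of `W'` and `W`, invariant under Frobenius and under the
monodromy operators. -/
def DualPair (W' W : FN.{u} Ω q) : Prop :=
  ∃ B : W'.V →ₗ[Ω] W.V →ₗ[Ω] Ω, (∀ z, (∀ x, B z x = 0) → z = 0) ∧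
    (∀ x, (∀ z, B z x = 0) → x = 0) ∧ (∀ z x, B (W'.F z) (W.F x) = B z x) ∧
    ∀ z x, B (W'.N z) x = -B z (W.N x)

/-- `L_p(M, s)` and `L_p(M', 1 - s)` have no common pole. The poles of `L_p(M, s)` are the `s` such that
`q ^ s` is a root of the characteristic polynomial of `F` on the kernel of `N`. -/
def NoCommonPole (W' W : FN.{u} Ω q) : Prop :=
  ∀ a : Ω, (kerPoly W).IsRoot a → ¬(kerPoly W').IsRoot ((q : Ω) / a)

/-- The eigenvalues of Frobenius on the kernels of `N` in `W` and in `W'` are Weil numbers, and the sum of a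
weight of the first and of a weight of the second is less than `2`. -/
def SmallWeights (W' W : FN.{u} Ω q) : Prop :=
  ∀ a a' : Ω, (kerPoly W).IsRoot a → (kerPoly W').IsRoot a' →
    ∃ w w' : ℤ, IsWeil q w a ∧ IsWeil q w' a' ∧ w + w' < 2

/-- The weight-monodromy property for the weight `i`: the eigenvalues of Frobenius are Weil numbers, and for
`k ≥ 0` the operator `N ^ k` maps the part of weight `i + k` isomorphically onto that of weight `i - k`. -/
def WeightMonodromy (W : FN.{u} Ω q) (i : ℤ) : Prop :=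
  W.IsMixed ∧ ∀ k : ℕ, ∀ a : Ω, IsWeil q (i + k) a →
    (∀ v ∈ W.F.maxGenEigenspace a, (W.N ^ k) v = 0 → v = 0) ∧
    ∀ u ∈ W.F.maxGenEigenspace (a / (q : Ω) ^ k), ∃ v ∈ W.F.maxGenEigenspace a, (W.N ^ k) v = u

end Pool.Agent.X305.WM
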